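import Pool.Agent.Lib.MP_666dc0_nt.LD.ECDefs

namespace Pool.Agent.Lib.MP_666dc0_nt.LD

variable {K K1 : Type} [Field K] [Field K1] [Algebra K K1] {n : ℕ}

private theorem EC1_e_dg {J : Finset ℤ} {e : ℤ → Matrix (Fin n) (Fin n) K1} (he : Proj J e) (z : K1)
    {j : ℤ} (hj : j ∈ J) : e j * dg J e z = z ^ j • e j := by
  unfold dg
  rw [Finset.mul_sum, Finset.sum_eq_single j]
  · rw [Matrix.mul_smul, he.idem j hj]
  · intro k hk hkj
    rw [Matrix.mul_smul, he.orth j hj k hk (Ne.symm hkj), smul_zero]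
  · intro h
    exact absurd hj h

private theorem EC1_dg_e {J : Finset ℤ} {e : ℤ → Matrix (Fin n) (Fin n) K1} (he : Proj J e) (z : K1)
    {j : ℤ} (hj : j ∈ J) : dg J e z * e j = z ^ j • e j := by
  unfold dg
  rw [Finset.sum_mul, Finset.sum_eq_single j]
  · rw [Matrix.smul_mul, he.idem j hj]
  · intro k hk hkj
    rw [Matrix.smul_mul, he.orth k hk j hj hkj, smul_zero]
  · intro h
    exact absurd hj h

/-- `dg` is multiplicative, `dg 1 = 1`, `e j * dg z = z ^ j • e j`; if `X` commutes with all `e j`, `(X * dg z) ^ a = ∑ j ∈ J, z ^ (j * a) • (e j * X ^ a)`. -/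
theorem Proj.pow {J : Finset ℤ} {e : ℤ → Matrix (Fin n) (Fin n) K1} (he : Proj J e)
    (X : Matrix (Fin n) (Fin n) K1) (hX : ∀ j ∈ J, e j * X = X * e j) (z : K1) (hz : z ≠ 0) (a : ℕ) :
    (X * dg J e z) ^ a = ∑ j ∈ J, z ^ (j * (a : ℤ)) • (e j * X ^ a) := by
  induction a with
  | zero =>
    simp only [pow_zero, Nat.cast_zero, mul_zero, zpow_zero, mul_one, one_smul]
    exact he.sum_eq.symm
  | succ a ih =>
    rw [pow_succ, ih, Finset.sum_mul]
    refine Finset.sum_congr rfl fun j hj => ?_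
    have hc : Commute (e j) (X ^ (a + 1)) := Commute.pow_right (hX j hj) (a + 1)
    have h1 : (e j * X ^ a) * (X * dg J e z) = z ^ j • (e j * X ^ (a + 1)) := by
      calc (e j * X ^ a) * (X * dg J e z) = (e j * X ^ (a + 1)) * dg J e z := by
            rw [pow_succ, ← mul_assoc, ← mul_assoc]
        _ = (X ^ (a + 1) * e j) * dg J e z := by rw [hc.eq]
        _ = X ^ (a + 1) * (z ^ j • e j) := by rw [mul_assoc, EC1_e_dg he z hj]
        _ = z ^ j • (e j * X ^ (a + 1)) := by rw [Matrix.mul_smul, hc.eq]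
    rw [Matrix.smul_mul, h1, smul_smul, ← zpow_add₀ hz]
    congr 2
    push_cast
    ring

theorem Proj.mul_dg {J : Finset ℤ} {e : ℤ → Matrix (Fin n) (Fin n) K1} (he : Proj J e) (z w : K1)
    (hz : z ≠ 0) (hw : w ≠ 0) : dg J e z * dg J e w = dg J e (z * w) := by
  have h1 : ∀ j ∈ J, (z ^ j • e j) * dg J e w = (z * w) ^ j • e j := by
    intro j hj
    rw [Matrix.smul_mul, EC1_e_dg he w hj, smul_smul, mul_zpow]
  calc dg J e z * dg J e w = ∑ j ∈ J, (z ^ j • e j) * dg J e w := by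
        rw [← Finset.sum_mul]
        rfl
    _ = ∑ j ∈ J, (z * w) ^ j • e j := Finset.sum_congr rfl h1
    _ = dg J e (z * w) := rfl

theorem Proj.e_mul_dg {J : Finset ℤ} {e : ℤ → Matrix (Fin n) (Fin n) K1} (he : Proj J e) (z : K1)
    {j : ℤ} (hj : j ∈ J) : e j * dg J e z = z ^ j • e j ∧ dg J e z * e j = z ^ j • e j := by
  exact ⟨EC1_e_dg he z hj, EC1_dg_e he z hj⟩

end Pool.Agent.Lib.MP_666dc0_nt.LD
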