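import Mathlib

namespace Pool.Agent.Lib.MP_666dc0_nt.LD

variable {K K1 : Type} [Field K] [Field K1] [Algebra K K1] {n : ℕ}

/-- A system of commuting projectors, indexed by the finite set `J` of weights. -/
structure Proj (J : Finset ℤ) (e : ℤ → Matrix (Fin n) (Fin n) K1) : Prop where
  idem : ∀ i ∈ J, e i * e i = e i
  orth : ∀ i ∈ J, ∀ j ∈ J, i ≠ j → e i * e j = 0
  sum_eq : ∑ j ∈ J, e j = 1

/-- The matrix `∑ z ^ j e_j`. -/
noncomputable def dg (J : Finset ℤ) (e : ℤ → Matrix (Fin n) (Fin n) K1) (z : K1) :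
    Matrix (Fin n) (Fin n) K1 := ∑ j ∈ J, z ^ j • e j

end Pool.Agent.Lib.MP_666dc0_nt.LD
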