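import Pool.Agent.Lib.MP_666dc0_nt.LD.EC1

namespace Pool.Agent.Lib.MP_666dc0_nt.LD

variable {K K1 : Type} [Field K] [Field K1] [Algebra K K1] {n : ℕ}

/-- The eigenprojections: if `X` is killed by `∏_{α ∈ Λ} (X - α)`, `Λ ⊂ K ∖ 0`, and commutes with the `e j`, and the elements `α T ^ j` are distinct (`hT`), then `e i` is a polynomial in `X * dg J e T`, for every `i ∈ J`; the polynomial
`Q` only depends on `Λ`, `J`, `T`, `i`. (`X * dg T` is killed by `∏_{α, j} (X - α T^j)`: multiply by `e j`. Let `Q` be the Lagrange interpolation polynomial with `Q(α T^j) = δ_ij` on the finite set of the `α T ^ j`. With `E_α := Lagrange basis polynomial at X`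
(`X = ∑ α E_α`, `∑ E_α = 1`, orthogonal idempotents), `X dg T = ∑_{α,j} α T^j E_α e_j`, so `Q(X dg T) = ∑ Q(αT^j) E_α e_j = e_i`. Alternatively: `Q(X dg T) e_j = Q(T^j X) e_j` and the polynomial `Q(T^j Y)` in `Y` takes the constant value `δ_ij` on `Λ`, so it is
`δ_ij` modulo `∏ (Y - α)`.) -/
theorem exists_proj_poly (T : K1) (hT0 : T ≠ 0)
    (hT : ∀ (α β : K) (i j : ℤ), α ≠ 0 → β ≠ 0 →
      algebraMap K K1 α * T ^ i = algebraMap K K1 β * T ^ j → i = j)
    (J : Finset ℤ) (Λ : Finset K) (h0 : (0 : K) ∉ Λ) (i : ℤ) :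
    ∃ Q : Polynomial K1, ∀ (e : ℤ → Matrix (Fin n) (Fin n) K1), Proj J e →
      ∀ X : Matrix (Fin n) (Fin n) K1, (∀ j ∈ J, e j * X = X * e j) →
      Polynomial.aeval X (∏ α ∈ Λ, (Polynomial.X - Polynomial.C (algebraMap K K1 α))) = 0 →
      i ∈ J → Polynomial.aeval (X * dg J e T) Q = e i := by
  classical
  set S : Finset K1 := (Λ ×ˢ J).image (fun q => algebraMap K K1 q.1 * T ^ q.2) with hS
  set r : K1 → K1 := fun x => if ∃ α ∈ Λ, x = algebraMap K K1 α * T ^ i then 1 else 0 with hr
  refine ⟨Lagrange.interpolate S id r, ?_⟩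
  intro e he X hX hΛ hi
  have hQ : ∀ α ∈ Λ, ∀ j ∈ J,
      (Lagrange.interpolate S id r).eval (algebraMap K K1 α * T ^ j) = if j = i then 1 else 0 := by
    intro α hα j hj
    have hmem : algebraMap K K1 α * T ^ j ∈ S :=
      Finset.mem_image.mpr ⟨(α, j), Finset.mk_mem_product hα hj, rfl⟩
    have h1 := Lagrange.eval_interpolate_at_node (s := S) (v := id) r
      (Function.injective_id.injOn) hmem
    rw [id_eq] at h1
    rw [h1, hr]
    by_cases hji : j = i
    · rw [if_pos hji]
      exact if_pos ⟨α, hα, by rw [hji]⟩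
    · rw [if_neg hji]
      refine if_neg ?_
      rintro ⟨β, hβ, h2⟩
      exact hji (hT α β j i (fun h3 => h0 (h3 ▸ hα)) (fun h3 => h0 (h3 ▸ hβ)) h2)
  set Q := Lagrange.interpolate S id r
  have hpow : ∀ j ∈ J, ∀ a : ℕ, (X * dg J e T) ^ a * e j = (T ^ j • X) ^ a * e j := by
    intro j hj a
    induction a with
    | zero => rw [pow_zero, pow_zero]
    | succ a ih =>
      have h1 : (X * dg J e T) * e j = e j * (T ^ j • X) := by
        rw [mul_assoc, (he.e_mul_dg T hj).2, mul_smul_comm, mul_smul_comm, hX j hj]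
      rw [pow_succ, mul_assoc, h1, ← mul_assoc, ih, mul_assoc, mul_smul_comm, hX j hj,
        ← smul_mul_assoc, ← mul_assoc, ← pow_succ]
  have haev : ∀ j ∈ J, ∀ P : Polynomial K1,
      Polynomial.aeval (X * dg J e T) P * e j = Polynomial.aeval (T ^ j • X) P * e j := by
    intro j hj P
    induction P using Polynomial.induction_on' with
    | add p q hp hq => rw [map_add, map_add, add_mul, add_mul, hp, hq]
    | monomial a c =>
      rw [Polynomial.aeval_monomial, Polynomial.aeval_monomial, mul_assoc, mul_assoc, hpow j hj a]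
  have hone : ∀ j ∈ J, Polynomial.aeval (T ^ j • X) Q = if j = i then 1 else 0 := by
    intro j hj
    set R : Polynomial K1 := Q.comp (Polynomial.C (T ^ j) * Polynomial.X) -
      Polynomial.C (if j = i then 1 else 0) with hR
    have hdvd : (∏ α ∈ Λ, (Polynomial.X - Polynomial.C (algebraMap K K1 α))) ∣ R := by
      apply Finset.prod_dvd_of_coprime
      · intro a _ b _ hab
        exact Polynomial.pairwise_coprime_X_sub_C (algebraMap K K1).injective hab
      · intro α hα
        rw [Polynomial.dvd_iff_isRoot, Polynomial.IsRoot.def, hR, Polynomial.eval_sub,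
          Polynomial.eval_comp, Polynomial.eval_mul, Polynomial.eval_C, Polynomial.eval_X,
          Polynomial.eval_C, mul_comm, hQ α hα j hj, sub_self]
    obtain ⟨W, hW⟩ := hdvd
    have h1 : Polynomial.aeval X R = 0 := by
      rw [hW, map_mul, hΛ, zero_mul]
    rw [hR, map_sub, Polynomial.aeval_comp, sub_eq_zero, map_mul, Polynomial.aeval_C,
      Polynomial.aeval_X, ← Algebra.smul_def] at h1
    rw [h1, Polynomial.aeval_C]
    split_ifs
    · rw [map_one]
    · rw [map_zero]
  calc Polynomial.aeval (X * dg J e T) Q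
      = Polynomial.aeval (X * dg J e T) Q * ∑ j ∈ J, e j := by rw [he.sum_eq, mul_one]
    _ = ∑ j ∈ J, (if j = i then e j else 0) := by
        rw [Finset.mul_sum]
        refine Finset.sum_congr rfl fun j hj => ?_
        rw [haev j hj Q, hone j hj]
        split_ifs
        · rw [one_mul]
        · rw [zero_mul]
    _ = e i := by rw [Finset.sum_ite_eq' J i e, if_pos hi]

end Pool.Agent.Lib.MP_666dc0_nt.LD
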