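import Pool.Agent.Lib.MP_666dc0_nt.LD.ADefs

namespace Pool.Agent.Lib.MP_666dc0_nt.LD

private theorem A3b_zsmul {X L : Type} [Field L] {R : Type} [CommRing R] [Algebra R L]
    (𝒮 : Subalgebra R (X → L)) (n : ℤ) {f : X → L} (hf : f ∈ 𝒮) :
    (fun x => (n : L) * f x) ∈ 𝒮 := by
  have h1 : (fun x => (n : L) * f x) = n • f := by
    funext x
    rw [Pi.smul_apply, zsmul_eq_mul]
  rw [h1]
  exact Subalgebra.zsmul_mem 𝒮 hf n

/-- A matrix of functions in the subalgebra has its determinant in the subalgebra. -/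
private theorem A3b_det {X L : Type} [Field L] {R : Type} [CommRing R] [Algebra R L]
    (𝒮 : Subalgebra R (X → L)) {d : ℕ} (A : X → Matrix (Fin d) (Fin d) L)
    (hA : ∀ i j, (fun x => A x i j) ∈ 𝒮) : (fun x => (A x).det) ∈ 𝒮 := by
  have h1 : (fun x => (A x).det) = ∑ σ : Equiv.Perm (Fin d),
      (fun x => ((Equiv.Perm.sign σ : ℤ) : L) * (∏ i, (fun x => A x (σ i) i)) x) := by
    funext x
    rw [Matrix.det_apply', Finset.sum_apply]
    refine Finset.sum_congr rfl fun σ _ => ?_
    rw [Finset.prod_apply]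
  rw [h1]
  refine Subalgebra.sum_mem _ fun σ _ => ?_
  exact A3b_zsmul 𝒮 _ (Subalgebra.prod_mem _ fun i _ => hA _ _)


/-- A subalgebra `𝒮` of functions with values in `L` is closed under determinants: if all `x ↦ (z x) ^ m`, `m : ℤ`, and `x ↦ χ b x` are in `𝒮` then so are `x ↦ det (vdm j k (z x))` and `x ↦ eta j k (z x) (χ · x) a`.
(`Matrix.det_apply` is a sum of products of entries up to sign; the entries of the adjugate are determinants of `updateRow`: `Matrix.adjugate_apply`, `Matrix.det_apply` again, entries `Pi.single`.) -/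
theorem det_mem {X L : Type} [Field L] {R : Type} [CommRing R] [Algebra R L]
    (𝒮 : Subalgebra R (X → L)) {d : ℕ} (j k : Fin d → ℤ) (z : X → L)
    (hz : ∀ m : ℤ, (fun x => z x ^ m) ∈ 𝒮) : (fun x => (vdm j k (z x)).det) ∈ 𝒮 := by
  exact A3b_det 𝒮 (fun x => vdm j k (z x)) fun i i' => hz _

theorem eta_mem {X L : Type} [Field L] {R : Type} [CommRing R] [Algebra R L]
    (𝒮 : Subalgebra R (X → L)) {d : ℕ} (j k : Fin d → ℤ) (z : X → L)
    (hz : ∀ m : ℤ, (fun x => z x ^ m) ∈ 𝒮) (χ : Fin d → X → L) (hχ : ∀ b, χ b ∈ 𝒮) (a : Fin d) :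
    (fun x => eta j k (z x) (fun b => χ b x) a) ∈ 𝒮 := by
  have h1 : (fun x => eta j k (z x) (fun b => χ b x) a) =
      ∑ b, χ b * (fun x => (vdm j k (z x)).adjugate b a) := by
    funext x
    rw [Finset.sum_apply]
    rfl
  rw [h1]
  refine Subalgebra.sum_mem _ fun b _ => Subalgebra.mul_mem _ (hχ b) ?_
  simp only [Matrix.adjugate_apply]
  refine A3b_det 𝒮 (fun x => (vdm j k (z x)).updateRow a (Pi.single b 1)) fun i i' => ?_
  by_cases h : i = a
  · subst h
    simp only [Matrix.updateRow_self]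
    have h2 : (fun _ : X => (Pi.single b (1 : L) : Fin d → L) i') =
        algebraMap R (X → L) (if i' = b then 1 else 0) := by
      funext x
      rw [Pi.single_apply, Pi.algebraMap_apply]
      split_ifs <;> simp
    rw [h2]
    exact Subalgebra.algebraMap_mem _ _
  · simp only [Matrix.updateRow_ne h]
    exact hz _

end Pool.Agent.Lib.MP_666dc0_nt.LD
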