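import Pool.Agent.Lib.MP_666dc0_nt.LD.EB1

namespace Pool.Agent.Lib.MP_666dc0_nt.LD

variable {𝒳 : Type} [CommMonoid 𝒳] {K K1 : Type} [Field K] [Field K1] [Algebra K K1]

/-- the powers of `T ^ l` -/
private def EB2_th (T : K1) (hT0 : T ≠ 0) (l : ℤ) : Multiplicative ℕ →* K1ˣ where
  toFun x := (Units.mk0 T hT0) ^ (l * ((Multiplicative.toAdd x : ℕ) : ℤ))
  map_one' := by simp
  map_mul' x y := by
    rw [toAdd_mul, Nat.cast_add, mul_add, zpow_add]

private theorem EB2_th_val (T : K1) (hT0 : T ≠ 0) (l : ℤ) (x : Multiplicative ℕ) :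
    ((EB2_th T hT0 l x : K1ˣ) : K1) = T ^ (l * ((Multiplicative.toAdd x : ℕ) : ℤ)) := by
  change (((Units.mk0 T hT0) ^ (l * ((Multiplicative.toAdd x : ℕ) : ℤ)) : K1ˣ) : K1) = _
  rw [Units.val_zpow_eq_zpow_val, Units.val_mk0]

/-- the two-variable powers -/
private def EB2_th2 (T : K1) (hT0 : T ≠ 0) (l : ℤ × ℤ) :
    Multiplicative ℕ × Multiplicative ℕ →* K1ˣ where
  toFun x := (Units.mk0 T hT0) ^ (l.1 * ((Multiplicative.toAdd x.1 : ℕ) : ℤ) + l.2 * ((Multiplicative.toAdd x.2 : ℕ) : ℤ))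
  map_one' := by simp
  map_mul' x y := by
    rw [← zpow_add, Prod.fst_mul, Prod.snd_mul, toAdd_mul, toAdd_mul, Nat.cast_add, Nat.cast_add]
    congr 1
    ring

private theorem EB2_th2_val (T : K1) (hT0 : T ≠ 0) (l : ℤ × ℤ) (x : Multiplicative ℕ × Multiplicative ℕ) :
    ((EB2_th2 T hT0 l x : K1ˣ) : K1)
      = T ^ (l.1 * ((Multiplicative.toAdd x.1 : ℕ) : ℤ) + l.2 * ((Multiplicative.toAdd x.2 : ℕ) : ℤ)) := by
  change (((Units.mk0 T hT0) ^ (l.1 * ((Multiplicative.toAdd x.1 : ℕ) : ℤ)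
    + l.2 * ((Multiplicative.toAdd x.2 : ℕ) : ℤ)) : K1ˣ) : K1) = _
  rw [Units.val_zpow_eq_zpow_val, Units.val_mk0]

/-- The one-variable case: `𝒳 = ℕ`, types `a ↦ T ^ (l * a)`, `l : ℤ`. Apply `typed_indep` with `𝒳 = Multiplicative ℕ`, `θ l = ` the powers of `T ^ l`; evaluate the hypothesis `(∀ x, ...)` of `hθ` at `x = ofAdd 1`. -/
theorem typed_indep_one (T : K1) (hT0 : T ≠ 0)
    (hT : ∀ (α β : K) (i j : ℤ), α ≠ 0 → β ≠ 0 →
      algebraMap K K1 α * T ^ i = algebraMap K K1 β * T ^ j → i = j)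
    (J : Finset ℤ) (F : ℤ → ℕ → K1)
    (hF : ∀ l ∈ J, (fun x : Multiplicative ℕ => F l (Multiplicative.toAdd x)) ∈
      CH (Multiplicative ℕ) K K1)
    (h : ∀ a : ℕ, ∑ l ∈ J, T ^ (l * (a : ℤ)) * F l a = 0) : ∀ l ∈ J, ∀ a, F l a = 0 := by
  intro l hl a
  have key := typed_indep (K := K) (K1 := K1) J (EB2_th T hT0) (fun i _ i' _ χ χ' hχ => by
      have h1 := hχ (Multiplicative.ofAdd 1)
      rw [EB2_th_val, EB2_th_val, toAdd_ofAdd, Nat.cast_one, mul_one, mul_one] at h1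
      refine hT (χ (Multiplicative.ofAdd 1) : K) (χ' (Multiplicative.ofAdd 1) : K) i i'
        (Units.ne_zero _) (Units.ne_zero _) ?_
      rw [mul_comm, h1, mul_comm])
    (fun l x => F l (Multiplicative.toAdd x)) hF (fun x => by
      have h1 := h (Multiplicative.toAdd x)
      rw [← h1]
      refine Finset.sum_congr rfl fun i _ => ?_
      rw [EB2_th_val])
  exact key l hl (Multiplicative.ofAdd a)

/-- The two-variable case: types `(a, b) ↦ T ^ (i * a + j * b)`, `(i, j) ∈ ℤ × ℤ`. -/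
theorem typed_indep_two (T : K1) (hT0 : T ≠ 0)
    (hT : ∀ (α β : K) (i j : ℤ), α ≠ 0 → β ≠ 0 →
      algebraMap K K1 α * T ^ i = algebraMap K K1 β * T ^ j → i = j)
    (J : Finset (ℤ × ℤ)) (F : ℤ × ℤ → ℕ → ℕ → K1)
    (hF : ∀ l ∈ J, (fun x : Multiplicative ℕ × Multiplicative ℕ =>
      F l (Multiplicative.toAdd x.1) (Multiplicative.toAdd x.2)) ∈
      CH (Multiplicative ℕ × Multiplicative ℕ) K K1)
    (h : ∀ a b : ℕ, ∑ l ∈ J, T ^ (l.1 * (a : ℤ) + l.2 * (b : ℤ)) * F l a b = 0) :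
    ∀ l ∈ J, ∀ a b, F l a b = 0 := by
  intro l hl a b
  have key := typed_indep (K := K) (K1 := K1) J (EB2_th2 T hT0) (fun i _ i' _ χ χ' hχ => by
      have h1 := hχ (Multiplicative.ofAdd 1, 1)
      have h2 := hχ (1, Multiplicative.ofAdd 1)
      rw [EB2_th2_val, EB2_th2_val] at h1 h2
      simp only [toAdd_ofAdd, toAdd_one, Nat.cast_one, Nat.cast_zero, mul_one, mul_zero, add_zero,
        zero_add] at h1 h2
      have e1 : i.1 = i'.1 := by
        refine hT (χ (Multiplicative.ofAdd 1, 1) : K) (χ' (Multiplicative.ofAdd 1, 1) : K) i.1 i'.1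
          (Units.ne_zero _) (Units.ne_zero _) ?_
        rw [mul_comm, h1, mul_comm]
      have e2 : i.2 = i'.2 := by
        refine hT (χ (1, Multiplicative.ofAdd 1) : K) (χ' (1, Multiplicative.ofAdd 1) : K) i.2 i'.2
          (Units.ne_zero _) (Units.ne_zero _) ?_
        rw [mul_comm, h2, mul_comm]
      exact Prod.ext e1 e2)
    (fun l x => F l (Multiplicative.toAdd x.1) (Multiplicative.toAdd x.2)) hF (fun x => by
      have h1 := h (Multiplicative.toAdd x.1) (Multiplicative.toAdd x.2)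
      rw [← h1]
      refine Finset.sum_congr rfl fun i _ => ?_
      rw [EB2_th2_val])
  exact key l hl (Multiplicative.ofAdd a, Multiplicative.ofAdd b)

end Pool.Agent.Lib.MP_666dc0_nt.LD
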