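import Mathlib

namespace Pool.Agent.Lib.MP_666dc0_nt.LD

variable {K K1 : Type} [Field K] [Field K1] [Algebra K K1] {n : ℕ}

/-- A matrix killed by a product of distinct linear factors `X - α`, `α ≠ 0`: for each `A` there is a polynomial `Q` with `Q(X) * X ^ A = 1`. (`X` is invertible: `∏ (X - α)` has non-zero constant coefficient, so `X * R(X) = 1` for a polynomial `R`; `Q = R ^ A`.) With coefficients in `K`. -/
theorem exists_inverse_poly (X : Matrix (Fin n) (Fin n) K1) (Λ : Finset K) (h0 : (0 : K) ∉ Λ)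
    (hX : Polynomial.aeval X (∏ α ∈ Λ, (Polynomial.X - Polynomial.C (algebraMap K K1 α))) = 0)
    (A : ℕ) : ∃ Q : Polynomial K, Polynomial.aeval X (Q.map (algebraMap K K1)) * X ^ A = 1 := by
  set P : Polynomial K := ∏ α ∈ Λ, (Polynomial.X - Polynomial.C α) with hP
  have hPmap : P.map (algebraMap K K1) =
      ∏ α ∈ Λ, (Polynomial.X - Polynomial.C (algebraMap K K1 α)) := by
    rw [hP, Polynomial.map_prod]
    simp
  have hc : P.coeff 0 ≠ 0 := by
    rw [Polynomial.coeff_zero_eq_eval_zero, hP, Polynomial.eval_prod, Finset.prod_ne_zero_iff]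
    intro α hα
    rw [Polynomial.eval_sub, Polynomial.eval_X, Polynomial.eval_C, zero_sub]
    intro h
    apply h0
    rw [neg_eq_zero] at h
    rw [← h]
    exact hα
  set c := P.coeff 0 with hcdef
  have hdec : P.divX * Polynomial.X + Polynomial.C c = P := Polynomial.divX_mul_X_add P
  have h1 : Polynomial.aeval X (P.divX.map (algebraMap K K1)) * X
      = -(algebraMap K1 (Matrix (Fin n) (Fin n) K1) (algebraMap K K1 c)) := by
    have h2 : Polynomial.aeval X (P.map (algebraMap K K1)) = 0 := by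
      rw [hPmap]
      exact hX
    rw [← hdec, Polynomial.map_add, Polynomial.map_mul, Polynomial.map_X, Polynomial.map_C,
      map_add, map_mul, Polynomial.aeval_X, Polynomial.aeval_C] at h2
    exact eq_neg_of_add_eq_zero_left h2
  have h3 : Polynomial.aeval X ((Polynomial.C (-c⁻¹) * P.divX).map (algebraMap K K1)) * X = 1 := by
    rw [Polynomial.map_mul, Polynomial.map_C, map_mul, Polynomial.aeval_C, mul_assoc, h1, mul_neg,
      ← map_mul, ← map_mul, neg_mul, inv_mul_cancel₀ hc, map_neg, map_one, map_neg, map_one, neg_neg]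
  refine ⟨(Polynomial.C (-c⁻¹) * P.divX) ^ A, ?_⟩
  have hcomm : Commute (Polynomial.aeval X ((Polynomial.C (-c⁻¹) * P.divX).map (algebraMap K K1)))
      X := by
    have h5 := Commute.map
      (Commute.all ((Polynomial.C (-c⁻¹) * P.divX).map (algebraMap K K1)) Polynomial.X)
      (Polynomial.aeval (R := K1) X)
    rwa [Polynomial.aeval_X] at h5
  rw [Polynomial.map_pow, map_pow, ← hcomm.mul_pow, h3, one_pow]

/-- If `trace (X ^ a * N) = 0` for all `a` outside a finite set then `trace N = 0`. (`exists_inverse_poly` with `A` larger than the elements of the finite set: `1 = ∑ i, Q_i X ^ (A + i)`.) -/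
theorem trace_eq_zero_of_eventually (X N : Matrix (Fin n) (Fin n) K1) (Λ : Finset K)
    (h0 : (0 : K) ∉ Λ)
    (hX : Polynomial.aeval X (∏ α ∈ Λ, (Polynomial.X - Polynomial.C (algebraMap K K1 α))) = 0)
    (F : Set ℕ) (hF : F.Finite) (h : ∀ a ∉ F, (X ^ a * N).trace = 0) : N.trace = 0 := by
  obtain ⟨B, hB⟩ := hF.bddAbove
  obtain ⟨Q, hQ⟩ := exists_inverse_poly X Λ h0 hX (B + 1)
  have h1 : N = Polynomial.aeval X (Q.map (algebraMap K K1)) * X ^ (B + 1) * N := by
    rw [hQ, one_mul]
  rw [h1, Polynomial.aeval_eq_sum_range, Finset.sum_mul, Finset.sum_mul, Matrix.trace_sum]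
  refine Finset.sum_eq_zero fun i _ => ?_
  rw [smul_mul_assoc, smul_mul_assoc, ← pow_add, Matrix.trace_smul, h, smul_zero]
  intro hmem
  have := hB hmem
  omega

end Pool.Agent.Lib.MP_666dc0_nt.LD
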