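import Pool.Agent.Lib.MP_666dc0_nt.LD.EA2
import Pool.Agent.Lib.MP_666dc0_nt.LD.EB2
import Pool.Agent.Lib.MP_666dc0_nt.LD.EC1
import Pool.Agent.Lib.MP_666dc0_nt.LD.EC2

namespace Pool.Agent.Lib.MP_666dc0_nt.LD

variable {K K1 : Type} [Field K] [Field K1] [Algebra K K1] {n : ℕ}

private lemma ED1_const {𝒳 : Type} [CommMonoid 𝒳] (c : K1) : (fun _ : 𝒳 => c) ∈ CH 𝒳 K K1 :=
  (CH 𝒳 K K1).algebraMap_mem c

private lemma ED1_mul {𝒳 : Type} [CommMonoid 𝒳] (A B : 𝒳 → Matrix (Fin n) (Fin n) K1)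
    (hA : ∀ i j, (fun x => A x i j) ∈ CH 𝒳 K K1) (hB : ∀ i j, (fun x => B x i j) ∈ CH 𝒳 K K1)
    (i j : Fin n) : (fun x => (A x * B x) i j) ∈ CH 𝒳 K K1 := by
  have h1 : (fun x => (A x * B x) i j) = ∑ k, (fun x => A x i k) * (fun x => B x k j) := by
    funext x
    rw [Matrix.mul_apply, Finset.sum_apply]
    rfl
  rw [h1]
  exact Subalgebra.sum_mem _ fun k _ => Subalgebra.mul_mem _ (hA i k) (hB k j)

private lemma ED1_trace {𝒳 : Type} [CommMonoid 𝒳] (A : 𝒳 → Matrix (Fin n) (Fin n) K1)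
    (hA : ∀ i j, (fun x => A x i j) ∈ CH 𝒳 K K1) : (fun x => (A x).trace) ∈ CH 𝒳 K K1 := by
  have h1 : (fun x => (A x).trace) = ∑ k, (fun x => A x k k) := by
    funext x
    rw [Matrix.trace, Finset.sum_apply]
    rfl
  rw [h1]
  exact Subalgebra.sum_mem _ fun k _ => hA k k

/-- The off-diagonal traces vanish. By `Proj.pow`, `trace ((X dg T)^a G (X dg T)^b H) = ∑_{(i,j)} T^(i a + j b) F_ij(a,b)`, `F_ij(a,b) = trace (e i X^a G e j X^b H)`, which is in `CH` (`pow_entries_mem_CH` for the two projections; sums of products of entries), and so is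
`δ(a,b) F_ij(a,b)`. The identity `h` reads `∑_{(i,j) ∈ J ×ˢ J} T^(i a + j b) (δ F_ij - [i = j] η_i)(a,b) = 0`; `typed_indep_two` for `i ≠ j`: `δ(a,b) F_ij(a,b) = 0`; with `b = 0`: `F_ij(a,0) = trace (X^a (e i G e j H)) = 0` for `δ a 0 ≠ 0`;
`trace_eq_zero_of_eventually`. -/
theorem trace_offdiag (T : K1) (hT0 : T ≠ 0)
    (hT : ∀ (α β : K) (i j : ℤ), α ≠ 0 → β ≠ 0 →
      algebraMap K K1 α * T ^ i = algebraMap K K1 β * T ^ j → i = j)
    {J : Finset ℤ} {e : ℤ → Matrix (Fin n) (Fin n) K1} (he : Proj J e)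
    (X : Matrix (Fin n) (Fin n) K1) (hXe : ∀ j ∈ J, e j * X = X * e j) (Λ : Finset K)
    (h0 : (0 : K) ∉ Λ)
    (hX : Polynomial.aeval X (∏ α ∈ Λ, (Polynomial.X - Polynomial.C (algebraMap K K1 α))) = 0)
    (G H : Matrix (Fin n) (Fin n) K1) (δ : ℕ → ℕ → K1) (η : ℤ → ℕ → ℕ → K1)
    (hδ : (fun x : Multiplicative ℕ × Multiplicative ℕ =>
      δ (Multiplicative.toAdd x.1) (Multiplicative.toAdd x.2)) ∈
      CH (Multiplicative ℕ × Multiplicative ℕ) K K1)
    (hη : ∀ l ∈ J, (fun x : Multiplicative ℕ × Multiplicative ℕ =>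
      η l (Multiplicative.toAdd x.1) (Multiplicative.toAdd x.2)) ∈
      CH (Multiplicative ℕ × Multiplicative ℕ) K K1)
    (hδ0 : {a : ℕ | δ a 0 = 0}.Finite)
    (h : ∀ a b : ℕ, δ a b * ((X * dg J e T) ^ a * G * (X * dg J e T) ^ b * H).trace =
      ∑ l ∈ J, T ^ (l * ((a : ℤ) + b)) * η l a b)
    {i j : ℤ} (hi : i ∈ J) (hj : j ∈ J) (hij : i ≠ j) : (e i * G * e j * H).trace = 0 := by
  -- the functions
  obtain ⟨F, hFdef⟩ : ∃ F : ℤ × ℤ → ℕ → ℕ → K1, F = fun l a b =>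
      δ a b * (e l.1 * X ^ a * G * (e l.2 * X ^ b) * H).trace - (if l.1 = l.2 then η l.1 a b else 0) :=
    ⟨_, rfl⟩
  have hF : ∀ l ∈ J ×ˢ J, (fun x : Multiplicative ℕ × Multiplicative ℕ =>
      F l (Multiplicative.toAdd x.1) (Multiplicative.toAdd x.2)) ∈
      CH (Multiplicative ℕ × Multiplicative ℕ) K K1 := by
    intro l hl
    rw [Finset.mem_product] at hl
    rw [hFdef]
    refine Subalgebra.sub_mem _ (Subalgebra.mul_mem _ hδ ?_) ?_
    · have m1 : ∀ i j, (fun x : Multiplicative ℕ × Multiplicative ℕ =>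
          (X ^ (Multiplicative.toAdd x.1)) i j) ∈ CH (Multiplicative ℕ × Multiplicative ℕ) K K1 :=
        fun i j => pow_entries_mem_CH X Λ h0 hX
          (MonoidHom.fst (Multiplicative ℕ) (Multiplicative ℕ)) i j
      have m2 : ∀ i j, (fun x : Multiplicative ℕ × Multiplicative ℕ =>
          (X ^ (Multiplicative.toAdd x.2)) i j) ∈ CH (Multiplicative ℕ × Multiplicative ℕ) K K1 :=
        fun i j => pow_entries_mem_CH X Λ h0 hX
          (MonoidHom.snd (Multiplicative ℕ) (Multiplicative ℕ)) i j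
      have c : ∀ (M : Matrix (Fin n) (Fin n) K1) i j,
          (fun _ : Multiplicative ℕ × Multiplicative ℕ => M i j) ∈
            CH (Multiplicative ℕ × Multiplicative ℕ) K K1 := fun M i j => ED1_const _
      have m3 := ED1_mul (fun _ => e l.1)
        (fun x : Multiplicative ℕ × Multiplicative ℕ => X ^ (Multiplicative.toAdd x.1)) (c _) m1
      have m4 := ED1_mul _ (fun _ => G) m3 (c _)
      have m5 := ED1_mul (fun _ => e l.2)
        (fun x : Multiplicative ℕ × Multiplicative ℕ => X ^ (Multiplicative.toAdd x.2)) (c _) m2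
      have m6 := ED1_mul _ _ m4 m5
      have m7 := ED1_mul _ (fun _ => H) m6 (c _)
      exact ED1_trace _ m7
    · by_cases h1 : l.1 = l.2
      · simp only [h1, if_true]
        exact hη l.2 hl.2
      · simp only [h1, if_false]
        exact ED1_const 0
  have hsum : ∀ a b : ℕ, ∑ l ∈ J ×ˢ J, T ^ (l.1 * (a : ℤ) + l.2 * (b : ℤ)) * F l a b = 0 := by
    intro a b
    have h1 : δ a b * ((X * dg J e T) ^ a * G * (X * dg J e T) ^ b * H).trace =
        ∑ l ∈ J ×ˢ J, T ^ (l.1 * (a : ℤ) + l.2 * (b : ℤ)) *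
          (δ a b * (e l.1 * X ^ a * G * (e l.2 * X ^ b) * H).trace) := by
      rw [he.pow X hXe T hT0 a, he.pow X hXe T hT0 b]
      simp only [Finset.sum_mul, Finset.mul_sum, Matrix.trace_sum]
      rw [Finset.sum_product]
      rw [Finset.sum_comm]
      refine Finset.sum_congr rfl fun i _ => ?_
      refine Finset.sum_congr rfl fun j _ => ?_
      simp only [Matrix.smul_mul, Matrix.mul_smul, Matrix.trace_smul, smul_eq_mul]
      rw [zpow_add₀ hT0]
      ring
    have h2 : ∑ l ∈ J ×ˢ J, T ^ (l.1 * (a : ℤ) + l.2 * (b : ℤ)) *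
        (if l.1 = l.2 then η l.1 a b else 0) = ∑ l ∈ J, T ^ (l * ((a : ℤ) + b)) * η l a b := by
      rw [Finset.sum_product]
      refine Finset.sum_congr rfl fun i hi => ?_
      simp only [mul_ite, mul_zero]
      rw [Finset.sum_ite_eq, if_pos hi]
      congr 2
      ring
    rw [hFdef]
    simp only [mul_sub, Finset.sum_sub_distrib]
    rw [h2, ← h a b, h1, sub_self]
  have hzero := typed_indep_two T hT0 hT (J ×ˢ J) F hF hsum (i, j)
    (Finset.mem_product.mpr ⟨hi, hj⟩)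
  refine trace_eq_zero_of_eventually X (e i * G * e j * H) Λ h0 hX {a : ℕ | δ a 0 = 0} hδ0
    (fun a ha => ?_)
  have h3 := hzero a 0
  rw [hFdef] at h3
  simp only [hij, if_false, sub_zero, pow_zero, mul_one] at h3
  have h4 : (e i * X ^ a * G * e j * H).trace = 0 := by
    rcases mul_eq_zero.mp h3 with h5 | h5
    · exact absurd h5 ha
    · exact h5
  have h5 : e i * X ^ a = X ^ a * e i := (Commute.pow_right (hXe i hi : Commute (e i) X) a)
  rw [← h4, h5]
  simp only [Matrix.mul_assoc]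

end Pool.Agent.Lib.MP_666dc0_nt.LD
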