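import Pool.Agent.Lib.MP_666dc0_nt.LD.EDefs

namespace Pool.Agent.Lib.MP_666dc0_nt.LD

/-- The characters as a homomorphism. -/
private def EA1_v (𝒳 : Type) [CommMonoid 𝒳] (K K1 : Type) [Field K] [Field K1] [Algebra K K1] :
    (𝒳 →* Kˣ) →* (𝒳 → K1) where
  toFun χ := fun x => algebraMap K K1 (χ x : K)
  map_one' := by
    funext x
    simp
  map_mul' χ ψ := by
    funext x
    simp


variable {𝒳 : Type} [CommMonoid 𝒳] {K K1 : Type} [Field K] [Field K1] [Algebra K K1]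

/-- The generators are closed under products, so `CH` is their linear span (`Algebra.adjoin_eq_span`, `Submonoid.closure` of a multiplicatively closed set containing `1`). Compare `exists_sum_of_mem_EXP` in IG/J10.lean. -/
theorem exists_sum_of_mem_CH {f : 𝒳 → K1} (hf : f ∈ CH 𝒳 K K1) :
    ∃ (s : Finset (𝒳 →* Kˣ)) (c : (𝒳 →* Kˣ) → K1),
      ∀ x, f x = ∑ χ ∈ s, c χ * algebraMap K K1 (χ x : K) := by
  have h1 : {f : 𝒳 → K1 | ∃ χ : 𝒳 →* Kˣ, f = fun x => algebraMap K K1 (χ x : K)} =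
      ((MonoidHom.mrange (EA1_v 𝒳 K K1) : Submonoid (𝒳 → K1)) : Set (𝒳 → K1)) := by
    ext g
    constructor
    · rintro ⟨χ, rfl⟩
      exact ⟨χ, rfl⟩
    · rintro ⟨χ, rfl⟩
      exact ⟨χ, rfl⟩
  have h2 : f ∈ Submodule.span K1 (Set.range (EA1_v 𝒳 K K1)) := by
    have h3 : f ∈ Subalgebra.toSubmodule (CH 𝒳 K K1) := hf
    unfold CH at h3
    rw [Algebra.adjoin_eq_span, h1, Submonoid.closure_eq, MonoidHom.coe_mrange] at h3
    exact h3
  obtain ⟨c, hc⟩ := Finsupp.mem_span_range_iff_exists_finsupp.1 h2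
  refine ⟨c.support, c, fun x => ?_⟩
  rw [← hc, Finsupp.sum, Finset.sum_apply]
  rfl

/-- Composition with a homomorphism of monoids. (Induction over `Algebra.adjoin`, or `exists_sum_of_mem_CH`.) -/
theorem CH_comp {𝒴 : Type} [CommMonoid 𝒴] (φ : 𝒴 →* 𝒳) {f : 𝒳 → K1} (hf : f ∈ CH 𝒳 K K1) :
    (fun y => f (φ y)) ∈ CH 𝒴 K K1 := by
  obtain ⟨s, c, h⟩ := exists_sum_of_mem_CH hf
  have h1 : (fun y => f (φ y)) =
      ∑ χ ∈ s, c χ • (fun y : 𝒴 => algebraMap K K1 ((χ.comp φ) y : K)) := by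
    funext y
    rw [Finset.sum_apply, h]
    rfl
  rw [h1]
  exact Subalgebra.sum_mem _ fun χ _ => Subalgebra.smul_mem _ (char_mem_CH (χ.comp φ)) _

end Pool.Agent.Lib.MP_666dc0_nt.LD
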