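import Pool.Agent.Lib.MP_666dc0_nt.LD.EDefs

namespace Pool.Agent.Lib.MP_666dc0_nt.LD

variable {𝒳 : Type} [CommMonoid 𝒳] {K K1 : Type} [Field K] [Field K1] [Algebra K K1]

/-- Powers of a diagonalisable matrix with eigenvalues in `Kˣ`: for a homomorphism `a` from `𝒳` to the additive monoid `ℕ` the entries of `X ^ (a x)` are in `CH`. Lagrange interpolation: `X ^ m = ∑ μ ∈ Λ, μ ^ m • aeval X (basis μ)` as in `DG.mem_EXP`, IG/J11c.lean (which may be
imported: `Pool.Agent.Lib.MP_666dc0_nt.IG.J11c`, `DG`), with `μ = algebraMap α`. -/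
theorem pow_entries_mem_CH {n : ℕ} (X : Matrix (Fin n) (Fin n) K1) (Λ : Finset K)
    (h0 : (0 : K) ∉ Λ)
    (hX : Polynomial.aeval X (∏ α ∈ Λ, (Polynomial.X - Polynomial.C (algebraMap K K1 α))) = 0)
    (a : 𝒳 →* Multiplicative ℕ) (i j : Fin n) :
    (fun x => (X ^ (Multiplicative.toAdd (a x))) i j) ∈ CH 𝒳 K K1 := by
  classical
  obtain ⟨P, hP⟩ : ∃ P : Polynomial K1,
      P = ∏ α ∈ Λ, (Polynomial.X - Polynomial.C (algebraMap K K1 α)) := ⟨_, rfl⟩
  rw [← hP] at hX
  have hmon : P.Monic := by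
    rw [hP]
    exact Polynomial.monic_prod_of_monic _ _ fun μ _ => Polynomial.monic_X_sub_C _
  have hdeg : P.degree = Λ.card := by
    rw [hP, Polynomial.degree_prod]
    simp
  have heval : ∀ μ ∈ Λ, P.eval (algebraMap K K1 μ) = 0 := by
    intro μ hμ
    rw [hP, Polynomial.eval_prod]
    exact Finset.prod_eq_zero hμ (by simp)
  have hinj : Set.InjOn (algebraMap K K1) Λ := fun x _ y _ hxy =>
    (algebraMap K K1).injective hxy
  have key : ∀ m : ℕ, X ^ m = ∑ μ ∈ Λ, ((algebraMap K K1 μ) ^ m) •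
      Polynomial.aeval X (Lagrange.basis Λ (algebraMap K K1) μ) := by
    intro m
    have h1 : (Polynomial.X ^ m : Polynomial K1) %ₘ P
        + P * ((Polynomial.X ^ m : Polynomial K1) /ₘ P) = Polynomial.X ^ m :=
      Polynomial.modByMonic_add_div _ P
    have h2 : ∀ μ ∈ Λ, ((Polynomial.X ^ m : Polynomial K1) %ₘ P).eval (algebraMap K K1 μ)
        = (algebraMap K K1 μ) ^ m := by
      intro μ hμ
      have h3 := congrArg (fun q : Polynomial K1 => q.eval (algebraMap K K1 μ)) h1
      simp only [Polynomial.eval_add, Polynomial.eval_mul, heval μ hμ, zero_mul, add_zero,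
        Polynomial.eval_pow, Polynomial.eval_X] at h3
      exact h3
    have h3 : ((Polynomial.X ^ m : Polynomial K1) %ₘ P).degree < Λ.card := by
      rw [← hdeg]
      exact Polynomial.degree_modByMonic_lt _ hmon
    have h4 := Lagrange.eq_interpolate (v := algebraMap K K1) hinj h3
    have h5 : X ^ m = Polynomial.aeval X ((Polynomial.X ^ m : Polynomial K1) %ₘ P) := by
      have h6 := congrArg (fun q : Polynomial K1 => Polynomial.aeval X q) h1
      simp only [map_add, map_mul, hX, zero_mul, add_zero, map_pow, Polynomial.aeval_X] at h6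
      exact h6.symm
    rw [h5, h4, Lagrange.interpolate_apply, map_sum]
    refine Finset.sum_congr rfl fun μ hμ => ?_
    rw [map_mul, Polynomial.aeval_C, h2 μ hμ, Algebra.smul_def]
  have h1 : (fun x => (X ^ (Multiplicative.toAdd (a x))) i j) = ∑ μ ∈ Λ,
      (Polynomial.aeval X (Lagrange.basis Λ (algebraMap K K1) μ) i j) •
        (fun x : 𝒳 => (algebraMap K K1 μ) ^ (Multiplicative.toAdd (a x))) := by
    funext x
    rw [Finset.sum_apply, key, Matrix.sum_apply]
    refine Finset.sum_congr rfl fun μ _ => ?_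
    rw [Pi.smul_apply, Matrix.smul_apply, smul_eq_mul, smul_eq_mul, mul_comm]
  rw [h1]
  refine Subalgebra.sum_mem _ fun μ hμ => Subalgebra.smul_mem _ ?_ _
  have hμ0 : μ ≠ 0 := fun h => h0 (h ▸ hμ)
  have h2 := char_mem_CH (K1 := K1) ((powersHom Kˣ (Units.mk0 μ hμ0)).comp a)
  convert h2 using 2 with x
  simp [powersHom_apply]

end Pool.Agent.Lib.MP_666dc0_nt.LD
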