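import Mathlib

namespace Pool.Agent.Lib.MP_666dc0_nt.LD

/-- Rearrangement inequality, strict form: `Monovary.sum_mul_comp_perm_lt_sum_mul_iff` (or `MonovaryOn...`, `sum_smul_comp_perm_lt_sum_smul_iff`): the inequality is strict iff `j` and `k ∘ σ` do not monovary. If they monovary then `k ∘ σ` is monotone (as `j` is
strictly monotone), hence strictly monotone, so `σ` is a strictly monotone permutation of `Fin d`, `σ = 1`. -/
theorem sum_perm_lt {d : ℕ} {j k : Fin d → ℤ} (hj : StrictMono j) (hk : StrictMono k)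
    (σ : Equiv.Perm (Fin d)) (hσ : σ ≠ 1) : ∑ a, j a * k (σ a) < ∑ a, j a * k a := by
  have hmono : Monovary j k := fun a b h => (hj.lt_iff_lt.2 (hk.lt_iff_lt.1 h)).le
  rw [hmono.sum_mul_comp_perm_lt_sum_mul_iff]
  intro hmv
  apply hσ
  have h1 : StrictMono (σ.symm : Fin d → Fin d) := by
    intro a b hab
    have h2 : k (σ (σ.symm a)) < k (σ (σ.symm b)) := by
      rw [Equiv.apply_symm_apply, Equiv.apply_symm_apply]
      exact hk hab
    have h3 : j (σ.symm a) ≤ j (σ.symm b) := hmv h2
    have h4 : σ.symm a ≤ σ.symm b := hj.le_iff_le.1 h3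
    exact lt_of_le_of_ne h4 fun h5 => hab.ne (σ.symm.injective h5)
  have h2 : (σ.symm : Fin d → Fin d) = id := by
    refine (h1.range_inj strictMono_id).1 ?_
    rw [Set.range_id, σ.symm.surjective.range_eq]
  ext a
  have h3 := congrFun h2 (σ a)
  rw [Equiv.symm_apply_apply] at h3
  rw [Equiv.Perm.one_apply]
  exact congrArg Fin.val h3.symm

end Pool.Agent.Lib.MP_666dc0_nt.LD
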