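import Pool.Agent.Lib.MP_666dc0_nt.LD.A1

namespace Pool.Agent.Lib.MP_666dc0_nt.LD

/-- The generalised Vandermonde matrix. -/
def vdm {L : Type} [Field L] {d : ℕ} (j k : Fin d → ℤ) (z : L) : Matrix (Fin d) (Fin d) L :=
  Matrix.of fun a b => z ^ (j a * k b)

/-- `det (vdm j k z) = ∑ σ, sign σ * z ^ (m σ)` with `m σ = ∑ a, j a * k (σ a)` for `z ≠ 0` (`Matrix.det_apply`, transpose if needed; `Finset.prod_zpow`-like). Let `M` be a natural number with `-M ≤ m σ` for all `σ` and `P := ∑ σ, C (sign σ) * X ^ ((M + m σ).toNat) : L[X]`; its coefficient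
at `(M + m 1).toNat` is `1`, since `m σ < m 1` for `σ ≠ 1` (`sum_perm_lt`), so `P ≠ 0`, and for `z ≠ 0`: `P.eval z = z ^ M * det (vdm j k z)`. So the zeros `z ≠ 0` of the determinant form a finite set. The map `a ↦ t ^ a * c` is injective (`t` is of infinite order), so the set is finite. -/
theorem finite_det_eq_zero {L : Type} [Field L] {d : ℕ} {j k : Fin d → ℤ} (hj : StrictMono j)
    (hk : StrictMono k) (t c : L) (ht0 : t ≠ 0) (hc : c ≠ 0) (ht : ∀ m : ℕ, 0 < m → t ^ m ≠ 1) :
    {a : ℕ | (vdm j k (t ^ a * c)).det = 0}.Finite := by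
  classical
  -- exponents
  obtain ⟨m, hm⟩ : ∃ m : Equiv.Perm (Fin d) → ℤ, ∀ σ, m σ = ∑ a, j a * k (σ a) :=
    ⟨_, fun _ => rfl⟩
  have hlt : ∀ σ, σ ≠ 1 → m σ < m 1 := by
    intro σ hσ
    rw [hm, hm]
    exact sum_perm_lt hj hk σ hσ
  obtain ⟨M, hM⟩ : ∃ M : ℕ, ∀ σ, 0 ≤ (M : ℤ) + m σ := by
    refine ⟨∑ σ, (m σ).natAbs, fun σ => ?_⟩
    have h1 : (m σ).natAbs ≤ ∑ σ, (m σ).natAbs :=
      Finset.single_le_sum (f := fun σ => (m σ).natAbs) (fun _ _ => Nat.zero_le _)
        (Finset.mem_univ σ)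
    omega
  have hzp : ∀ z : L, z ≠ 0 → ∀ (s : Finset (Fin d)) (f : Fin d → ℤ),
      ∏ i ∈ s, z ^ (f i) = z ^ (∑ i ∈ s, f i) := by
    intro z hz s f
    induction s using Finset.induction_on with
    | empty => simp
    | insert a s ha ih => rw [Finset.prod_insert ha, Finset.sum_insert ha, ih, zpow_add₀ hz]
  have hdet : ∀ z : L, z ≠ 0 → (vdm j k z).det =
      ∑ σ : Equiv.Perm (Fin d), ((Equiv.Perm.sign σ : ℤ) : L) * z ^ (m σ) := by
    intro z hz
    rw [← Matrix.det_transpose, Matrix.det_apply']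
    refine Finset.sum_congr rfl fun σ _ => ?_
    rw [hm, ← hzp z hz]
    rfl
  obtain ⟨P, hP⟩ : ∃ P : Polynomial L, P = ∑ σ : Equiv.Perm (Fin d),
      Polynomial.C ((Equiv.Perm.sign σ : ℤ) : L) * Polynomial.X ^ ((M + m σ).toNat) := ⟨_, rfl⟩
  have hP0 : P ≠ 0 := by
    intro h0
    have h1 : P.coeff ((M + m 1).toNat) = 1 := by
      rw [hP, Polynomial.finsetSum_coeff, Finset.sum_eq_single 1]
      · rw [Polynomial.coeff_C_mul_X_pow, if_pos rfl, Equiv.Perm.sign_one]
        simp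
      · intro σ _ hσ
        rw [Polynomial.coeff_C_mul_X_pow, if_neg]
        have h2 := hlt σ hσ
        have h3 := hM σ
        have h4 := hM 1
        omega
      · intro h
        exact absurd (Finset.mem_univ _) h
    rw [h0, Polynomial.coeff_zero] at h1
    exact zero_ne_one h1
  have heval : ∀ z : L, z ≠ 0 → P.eval z = z ^ M * (vdm j k z).det := by
    intro z hz
    rw [hdet z hz, hP, Polynomial.eval_finsetSum, Finset.mul_sum]
    refine Finset.sum_congr rfl fun σ _ => ?_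
    rw [Polynomial.eval_mul, Polynomial.eval_C, Polynomial.eval_pow, Polynomial.eval_X]
    have h1 : z ^ ((M + m σ).toNat) = z ^ M * z ^ (m σ) := by
      rw [← zpow_natCast, Int.toNat_of_nonneg (hM σ), zpow_add₀ hz, zpow_natCast]
    rw [h1]
    ring
  have hinj : Function.Injective fun a : ℕ => t ^ a * c := by
    have key : ∀ a b : ℕ, a < b → t ^ a ≠ t ^ b := by
      intro a b hab h
      have h2 : t ^ b = t ^ a * t ^ (b - a) := by rw [← pow_add]; congr 1; omega
      rw [h2] at h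
      have h3 : t ^ a * 1 = t ^ a * t ^ (b - a) := by rw [mul_one]; exact h
      exact ht (b - a) (by omega) (mul_left_cancel₀ (pow_ne_zero _ ht0) h3).symm
    intro a b hab
    have h1 : t ^ a = t ^ b := mul_right_cancel₀ hc hab
    rcases lt_trichotomy a b with h | h | h
    · exact absurd h1 (key a b h)
    · exact h
    · exact absurd h1.symm (key b a h)
  refine Set.Finite.subset ((P.roots.toFinset.finite_toSet).preimage hinj.injOn) ?_
  intro a ha
  have hz : t ^ a * c ≠ 0 := mul_ne_zero (pow_ne_zero _ ht0) hc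
  have ha' : (vdm j k (t ^ a * c)).det = 0 := ha
  rw [Set.mem_preimage, Finset.mem_coe, Multiset.mem_toFinset, Polynomial.mem_roots hP0,
    Polynomial.IsRoot.def, heval _ hz, ha', mul_zero]

end Pool.Agent.Lib.MP_666dc0_nt.LD
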