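import Pool.Agent.Lib.MP_666dc0_nt.LD.ADefs

namespace Pool.Agent.Lib.MP_666dc0_nt.LD

/-- Cramer's rule. From `χ b = ∑ a, c a * z ^ (j a * k b)`, i.e. `χ = c ᵥ* vdm j k z`: `eta = χ ᵥ* adjugate = c ᵥ* (vdm * adjugate) = det • c` (`Matrix.mul_adjugate`). Then
`det * ∑ a, c a * z ^ (j a * k') = ∑ a, eta a * z ^ (j a * k')`. -/
theorem cramer_identity {L : Type} [Field L] {d : ℕ} (j k : Fin d → ℤ) (z : L) (χ c : Fin d → L)
    (h : ∀ b, χ b = ∑ a, c a * z ^ (j a * k b)) (k' : ℤ) :
    (vdm j k z).det * (∑ a, c a * z ^ (j a * k')) = ∑ a, eta j k z χ a * z ^ (j a * k') := by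
  have h1 : ∀ a, eta j k z χ a = (vdm j k z).det * c a := by
    intro a
    have h2 : eta j k z χ = Matrix.vecMul (Matrix.vecMul c (vdm j k z)) (vdm j k z).adjugate := by
      funext a'
      unfold eta
      refine Finset.sum_congr rfl fun b _ => ?_
      rw [h b]
      rfl
    rw [h2, Matrix.vecMul_vecMul, Matrix.mul_adjugate, Matrix.vecMul_smul, Matrix.vecMul_one]
    rfl
  rw [Finset.mul_sum]
  refine Finset.sum_congr rfl fun a _ => ?_
  rw [h1 a, mul_assoc]

/-- Compatibility with homomorphisms of fields. (`RingHom.map_det`, `RingHom.map_adjugate`, `map_zpow₀`.) -/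
theorem map_vdm_det {L L' : Type} [Field L] [Field L'] (f : L →+* L') {d : ℕ} (j k : Fin d → ℤ)
    (z : L) : f (vdm j k z).det = (vdm j k (f z)).det := by
  rw [RingHom.map_det]
  congr 1
  ext a b
  simp only [RingHom.mapMatrix_apply, Matrix.map_apply, vdm, Matrix.of_apply]
  exact map_zpow₀ f z _

theorem map_eta {L L' : Type} [Field L] [Field L'] (f : L →+* L') {d : ℕ} (j k : Fin d → ℤ)
    (z : L) (χ : Fin d → L) (a : Fin d) :
    f (eta j k z χ a) = eta j k (f z) (fun b => f (χ b)) a := by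
  have h1 : f.mapMatrix (vdm j k z) = vdm j k (f z) := by
    ext a b
    simp only [RingHom.mapMatrix_apply, Matrix.map_apply, vdm, Matrix.of_apply]
    exact map_zpow₀ f z _
  unfold eta
  rw [map_sum]
  refine Finset.sum_congr rfl fun b _ => ?_
  rw [map_mul, ← h1, ← RingHom.map_adjugate]
  rfl

end Pool.Agent.Lib.MP_666dc0_nt.LD
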