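import Pool.Agent.Lib.MP_666dc0_nt.LD.A2

namespace Pool.Agent.Lib.MP_666dc0_nt.LD

/-- The numerators in Cramer's rule. -/
noncomputable def eta {L : Type} [Field L] {d : ℕ} (j k : Fin d → ℤ) (z : L) (χ : Fin d → L)
    (a : Fin d) : L := ∑ b, χ b * (vdm j k z).adjugate b a

end Pool.Agent.Lib.MP_666dc0_nt.LD
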