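import Mathlib

namespace Pool.Agent.Lib.MP_666dc0_nt.LD

/-- A nonzero algebra of finite type over an algebraically closed field has a point. -/
theorem exists_point_of_finiteType (K : Type) [Field K] [IsAlgClosed K] (R : Type) [CommRing R]
    [Nontrivial R] [Algebra K R] [Algebra.FiniteType K R] : Nonempty (R →ₐ[K] K) := by
  obtain ⟨m, hm⟩ := Ideal.exists_maximal R
  let _ : Field (R ⧸ m) := Ideal.Quotient.field m
  have hft : Algebra.FiniteType K (R ⧸ m) :=
    Algebra.FiniteType.of_surjective (Ideal.Quotient.mkₐ K m) Ideal.Quotient.mk_surjective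
  have hfin : Module.Finite K (R ⧸ m) := finite_of_finite_type_of_isJacobsonRing K (R ⧸ m)
  have : Algebra.IsIntegral K (R ⧸ m) := Algebra.IsIntegral.of_finite K (R ⧸ m)
  have hbij : Function.Bijective (Algebra.ofId K (R ⧸ m)) :=
    IsAlgClosed.algebraMap_bijective_of_isIntegral
  exact ⟨((AlgEquiv.ofBijective (Algebra.ofId K (R ⧸ m)) hbij).symm : (R ⧸ m) →ₐ[K] K).comp
    (Ideal.Quotient.mkₐ K m)⟩

end Pool.Agent.Lib.MP_666dc0_nt.LD
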