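import Pool.Agent.Lib.MP_666dc0_nt.Rep
import Pool.Agent.Lib.MP_666dc0_nt.Transport

/-!
# Levi descent: conjugacy of semisimple elements, definitions
-/

open TensorProduct Coalgebra
open scoped TensorProduct Matrix

namespace Pool.Agent.Lib.MP_666dc0_nt.LD

variable {O : Type} [CommRing O] [HopfAlgebra ℚ O] {Γ : Type} [Group Γ] (A : HopfAction Γ O)

/-- Base change of a point of `Ĝ` along a homomorphism of rings. -/
noncomputable def bc {R : Type} [CommRing R] [Algebra ℚ R] (S : Type) [CommRing S] [Algebra ℚ S]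
    [Algebra R S] (g : Pts O R) : Pts O S := Pts.map (algebraMap R S).toRatAlgHom g

/-- Twisted conjugation `u g σ(u)⁻¹`, the `Ĝ`-component of `u (g, σ) u⁻¹`. -/
noncomputable def tc (σ : Γ) {R : Type} [CommRing R] [Algebra ℚ R] (u g : Pts O R) : Pts O R :=
  u * g * (A.onPts R σ u)⁻¹

section bc

variable {R S : Type} [CommRing R] [Algebra ℚ R] [CommRing S] [Algebra ℚ S]

@[simp] lemma bc_hom_apply [Algebra R S] (g : Pts O R) (f : O) :
    (bc S g).hom f = algebraMap R S (g.hom f) := rfl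

lemma bc_mul [Algebra R S] (g h : Pts O R) : bc S (g * h) = bc S g * bc S h := map_mul _ _ _

lemma bc_one [Algebra R S] : bc S (1 : Pts O R) = 1 := map_one _

lemma bc_inv [Algebra R S] (g : Pts O R) : bc S g⁻¹ = (bc S g)⁻¹ := map_inv _ _

lemma map_tc (φ : R →ₐ[ℚ] S) (σ : Γ) (u g : Pts O R) :
    Pts.map φ (tc A σ u g) = tc A σ (Pts.map φ u) (Pts.map φ g) := by
  rw [tc, tc, map_mul, map_mul, map_inv, A.onPts_map]

lemma bc_tc [Algebra R S] (σ : Γ) (u g : Pts O R) : bc S (tc A σ u g) = tc A σ (bc S u) (bc S g) :=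
  map_tc A _ σ u g

lemma tc_one (σ : Γ) (g : Pts O R) : tc A σ 1 g = g := by
  rw [tc, map_one, inv_one, mul_one, one_mul]

lemma tc_mul (σ : Γ) (u v g : Pts O R) : tc A σ (u * v) g = tc A σ u (tc A σ v g) := by
  simp only [tc, map_mul, mul_inv_rev, mul_assoc]

lemma tc_eq_left (σ : Γ) (u g : Pts O R) :
    tc A σ u g = (SemidirectProduct.inl u * (⟨g, σ⟩ : A.LGroup R) *
      (SemidirectProduct.inl u)⁻¹ : A.LGroup R).left := by
  rw [A.conj_inl_left]
  rfl

lemma conj_eq_mk_tc (σ : Γ) (u g : Pts O R) :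
    (SemidirectProduct.inl u * (⟨g, σ⟩ : A.LGroup R) * (SemidirectProduct.inl u)⁻¹ : A.LGroup R) =
      ⟨tc A σ u g, σ⟩ := by
  ext1
  · rw [tc_eq_left]
  · simp

end bc

section ext

variable {K : Type} [Field K] [Algebra ℚ K]

/-- The homomorphism of `K`-algebras `K ⊗ O → R` given by a point of `Ĝ` over the `K`-algebra `R`. -/
noncomputable def ext {R : Type} [CommRing R] [Algebra ℚ R] [Algebra K R] (g : Pts O R) :
    K ⊗[ℚ] O →ₐ[K] R :=
  haveI : IsScalarTower ℚ K R := IsScalarTower.of_algebraMap_eq' (RingHom.ext_rat _ _)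
  Algebra.TensorProduct.lift (Algebra.ofId K R) g.hom (fun _ _ => Commute.all _ _)

lemma ext_tmul {R : Type} [CommRing R] [Algebra ℚ R] [Algebra K R] (g : Pts O R) (c : K) (f : O) :
    ext g (c ⊗ₜ[ℚ] f) = algebraMap K R c * g.hom f := by
  rw [ext, Algebra.TensorProduct.lift_tmul]
  rfl

lemma ext_one_tmul {R : Type} [CommRing R] [Algebra ℚ R] [Algebra K R] (g : Pts O R) (f : O) :
    ext g ((1 : K) ⊗ₜ[ℚ] f) = g.hom f := by
  rw [ext_tmul, map_one, one_mul]

/-- The generic point of `Ĝ` over `K ⊗ O`. -/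
noncomputable def gen (O : Type) [CommRing O] [HopfAlgebra ℚ O] (K : Type) [Field K] [Algebra ℚ K] :
    Pts O (K ⊗[ℚ] O) := ⟨Algebra.TensorProduct.includeRight⟩

/-- The generic point `u x σ(u)⁻¹` of the orbit of `x`. -/
noncomputable def orb (σ : Γ) (x : Pts O K) : Pts O (K ⊗[ℚ] O) :=
  tc A σ (gen O K) (bc (K ⊗[ℚ] O) x)

/-- `z` is in the closure of the orbit of `x` under twisted conjugation. -/
def InClosure (σ : Γ) (x z : Pts O K) : Prop :=
  ∀ F : K ⊗[ℚ] O, ext (K := K) (orb A σ x) F = 0 → ext (K := K) z F = 0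

end ext

/-- `∂` is a derivation at the unit element (with respect to the counit). -/
def IsDer {U : Type} [AddCommGroup U] [Module ℚ U] (d : O →ₗ[ℚ] U) : Prop :=
  ∀ f g : O, d (f * g) = counit (R := ℚ) f • d g + counit (R := ℚ) g • d f

/-- The matrix of a derivation at the unit element. -/
def dm {n : ℕ} {A : HopfAction Γ O} (ρ : MatRep A n) {U : Type} [AddCommGroup U] [Module ℚ U]
    (d : O →ₗ[ℚ] U) : Matrix (Fin n) (Fin n) U := ρ.a.map d

end Pool.Agent.Lib.MP_666dc0_nt.LD
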