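import Pool.Agent.Lib.MP_666dc0_nt.Mg.G022
import Pool.Agent.Lib.MP_666dc0_nt.LD.DDefs

open TensorProduct Coalgebra
open scoped TensorProduct Matrix

namespace Pool.Agent.Lib.MP_666dc0_nt.LD

variable {O : Type} [CommRing O] [HopfAlgebra ℚ O] {Γ : Type} [Group Γ] (A : HopfAction Γ O)

/-- The integrand over `R`. -/
private noncomputable def D1_E (I : O →ₗ[ℚ] ℚ) (σ : Γ) (f : O) (R : Type) [CommRing R] [Algebra ℚ R]
    (g : Pts O R) : R :=
  IG.g0J R I ((tc A σ (Pts.map Algebra.TensorProduct.includeRight (Pts.univ O))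
    (Pts.map (Algebra.TensorProduct.includeLeft : R →ₐ[ℚ] R ⊗[ℚ] O) g)).hom f)

private lemma D1_nat (I : O →ₗ[ℚ] ℚ) {R : Type} [CommRing R] [Algebra ℚ R] (g : Pts O R)
    (z : O ⊗[ℚ] O) : g.hom (IG.g0J O I z) =
      IG.g0J R I (Algebra.TensorProduct.map g.hom (AlgHom.id ℚ O) z) := by
  induction z using TensorProduct.induction_on with
  | zero => simp
  | tmul a b =>
    rw [IG.g0J_tmul, Algebra.TensorProduct.map_tmul, IG.g0J_tmul, map_mul, AlgHom.commutes,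
      AlgHom.id_apply]
  | add a b ha hb => rw [map_add, map_add, ha, hb, map_add, map_add]

private lemma D1_eval (I : O →ₗ[ℚ] ℚ) (σ : Γ) (f : O) {R : Type} [CommRing R] [Algebra ℚ R]
    (g : Pts O R) : g.hom (D1_E A I σ f O (Pts.univ O)) = D1_E A I σ f R g := by
  unfold D1_E
  rw [D1_nat, ← Pts.map_hom_apply, map_tc]
  have h1 : Pts.map (Algebra.TensorProduct.map g.hom (AlgHom.id ℚ O))
      (Pts.map (Algebra.TensorProduct.includeRight : O →ₐ[ℚ] O ⊗[ℚ] O) (Pts.univ O)) =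
      (Pts.map (Algebra.TensorProduct.includeRight : O →ₐ[ℚ] R ⊗[ℚ] O) (Pts.univ O)) := by
    ext h
    change Algebra.TensorProduct.map g.hom (AlgHom.id ℚ O) ((1 : O) ⊗ₜ[ℚ] h) = (1 : R) ⊗ₜ[ℚ] h
    rw [Algebra.TensorProduct.map_tmul, map_one, AlgHom.id_apply]
  have h2 : Pts.map (Algebra.TensorProduct.map g.hom (AlgHom.id ℚ O))
      (Pts.map (Algebra.TensorProduct.includeLeft : O →ₐ[ℚ] O ⊗[ℚ] O) (Pts.univ O)) =
      (Pts.map (Algebra.TensorProduct.includeLeft : R →ₐ[ℚ] R ⊗[ℚ] O) g) := by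
    ext h
    change Algebra.TensorProduct.map g.hom (AlgHom.id ℚ O) (h ⊗ₜ[ℚ] (1 : O)) =
      (g.hom h) ⊗ₜ[ℚ] (1 : O)
    rw [Algebra.TensorProduct.map_tmul, map_one]
  rw [h1, h2]

private lemma D1_inv (I : O →ₗ[ℚ] ℚ)
    (hI : ∀ f : O, TensorProduct.lid ℚ O (LinearMap.rTensor O I (comul (R := ℚ) f)) =
      algebraMap ℚ O (I f)) (σ : Γ) (f : O) {R : Type} [CommRing R] [Algebra ℚ R]
    (x g : Pts O R) : D1_E A I σ f R (tc A σ x g) = D1_E A I σ f R g := by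
  unfold D1_E
  rw [map_tc, ← tc_mul]
  set U : Pts O (R ⊗[ℚ] O) := Pts.map Algebra.TensorProduct.includeRight (Pts.univ O) with hU
  set X : Pts O (R ⊗[ℚ] O) :=
    Pts.map (Algebra.TensorProduct.includeLeft : R →ₐ[ℚ] R ⊗[ℚ] O) x with hX
  let θ : R ⊗[ℚ] O →ₐ[ℚ] R ⊗[ℚ] O := Algebra.TensorProduct.lift
    (Algebra.TensorProduct.includeLeft : R →ₐ[ℚ] R ⊗[ℚ] O) (U * X).hom (fun _ _ => Commute.all _ _)
  have hθ : ∀ (r : R) (h : O), θ (r ⊗ₜ[ℚ] h) = (r ⊗ₜ[ℚ] (1 : O)) * (U * X).hom h := by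
    intro r h
    change Algebra.TensorProduct.lift _ _ _ (r ⊗ₜ[ℚ] h) = _
    rw [Algebra.TensorProduct.lift_tmul]
    rfl
  have h1 : Pts.map θ U = U * X := by
    ext h
    change θ ((1 : R) ⊗ₜ[ℚ] h) = (U * X).hom h
    rw [hθ, ← Algebra.TensorProduct.one_def, one_mul]
  have h2 : Pts.map θ (Pts.map (Algebra.TensorProduct.includeLeft : R →ₐ[ℚ] R ⊗[ℚ] O) g) =
      Pts.map (Algebra.TensorProduct.includeLeft : R →ₐ[ℚ] R ⊗[ℚ] O) g := by
    ext h
    change θ ((g.hom h) ⊗ₜ[ℚ] (1 : O)) = (g.hom h) ⊗ₜ[ℚ] (1 : O)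
    rw [hθ, map_one, mul_one]
  have h3 : ∀ z : R ⊗[ℚ] O, IG.g0J R I (θ z) = IG.g0J R I z := by
    intro z
    induction z using TensorProduct.induction_on with
    | zero => simp
    | tmul r h =>
      rw [hθ, IG.g0J_tmul]
      have h4 : ∀ w : R ⊗[ℚ] O, (r ⊗ₜ[ℚ] (1 : O)) * w = r • w := by
        intro w
        rw [Algebra.smul_def]
        rfl
      rw [h4, map_smul, IG.g0_inv R I hI x h, smul_eq_mul]
    | add a b ha hb => rw [map_add, map_add, ha, hb, map_add]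
  rw [← h3 ((tc A σ U _).hom f), ← Pts.map_hom_apply, map_tc, h1, h2]

/-- The Reynolds operator for twisted conjugation: with the invariant integral `I` (hypothesis
`hI`: `∫ h(u v) du = ∫ h(u) du`, `Δ h (u, v) = h(u v)`) the function `f' (g) = ∫ f(u g σ(u)⁻¹) du` is a regular function on
`Ĝ`, in `inv σ`, and its value at a point `x` over the field `K` is `∫` of the function `f` along the generic point of the orbit.
`IG.g0J K I : K ⊗ O → K` is `id ⊗ I` (G0a.lean, `g0J_tmul`).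

Construction: over `R₀ = O ⊗ O` take the points `g₀ = ⟨includeLeft⟩` and `u₀ = ⟨includeRight⟩` and
`f' := (TensorProduct.rid ℚ O) ((id ⊗ I) ((tc A σ u₀ g₀).hom f))` (i.e. `sl I` of Rep.lean).
Evaluation at any point `g : Pts O R` over any `ℚ`-algebra `R`: `g.hom f' = (id ⊗ I) ((tc A σ u g_R⊗O).hom f)`
where `u = ⟨includeRight⟩ : Pts O (R ⊗ O)` (apply the homomorphism `g.hom ⊗ id : O ⊗ O → R ⊗ O`
(`Algebra.TensorProduct.map g.hom (AlgHom.id ℚ O)`), `map_tc`, and `(id ⊗ I) ∘ (g ⊗ id) = g ∘ (id ⊗ I)`, checked on pure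
tensors). Taking `R = K`, `g = x` gives the last statement. Invariance: for `x, g : Pts O R` the element for
`tc A σ x g` is `tc A σ (u * x) g` over `R ⊗ O` (`tc_mul`), which is the image of `tc A σ u g` under the `R`-algebra
homomorphism `θ : R ⊗ O → R ⊗ O`, `θ (r ⊗ h) = r • ∑ (x h₂) ⊗ h₁` (`u ↦ u * x`, `Algebra.TensorProduct.lift`), and
`(id ⊗ I) (θ z) = (id ⊗ I) z` for all `z : R ⊗ O` (pure tensors `r ⊗ h`: apply the algebra homomorphism... `x` to `hI h`: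
`∑ I(h₁) x(h₂) = I(h)`; write `comul h` as a finite sum or use `lid`/`rTensor` naturality). Compare `comm_avg` in Haar.lean and
`Red.right_inv` in G0a.lean. -/
theorem exists_reynolds (I : O →ₗ[ℚ] ℚ)
    (hI : ∀ f : O, TensorProduct.lid ℚ O (LinearMap.rTensor O I (comul (R := ℚ) f)) =
      algebraMap ℚ O (I f)) (σ : Γ) (f : O) :
    ∃ f' ∈ A.inv σ, ∀ (K : Type) [Field K] [Algebra ℚ K] (x : Pts O K),
      IG.g0J K I ((orb A σ x).hom f) = x.hom f' := by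
  refine ⟨D1_E A I σ f O (Pts.univ O), ?_, ?_⟩
  · rw [A.mem_inv]
    intro R _ _ x g
    rw [D1_eval, D1_eval]
    exact D1_inv A I hI σ f x g
  · intro K _ _ x
    rw [D1_eval]
    rfl

end Pool.Agent.Lib.MP_666dc0_nt.LD
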