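import Pool.Agent.Lib.MP_666dc0_nt.LD.D0
import Pool.Agent.Lib.MP_666dc0_nt.LD.D1

open TensorProduct Coalgebra
open scoped TensorProduct Matrix

namespace Pool.Agent.Lib.MP_666dc0_nt.LD

variable {O : Type} [CommRing O] [HopfAlgebra ℚ O] {Γ : Type} [Group Γ] (A : HopfAction Γ O)

/-- The closures of the orbits of two points with the same invariants meet. Let `Φ_x := (id ⊗ I) ∘ ext (orb x)`, a `K`-linear functional on
`K ⊗ O` with `Φ_x 1 = 1`. By `exists_reynolds` `Φ_x (1 ⊗ f) = x.hom f' = y.hom f' = Φ_y (1 ⊗ f)`, so `Φ_x = Φ_y` (`K`-linear, `g0J` is `K`-linear: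
`IG.g0J K I : K ⊗[ℚ] O →ₗ[K] K`; `ext_tmul`). If `a + b = 1` with `ext (orb x) a = 0`, `ext (orb y) b = 0` then `1 = Φ_x a + Φ_x b = 0 + Φ_y b = 0`.
So the ideal `J := ker (ext (orb x)) ⊔ ker (ext (orb y))` of `K ⊗ O` is proper, `(K ⊗ O) ⧸ J` is a nontrivial `K`-algebra of finite type
(`Algebra.FiniteType.baseChange`, quotient) and has a `K`-point (`exists_point_of_finiteType`, D0.lean;
`K` algebraically closed). Compose with `K ⊗ O → (K ⊗ O) ⧸ J` and `O → K ⊗ O` (`includeRight`) to get `z`; `ext z` is the composition. -/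
theorem exists_common [Algebra.FiniteType ℚ O] (hO : LinearlyReductive O) {K : Type} [Field K]
    [IsAlgClosed K] [Algebra ℚ K] (σ : Γ) (x y : Pts O K)
    (hxy : ∀ f ∈ A.inv σ, x.hom f = y.hom f) :
    ∃ z : Pts O K, InClosure A σ x z ∧ InClosure A σ y z := by
  obtain ⟨I, hI1, hI⟩ := hO
  have hst : IsScalarTower ℚ K K := IsScalarTower.of_algebraMap_eq' (RingHom.ext_rat _ _)
  have hΦ : ∀ F : K ⊗[ℚ] O, IG.g0J K I (ext (K := K) (orb A σ x) F) =
      IG.g0J K I (ext (K := K) (orb A σ y) F) := by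
    intro F
    induction F using TensorProduct.induction_on with
    | zero => simp
    | add a b ha hb => simp only [map_add, ha, hb]
    | tmul c f =>
      obtain ⟨f', hf', h⟩ := exists_reynolds A I hI σ f
      rw [ext_tmul, ext_tmul, ← Algebra.smul_def, ← Algebra.smul_def, map_smul, map_smul,
        h K x, h K y, hxy f' hf']
  obtain ⟨J, hJ⟩ : ∃ J : Ideal (K ⊗[ℚ] O), J = RingHom.ker (ext (K := K) (orb A σ x)) ⊔
      RingHom.ker (ext (K := K) (orb A σ y)) := ⟨_, rfl⟩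
  have hJtop : J ≠ ⊤ := by
    intro htop
    have h1 : (1 : K ⊗[ℚ] O) ∈ J := by rw [htop]; trivial
    rw [hJ, Submodule.mem_sup] at h1
    obtain ⟨a, ha, b, hb, hab⟩ := h1
    rw [RingHom.mem_ker] at ha hb
    have h2 : IG.g0J K I (ext (K := K) (orb A σ x) 1) = 1 := by
      rw [map_one, Algebra.TensorProduct.one_def, IG.g0J_tmul, hI1, map_one, mul_one]
    rw [← hab, map_add, map_add, ha, map_zero, zero_add, hΦ, hb, map_zero] at h2
    exact zero_ne_one h2
  have hnt : Nontrivial ((K ⊗[ℚ] O) ⧸ J) := Ideal.Quotient.nontrivial_iff.mpr hJtop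
  have hft : Algebra.FiniteType K (K ⊗[ℚ] O) := Algebra.FiniteType.baseChange K
  have hft2 : Algebra.FiniteType K ((K ⊗[ℚ] O) ⧸ J) :=
    Algebra.FiniteType.of_surjective (Ideal.Quotient.mkₐ K J) Ideal.Quotient.mk_surjective
  obtain ⟨φ⟩ := exists_point_of_finiteType K ((K ⊗[ℚ] O) ⧸ J)
  obtain ⟨z, hz⟩ : ∃ z : Pts O K, ∀ f : O, z.hom f = φ (Ideal.Quotient.mk J ((1 : K) ⊗ₜ[ℚ] f)) :=
    ⟨⟨(φ.toRingHom.comp ((Ideal.Quotient.mk J).comp
      (Algebra.TensorProduct.includeRight : O →ₐ[ℚ] K ⊗[ℚ] O).toRingHom)).toRatAlgHom⟩,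
      fun f => rfl⟩
  have hext : ∀ F : K ⊗[ℚ] O, ext (K := K) z F = φ (Ideal.Quotient.mk J F) := by
    intro F
    induction F using TensorProduct.induction_on with
    | zero => simp
    | add a b ha hb => simp only [map_add, ha, hb]
    | tmul c f =>
      rw [ext_tmul, hz]
      have h1 : (c ⊗ₜ[ℚ] f : K ⊗[ℚ] O) = c • ((1 : K) ⊗ₜ[ℚ] f) := by
        rw [TensorProduct.smul_tmul', smul_eq_mul, mul_one]
      have h2 : Ideal.Quotient.mk J (c • ((1 : K) ⊗ₜ[ℚ] f)) =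
          c • Ideal.Quotient.mk J ((1 : K) ⊗ₜ[ℚ] f) := map_smul (Ideal.Quotient.mkₐ K J) c _
      rw [h1, h2, map_smul]
      rfl
  refine ⟨z, fun F hF => ?_, fun F hF => ?_⟩
  · rw [hext, Ideal.Quotient.eq_zero_iff_mem.mpr, map_zero]
    rw [hJ]
    exact Submodule.mem_sup_left (by rw [RingHom.mem_ker]; exact hF)
  · rw [hext, Ideal.Quotient.eq_zero_iff_mem.mpr, map_zero]
    rw [hJ]
    exact Submodule.mem_sup_right (by rw [RingHom.mem_ker]; exact hF)

end Pool.Agent.Lib.MP_666dc0_nt.LD
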