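import Pool.Agent.Lib.MP_666dc0_nt.LD.DDefs

open TensorProduct Coalgebra
open scoped TensorProduct Matrix

namespace Pool.Agent.Lib.MP_666dc0_nt.LD

variable {O : Type} [CommRing O] [HopfAlgebra ℚ O] {Γ : Type} [Group Γ] (A : HopfAction Γ O)

/-- The tautological point on a component of the closure of the orbit. Let `o := ext (orb A σ x) : K ⊗ O →ₐ[K] K ⊗ O` and `A' := o.range ≅ (K ⊗ O) ⧸ ker o`, a `K`-algebra of finite type
(`K ⊗ O` is: `Algebra.FiniteType.baseChange`), so noetherian. Since `z` is in the closure, `ext z` factors through `A'`: `ζ' : A' →ₐ[K] K` with `ζ' (o F) = ext z F`. Let `𝔭 ≤ ker ζ'` be a minimal prime of `A'`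
(`Ideal.exists_minimalPrimes_le`), `R := A' ⧸ 𝔭`, `ζ : R →ₐ[K] K` the induced homomorphism, `X : Pts O R` the image of the point `orb A σ x`
(`f ↦ [o (1 ⊗ f)]`; `ext_one_tmul`); `ext X F = [o F]`, so `ext X F = 0` if `o F = 0`. `ζ (X f) = ext z (1 ⊗ f) = z f`. There is a prime `𝔮` of `K ⊗ O` with `𝔮.comap A'.subtype = 𝔭`
(`Ideal.exists_comap_eq_of_mem_minimalPrimes_of_injective`); `L := FractionRing ((K ⊗ O) ⧸ 𝔮)`; `R → (K ⊗ O) ⧸ 𝔮 → L` is injective. `u :=` image of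
`gen O K`, `x' :=` the image of `bc (K ⊗ O) x`; `tc A σ u x'` is the image of `orb A σ x` (`map_tc`), which is the image of `X`. -/
theorem exists_taut [Algebra.FiniteType ℚ O] {K : Type} [Field K] [Algebra ℚ K] (σ : Γ)
    (x z : Pts O K) (hz : InClosure A σ x z) :
    ∃ (R : Type) (_ : CommRing R) (_ : IsDomain R) (_ : IsNoetherianRing R) (_ : Algebra ℚ R)
      (_ : Algebra K R) (ζ : R →ₐ[K] K) (X : Pts O R),
      (∀ f, ζ (X.hom f) = z.hom f) ∧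
      (∀ F : K ⊗[ℚ] O, ext (K := K) (orb A σ x) F = 0 → ext (K := K) X F = 0) ∧
      ∃ (L : Type) (_ : Field L) (_ : Algebra ℚ L) (_ : Algebra R L) (u : Pts O L) (x' : Pts O L),
        Function.Injective (algebraMap R L) ∧
        (∀ f, x'.hom f = algebraMap R L (algebraMap K R (x.hom f))) ∧ tc A σ u x' = bc L X := by
  have hft : Algebra.FiniteType K (K ⊗[ℚ] O) := inferInstance
  have hnoe : IsNoetherianRing (K ⊗[ℚ] O) := Algebra.FiniteType.isNoetherianRing K (K ⊗[ℚ] O)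
  let o : K ⊗[ℚ] O →ₐ[K] K ⊗[ℚ] O := ext (K := K) (orb A σ x)
  let e : K ⊗[ℚ] O →ₐ[K] K := ext (K := K) z
  have hle : (⊥ : Ideal (K ⊗[ℚ] O)).comap (o : K ⊗[ℚ] O →+* K ⊗[ℚ] O) ≤
      RingHom.ker (e : K ⊗[ℚ] O →+* K) := fun F hF => hz F hF
  have hprime : (RingHom.ker (e : K ⊗[ℚ] O →+* K)).IsPrime := RingHom.ker_isPrime _
  obtain ⟨P, hP, hPe⟩ := Ideal.exists_minimalPrimes_le hle
  obtain ⟨q, hq, -, hqP⟩ := Ideal.exists_comap_eq_of_mem_minimalPrimes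
    (o : K ⊗[ℚ] O →+* K ⊗[ℚ] O) P hP
  have hPprime : P.IsPrime := hP.1.1
  have hoP : ∀ F, o F = 0 → F ∈ P := fun F hF => hP.1.2 hF
  let ι : (K ⊗[ℚ] O) ⧸ P →+* (K ⊗[ℚ] O) ⧸ q :=
    Ideal.quotientMap q (o : K ⊗[ℚ] O →+* K ⊗[ℚ] O) hqP.ge
  have hι : Function.Injective ι := Ideal.quotientMap_injective' hqP.le
  let L : Type := FractionRing ((K ⊗[ℚ] O) ⧸ q)
  let φ : K ⊗[ℚ] O →+* L := (algebraMap ((K ⊗[ℚ] O) ⧸ q) L).comp (Ideal.Quotient.mk q)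
  let alg : Algebra ((K ⊗[ℚ] O) ⧸ P) L :=
    ((algebraMap ((K ⊗[ℚ] O) ⧸ q) L).comp ι).toAlgebra
  have halg : ∀ F : K ⊗[ℚ] O, algebraMap ((K ⊗[ℚ] O) ⧸ P) L (Ideal.Quotient.mk P F) = φ (o F) :=
    fun F => rfl
  let ζ : (K ⊗[ℚ] O) ⧸ P →ₐ[K] K := Ideal.Quotient.liftₐ P e fun F hF => hPe hF
  let X : Pts O ((K ⊗[ℚ] O) ⧸ P) :=
    ⟨(Ideal.Quotient.mkₐ ℚ P).comp (gen O K).hom⟩
  have hX : ∀ f, X.hom f = Ideal.Quotient.mk P ((1 : K) ⊗ₜ[ℚ] f) := fun f => rfl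
  refine ⟨(K ⊗[ℚ] O) ⧸ P, inferInstance, Ideal.Quotient.isDomain P, inferInstance, inferInstance,
    inferInstance, ζ, X, ?_, ?_, L, inferInstance, inferInstance, alg,
    Pts.map φ.toRatAlgHom (gen O K), Pts.map φ.toRatAlgHom (bc (K ⊗[ℚ] O) x), ?_, ?_, ?_⟩
  · intro f
    rw [hX]
    exact ext_one_tmul z f
  · intro F hF
    have h1 : ext (K := K) X = Ideal.Quotient.mkₐ K P := by
      refine Algebra.TensorProduct.ext' fun a f => ?_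
      rw [ext_tmul, hX]
      change _ = Ideal.Quotient.mk P (a ⊗ₜ[ℚ] f)
      have h2 : (a ⊗ₜ[ℚ] f : K ⊗[ℚ] O) = (a ⊗ₜ[ℚ] 1) * (1 ⊗ₜ[ℚ] f) := by
        rw [Algebra.TensorProduct.tmul_mul_tmul, mul_one, one_mul]
      rw [h2, map_mul]
      rfl
    rw [h1]
    exact Ideal.Quotient.eq_zero_iff_mem.2 (hoP F hF)
  · exact (IsFractionRing.injective ((K ⊗[ℚ] O) ⧸ q) L).comp hι
  · intro f
    have h1 : algebraMap K ((K ⊗[ℚ] O) ⧸ P) (x.hom f) =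
        Ideal.Quotient.mk P (algebraMap K (K ⊗[ℚ] O) (x.hom f)) := rfl
    rw [h1, halg, AlgHom.commutes]
    rfl
  · rw [← map_tc]
    ext f
    change φ ((orb A σ x).hom f) = algebraMap ((K ⊗[ℚ] O) ⧸ P) L (X.hom f)
    rw [hX, halg]
    congr 1
    exact (ext_one_tmul (orb A σ x) f).symm

end Pool.Agent.Lib.MP_666dc0_nt.LD
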