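import Pool.Agent.Lib.MP_666dc0_nt.LD.DDefs
import Pool.Agent.Lib.MP_666dc0_nt.RepEval

open TensorProduct Coalgebra
open scoped TensorProduct Matrix

namespace Pool.Agent.Lib.MP_666dc0_nt.LD

variable {O : Type} [CommRing O] [HopfAlgebra ℚ O] {Γ : Type} [Group Γ] {A : HopfAction Γ O} {n : ℕ}

omit [HopfAlgebra ℚ O] in
private lemma D3b_conj {K M : Type} [Field K] [Ring M] [Algebra K M] (U U' X : M)
    (h1 : U * U' = 1) (h2 : U' * U = 1) (p : Polynomial K) :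
    Polynomial.aeval (U * X * U') p = U * Polynomial.aeval X p * U' := by
  induction p using Polynomial.induction_on with
  | C a =>
    rw [Polynomial.aeval_C, Polynomial.aeval_C, ← Algebra.commutes, mul_assoc, h1, mul_one]
  | add p q hp hq =>
    rw [map_add, map_add, hp, hq, mul_add, add_mul]
  | monomial k a h =>
    have h3 : (Polynomial.C a * Polynomial.X ^ (k + 1) : Polynomial K) =
        Polynomial.C a * Polynomial.X ^ k * Polynomial.X := by
      rw [pow_succ, mul_assoc]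
    rw [h3]
    generalize Polynomial.C a * Polynomial.X ^ k = r at h ⊢
    rw [map_mul, h, Polynomial.aeval_X, map_mul, Polynomial.aeval_X]
    calc U * Polynomial.aeval X r * U' * (U * X * U')
        = U * Polynomial.aeval X r * (U' * U) * X * U' := by simp only [mul_assoc]
      _ = _ := by rw [h2, mul_one, mul_assoc U]

private lemma D3b_tc (ρ : MatRep A n) {K : Type} [Field K] (σ : Γ) {R : Type} [CommRing R]
    [Algebra ℚ R] [Algebra K R] (x w : Pts O R) (p : Polynomial K)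
    (hp : Polynomial.aeval (ρ.ev R (⟨x, σ⟩ : A.LGroup R)) p = 0) :
    Polynomial.aeval (ρ.ev R (⟨tc A σ w x, σ⟩ : A.LGroup R)) p = 0 := by
  have h1 : ρ.ev R (⟨tc A σ w x, σ⟩ : A.LGroup R) = ρ.ev R (SemidirectProduct.inl w) *
      ρ.ev R (⟨x, σ⟩ : A.LGroup R) * ρ.ev R (SemidirectProduct.inl w)⁻¹ := by
    rw [← conj_eq_mk_tc, map_mul, map_mul]
  rw [h1, D3b_conj, hp, mul_zero, zero_mul]
  · rw [← map_mul, mul_inv_cancel, map_one]
  · rw [← map_mul, inv_mul_cancel, map_one]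

private lemma D3b_ev_map (ρ : MatRep A n) {K : Type} [Field K] (σ : Γ) {R S : Type} [CommRing R]
    [Algebra ℚ R] [Algebra K R] [CommRing S] [Algebra ℚ S] [Algebra K S] (φ : R →ₐ[K] S)
    (x : Pts O R) : ρ.ev S (⟨Pts.map (φ : R →+* S).toRatAlgHom x, σ⟩ : A.LGroup S) =
      φ.mapMatrix (ρ.ev R (⟨x, σ⟩ : A.LGroup R)) := by
  have h1 := ρ.ev_mapL (φ : R →+* S).toRatAlgHom (⟨x, σ⟩ : A.LGroup R)
  have h2 : A.mapL (φ : R →+* S).toRatAlgHom (⟨x, σ⟩ : A.LGroup R) =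
      (⟨Pts.map (φ : R →+* S).toRatAlgHom x, σ⟩ : A.LGroup S) := by
    ext1 <;> rfl
  rw [h2] at h1
  rw [h1]
  rfl

private lemma D3b_map (ρ : MatRep A n) {K : Type} [Field K] (σ : Γ) {R S : Type} [CommRing R]
    [Algebra ℚ R] [Algebra K R] [CommRing S] [Algebra ℚ S] [Algebra K S] (φ : R →ₐ[K] S)
    (x : Pts O R) (p : Polynomial K) :
    Polynomial.aeval (ρ.ev S (⟨Pts.map (φ : R →+* S).toRatAlgHom x, σ⟩ : A.LGroup S)) p =
      φ.mapMatrix (Polynomial.aeval (ρ.ev R (⟨x, σ⟩ : A.LGroup R)) p) := by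
  rw [D3b_ev_map, Polynomial.aeval_algHom_apply]

/-- A polynomial that kills the matrix of `(x, σ)` kills the matrix of every point of the closure of the orbit of `x`. Let `M := Polynomial.aeval (ρ.ev (K ⊗ O) (gen O K, σ)) p`, a matrix over `K ⊗ O`. For a point `g` over a `K`-algebra `R`: `(gen, σ)` maps to `(g, σ)` under `ext g : K ⊗ O →ₐ[K] R`
(`A.mapL`, `MatRep.ev_mapL`, with `ext g` as a homomorphism of `ℚ`-algebras; `Pts.map (ext g) (gen O K) = g` by `ext_one_tmul`), so `M.map (ext g) = Polynomial.aeval (ρ.ev R (g, σ)) p` (`Polynomial.aeval_algHom_apply` for the `K`-algebra homomorphism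
`(ext g).mapMatrix`). For `g = orb A σ x` the element `(orb, σ)` is conjugate to `(bc x, σ)` by `gen` (`conj_eq_mk_tc`), so `aeval (ρ.ev (orb, σ)) p = ρ.gm gen * aeval (ρ.ev (bc x, σ)) p * (ρ.gm gen)⁻¹ = 0` (`aeval (ρ.ev (bc x, σ)) p` is the map of
`aeval (ρ.ev K (x, σ)) p = 0`; conjugation: induct on `p` or use that conjugation is an algebra homomorphism). Hence `ext (orb) (M i j) = 0`, so `ext X (M i j) = 0` by `hX`. -/
theorem aeval_eq_zero_of_relations (ρ : MatRep A n) {K : Type} [Field K] [Algebra ℚ K] (σ : Γ)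
    (x : Pts O K) (p : Polynomial K)
    (hp : Polynomial.aeval (ρ.ev K (⟨x, σ⟩ : A.LGroup K)) p = 0) {R : Type} [CommRing R]
    [Algebra ℚ R] [Algebra K R] (X : Pts O R)
    (hX : ∀ F : K ⊗[ℚ] O, ext (K := K) (orb A σ x) F = 0 → ext (K := K) X F = 0) :
    Polynomial.aeval (ρ.ev R (⟨X, σ⟩ : A.LGroup R)) p = 0 := by
  have hgen : ∀ {S : Type} [CommRing S] [Algebra ℚ S] [Algebra K S] (g : Pts O S),
      Polynomial.aeval (ρ.ev S (⟨g, σ⟩ : A.LGroup S)) p = (ext (K := K) g).mapMatrix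
        (Polynomial.aeval (ρ.ev (K ⊗[ℚ] O) (⟨gen O K, σ⟩ : A.LGroup (K ⊗[ℚ] O))) p) := by
    intro S _ _ _ g
    have h1 := D3b_map ρ σ (ext (K := K) g) (gen O K) p
    have h2 : Pts.map ((ext (K := K) g : K ⊗[ℚ] O →ₐ[K] S) : K ⊗[ℚ] O →+* S).toRatAlgHom
        (gen O K) = g := by
      ext f
      exact ext_one_tmul g f
    rw [h2] at h1
    exact h1
  have h1 : Polynomial.aeval (ρ.ev (K ⊗[ℚ] O)
      (⟨bc (K ⊗[ℚ] O) x, σ⟩ : A.LGroup (K ⊗[ℚ] O))) p = 0 := by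
    have h2 := D3b_map ρ σ (Algebra.ofId K (K ⊗[ℚ] O)) x p
    rw [hp, map_zero] at h2
    exact h2
  have h2 : Polynomial.aeval (ρ.ev (K ⊗[ℚ] O)
      (⟨orb A σ x, σ⟩ : A.LGroup (K ⊗[ℚ] O))) p = 0 := D3b_tc ρ σ _ _ p h1
  rw [hgen] at h2
  rw [hgen]
  ext i j
  exact hX _ (congrFun (congrFun h2 i) j)

/-- Conjugation: if `p` kills `ρ.ev (x, σ)` over a `K`-algebra `R` then it kills `ρ.ev (tc A σ w x, σ)`. -/
theorem aeval_tc (ρ : MatRep A n) {K : Type} [Field K] (σ : Γ) {R : Type} [CommRing R]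
    [Algebra ℚ R] [Algebra K R] (x w : Pts O R) (p : Polynomial K)
    (hp : Polynomial.aeval (ρ.ev R (⟨x, σ⟩ : A.LGroup R)) p = 0) :
    Polynomial.aeval (ρ.ev R (⟨tc A σ w x, σ⟩ : A.LGroup R)) p = 0 := by
  exact D3b_tc ρ σ x w p hp

/-- Base change: if `p` kills `ρ.ev (x, σ)` over the `K`-algebra `R` and `φ : R →ₐ[K] S` then `p` kills `ρ.ev (Pts.map φ x, σ)`. -/
theorem aeval_map (ρ : MatRep A n) {K : Type} [Field K] (σ : Γ) {R S : Type} [CommRing R]
    [Algebra ℚ R] [Algebra K R] [CommRing S] [Algebra ℚ S] [Algebra K S] (φ : R →ₐ[K] S)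
    (x : Pts O R) (p : Polynomial K)
    (hp : Polynomial.aeval (ρ.ev R (⟨x, σ⟩ : A.LGroup R)) p = 0) :
    Polynomial.aeval (ρ.ev S
      (⟨Pts.map (φ : R →+* S).toRatAlgHom x, σ⟩ : A.LGroup S)) p = 0 := by
  rw [D3b_map, hp, map_zero]

end Pool.Agent.Lib.MP_666dc0_nt.LD
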