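import Mathlib

namespace Pool.Agent.Lib.MP_666dc0_nt.LD

/-- Approximation. `algebraMap R Tr` is injective: if `a ↦ 0` then the image of `a` in `R ⧸ 𝔪 ^ N` is `0` for all `N` (`AlgHom.commutes`), so `a ∈ ⨅ N, 𝔪 ^ N = ⊥`
(Krull: `Ideal.iInf_pow_eq_bot_of_isDomain`). Hence there is a prime `𝔮` of `Tr` with `𝔮.comap (algebraMap R Tr) = ⊥` (`⊥` is a minimal prime of the domain `R`;
`Ideal.exists_comap_eq_of_mem_minimalPrimes_of_injective`), and `L := FractionRing (Tr ⧸ 𝔮)` works. -/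
theorem exists_field_of_approx {R : Type} [CommRing R] [IsDomain R] [IsNoetherianRing R]
    (𝔪 : Ideal R) (h𝔪 : 𝔪 ≠ ⊤) {Tr : Type} [CommRing Tr] [Algebra R Tr]
    (h : ∀ N : ℕ, Nonempty (Tr →ₐ[R] R ⧸ 𝔪 ^ N)) :
    ∃ (L : Type) (_ : Field L) (_ : Algebra R L), Function.Injective (algebraMap R L) ∧
      Nonempty (Tr →ₐ[R] L) := by
  have hinj : Function.Injective (algebraMap R Tr) := by
    rw [injective_iff_map_eq_zero]
    intro a ha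
    have h1 : ∀ N : ℕ, a ∈ 𝔪 ^ N := by
      intro N
      obtain ⟨φ⟩ := h N
      have h2 := φ.commutes a
      rw [ha, map_zero] at h2
      exact Ideal.Quotient.eq_zero_iff_mem.1 h2.symm
    have h2 : a ∈ ⨅ N : ℕ, 𝔪 ^ N := (Submodule.mem_iInf _).2 h1
    rw [Ideal.iInf_pow_eq_bot_of_isDomain 𝔪 h𝔪] at h2
    exact h2
  have hmin : (⊥ : Ideal R) ∈ minimalPrimes R := by
    rw [IsDomain.minimalPrimes_eq_singleton_bot]
    rfl
  obtain ⟨𝔮, h𝔮, hcomap⟩ := Ideal.exists_comap_eq_of_mem_minimalPrimes_of_injective hinj ⊥ hmin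
  have hdom : IsDomain (Tr ⧸ 𝔮) := Ideal.Quotient.isDomain 𝔮
  refine ⟨FractionRing (Tr ⧸ 𝔮), inferInstance, inferInstance, ?_,
    ⟨(IsScalarTower.toAlgHom R (Tr ⧸ 𝔮) (FractionRing (Tr ⧸ 𝔮))).comp (Ideal.Quotient.mkₐ R 𝔮)⟩⟩
  rw [injective_iff_map_eq_zero]
  intro a ha
  rw [IsScalarTower.algebraMap_apply R (Tr ⧸ 𝔮) (FractionRing (Tr ⧸ 𝔮))] at ha
  have h1 := (IsFractionRing.injective (Tr ⧸ 𝔮) (FractionRing (Tr ⧸ 𝔮))) (ha.trans (map_zero _).symm)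
  have h2 : algebraMap R Tr a ∈ 𝔮 := Ideal.Quotient.eq_zero_iff_mem.1 h1
  have h3 : a ∈ 𝔮.comap (algebraMap R Tr) := h2
  rw [hcomap] at h3
  exact h3

end Pool.Agent.Lib.MP_666dc0_nt.LD
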