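import Pool.Agent.Lib.MP_666dc0_nt.LD.DDefs

open TensorProduct Coalgebra
open scoped TensorProduct Matrix

namespace Pool.Agent.Lib.MP_666dc0_nt.LD

variable {O : Type} [CommRing O] [HopfAlgebra ℚ O] {Γ : Type} [Group Γ] (A : HopfAction Γ O)

/-- The transporter algebra: `Tr = (R ⊗[ℚ] O) ⧸ J`, `J` the ideal generated by the elements `(tc A σ u z').hom f - (bc X).hom f`, `f : O`, where `u = ⟨includeRight⟩` is the generic point
over `R ⊗[ℚ] O` (an `R`-algebra by the left factor), `z'`, `bc X` the base changes of `z`, `X` to `R ⊗ O`. A homomorphism of `R`-algebras `Tr → B` is the same as a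
point `u` of `Ĝ` over `B` (composition with `O → R ⊗ O → Tr`; conversely `Algebra.TensorProduct.lift`, `Ideal.Quotient.liftₐ`) such that the relations hold (`map_tc`). Note: all `ℚ`-algebra
structures on a ring agree, `RingHom.ext_rat`, and homomorphisms of `ℚ`-algebras that are ring homomorphisms: `RingHom.toRatAlgHom`. Finite type: `R ⊗ O` is of finite type over `R`
(`Algebra.FiniteType.baseChange`), so is its quotient. -/
theorem exists_transporter [Algebra.FiniteType ℚ O] (σ : Γ) {R : Type} [CommRing R] [Algebra ℚ R]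
    (z X : Pts O R) :
    ∃ (Tr : Type) (_ : CommRing Tr) (_ : Algebra R Tr), Algebra.FiniteType R Tr ∧
      ∀ (B : Type) [CommRing B] [Algebra ℚ B] [Algebra R B],
        Nonempty (Tr →ₐ[R] B) ↔ ∃ u : Pts O B, tc A σ u (bc B z) = bc B X := by
  let u : Pts O (R ⊗[ℚ] O) := ⟨Algebra.TensorProduct.includeRight⟩
  let J : Ideal (R ⊗[ℚ] O) := Ideal.span (Set.range fun f : O =>
    (tc A σ u (bc (R ⊗[ℚ] O) z)).hom f - (bc (R ⊗[ℚ] O) X).hom f)
  have hbc : ∀ (B : Type) [CommRing B] [Algebra ℚ B] [Algebra R B] (ψ : R ⊗[ℚ] O →ₐ[ℚ] B)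
      (_ : ∀ a : R, ψ (algebraMap R (R ⊗[ℚ] O) a) = algebraMap R B a) (w : Pts O R),
      Pts.map ψ (bc (R ⊗[ℚ] O) w) = bc B w := by
    intro B _ _ _ ψ hψ w
    ext f
    exact hψ (w.hom f)
  have hft : Algebra.FiniteType R (R ⊗[ℚ] O) := Algebra.FiniteType.baseChange R
  refine ⟨(R ⊗[ℚ] O) ⧸ J, inferInstance, inferInstance,
    Algebra.FiniteType.of_surjective (Ideal.Quotient.mkₐ R J) Ideal.Quotient.mk_surjective, ?_⟩
  intro B _ _ _
  constructor
  · rintro ⟨φ⟩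
    let ψ : R ⊗[ℚ] O →ₐ[ℚ] B := ((φ.comp (Ideal.Quotient.mkₐ R J)) : R ⊗[ℚ] O →+* B).toRatAlgHom
    have hψ : ∀ a : R, ψ (algebraMap R (R ⊗[ℚ] O) a) = algebraMap R B a := fun a =>
      (φ.comp (Ideal.Quotient.mkₐ R J)).commutes a
    have hψ0 : ∀ x ∈ J, ψ x = 0 := by
      intro x hx
      change φ (Ideal.Quotient.mk J x) = 0
      rw [Ideal.Quotient.eq_zero_iff_mem.2 hx, map_zero]
    refine ⟨Pts.map ψ u, ?_⟩
    rw [← hbc B ψ hψ z, ← hbc B ψ hψ X, ← map_tc]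
    ext f
    have h1 := hψ0 _ (Ideal.subset_span ⟨f, rfl⟩)
    rw [map_sub, sub_eq_zero] at h1
    exact h1
  · rintro ⟨u', hu'⟩
    have hst : IsScalarTower ℚ R B := IsScalarTower.of_algebraMap_eq' (RingHom.ext_rat _ _)
    let ψ : R ⊗[ℚ] O →ₐ[R] B :=
      Algebra.TensorProduct.lift (Algebra.ofId R B) u'.hom (fun _ _ => Commute.all _ _)
    let ψ' : R ⊗[ℚ] O →ₐ[ℚ] B := (ψ : R ⊗[ℚ] O →+* B).toRatAlgHom
    have hψ : ∀ a : R, ψ' (algebraMap R (R ⊗[ℚ] O) a) = algebraMap R B a := fun a =>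
      ψ.commutes a
    have hu : Pts.map ψ' u = u' := by
      ext f
      change ψ ((1 : R) ⊗ₜ[ℚ] f) = u'.hom f
      rw [Algebra.TensorProduct.lift_tmul, map_one, one_mul]
    have h1 : Pts.map ψ' (tc A σ u (bc (R ⊗[ℚ] O) z)) = Pts.map ψ' (bc (R ⊗[ℚ] O) X) := by
      rw [map_tc, hbc B ψ' hψ z, hbc B ψ' hψ X, hu, hu']
    have hJ : J ≤ RingHom.ker (ψ : R ⊗[ℚ] O →+* B) := by
      rw [Ideal.span_le]
      rintro _ ⟨f, rfl⟩
      change ψ (_ - _) = 0
      rw [map_sub, sub_eq_zero]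
      exact congrArg (fun g : Pts O B => g.hom f) h1
    exact ⟨Ideal.Quotient.liftₐ J ψ fun a ha => hJ ha⟩

end Pool.Agent.Lib.MP_666dc0_nt.LD
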