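import Mathlib

open scoped TensorProduct

namespace Pool.Agent.Lib.MP_666dc0_nt.LD

/-- A common extension of two fields containing a domain `R`. With `Q = FractionRing R` (`L`, `L'` are `Q`-algebras, `FractionRing.liftAlgebra`/`IsFractionRing.lift` since `R → L` is injective),
`L ⊗[Q] L'` is nontrivial (free over a field); a quotient by a maximal ideal. -/
theorem exists_compositum {R : Type} [CommRing R] [IsDomain R] (L L' : Type) [Field L] [Field L']
    [Algebra R L] [Algebra R L'] (h : Function.Injective (algebraMap R L))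
    (h' : Function.Injective (algebraMap R L')) :
    ∃ (Ω : Type) (_ : Field Ω) (_ : Algebra R Ω), Nonempty (L →ₐ[R] Ω) ∧ Nonempty (L' →ₐ[R] Ω) := by
  let Q := FractionRing R
  let i : Q →+* L := IsFractionRing.lift h
  let i' : Q →+* L' := IsFractionRing.lift h'
  let _ : Algebra Q L := i.toAlgebra
  let _ : Algebra Q L' := i'.toAlgebra
  have hi : ∀ a : R, i (algebraMap R Q a) = algebraMap R L a := fun a => IsFractionRing.lift_algebraMap h a
  have hi' : ∀ a : R, i' (algebraMap R Q a) = algebraMap R L' a := fun a =>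
    IsFractionRing.lift_algebraMap h' a
  have hnt : Nontrivial (L ⊗[Q] L') := inferInstance
  obtain ⟨m, hm⟩ := Ideal.exists_maximal (L ⊗[Q] L')
  let _ : Field ((L ⊗[Q] L') ⧸ m) := Ideal.Quotient.field m
  let j : L →+* (L ⊗[Q] L') ⧸ m :=
    (Ideal.Quotient.mk m).comp (Algebra.TensorProduct.includeLeftRingHom (R := Q) (A := L) (B := L'))
  let j' : L' →+* (L ⊗[Q] L') ⧸ m :=
    (Ideal.Quotient.mk m).comp (Algebra.TensorProduct.includeRight (R := Q) (A := L) (B := L')).toRingHom
  have hj : ∀ a : R, j (algebraMap R L a) = j' (algebraMap R L' a) := by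
    intro a
    rw [← hi, ← hi']
    change Ideal.Quotient.mk m (algebraMap Q L (algebraMap R Q a) ⊗ₜ[Q] (1 : L')) =
      Ideal.Quotient.mk m ((1 : L) ⊗ₜ[Q] algebraMap Q L' (algebraMap R Q a))
    congr 1
    generalize algebraMap R Q a = x
    rw [Algebra.algebraMap_eq_smul_one, Algebra.algebraMap_eq_smul_one, TensorProduct.smul_tmul]
  let _ : Algebra R ((L ⊗[Q] L') ⧸ m) := (j.comp (algebraMap R L)).toAlgebra
  exact ⟨(L ⊗[Q] L') ⧸ m, inferInstance, inferInstance,
    ⟨{ j with commutes' := fun a => rfl }⟩, ⟨{ j' with commutes' := fun a => (hj a).symm }⟩⟩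

end Pool.Agent.Lib.MP_666dc0_nt.LD
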