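import Pool.Agent.Lib.MP_666dc0_nt.LD.D0
import Pool.Agent.Lib.MP_666dc0_nt.LD.D5

open TensorProduct Coalgebra
open scoped TensorProduct Matrix

namespace Pool.Agent.Lib.MP_666dc0_nt.LD

variable {O : Type} [CommRing O] [HopfAlgebra ℚ O] {Γ : Type} [Group Γ] (A : HopfAction Γ O)

/-- If two points over the algebraically closed field `K` are conjugate over an extension field `Ω`, they are conjugate over `K`: the transporter algebra `Tr` over `K`
(`exists_transporter` with `R = K`, `z := x`, `X := y`) has a homomorphism to `Ω`, so it is nontrivial, and a nontrivial `K`-algebra of finite type has a homomorphism to `K`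
(`exists_point_of_finiteType`, D0.lean). `bc K x = x`. -/
theorem conj_descend [Algebra.FiniteType ℚ O] {K : Type} [Field K] [IsAlgClosed K] [Algebra ℚ K]
    (σ : Γ) (x y : Pts O K) (Ω : Type) [Field Ω] [Algebra ℚ Ω] [Algebra K Ω] (u : Pts O Ω)
    (hu : tc A σ u (bc Ω x) = bc Ω y) : ∃ h : Pts O K, tc A σ h x = y := by
  obtain ⟨Tr, _, _, hft, hTr⟩ := exists_transporter A σ x y
  obtain ⟨φ⟩ := (hTr Ω).2 ⟨u, hu⟩
  have hnt : Nontrivial Tr := (φ : Tr →+* Ω).domain_nontrivial
  obtain ⟨ψ⟩ := exists_point_of_finiteType K Tr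
  obtain ⟨h, hh⟩ := (hTr K).1 ⟨ψ⟩
  have hx : bc K x = x := by
    ext f
    rfl
  have hy : bc K y = y := by
    ext f
    rfl
  rw [hx, hy] at hh
  exact ⟨h, hh⟩

end Pool.Agent.Lib.MP_666dc0_nt.LD
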