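import Pool.Agent.Lib.MP_666dc0_nt.Mg.G022
import Pool.Agent.Lib.MP_666dc0_nt.LD.DDefs

open TensorProduct Coalgebra
open scoped TensorProduct Matrix

namespace Pool.Agent.Lib.MP_666dc0_nt.LD

variable {O : Type} [CommRing O] [HopfAlgebra ℚ O] {Γ : Type} [Group Γ] {A : HopfAction Γ O} {n : ℕ}

private theorem D8a_one {U : Type} [AddCommGroup U] [Module ℚ U] {d : O →ₗ[ℚ] U} (hd : IsDer d) :
    d 1 = 0 := by
  have h := hd 1 1
  rw [mul_one, Bialgebra.counit_one, one_smul] at h
  exact left_eq_add.mp h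

private theorem D8a_algebraMap {U : Type} [AddCommGroup U] [Module ℚ U] {d : O →ₗ[ℚ] U}
    (hd : IsDer d) (r : ℚ) : d (algebraMap ℚ O r) = 0 := by
  rw [Algebra.algebraMap_eq_smul_one, map_smul, D8a_one hd, smul_zero]

private theorem D8a_mem {U : Type} [AddCommGroup U] [Module ℚ U] {d : O →ₗ[ℚ] U}
    (hd : IsDer d) (W : Submodule ℚ U) (Φ : Set O) (hΦ : Algebra.adjoin ℚ Φ = ⊤)
    (h : ∀ f ∈ Φ, d f ∈ W) (f : O) : d f ∈ W := by
  have hf : f ∈ Algebra.adjoin ℚ Φ := by
    rw [hΦ]
    exact Algebra.mem_top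
  induction hf using Algebra.adjoin_induction with
  | mem x hx => exact h x hx
  | algebraMap r =>
    rw [D8a_algebraMap hd]
    exact W.zero_mem
  | add x y _ _ hx hy =>
    rw [map_add]
    exact W.add_mem hx hy
  | mul x y _ _ hx hy =>
    rw [hd]
    exact W.add_mem (W.smul_mem _ hy) (W.smul_mem _ hx)

/-- `d 1 = 0` (`d (1 * 1) = d 1 + d 1`), so the kernel of `d` together with... : the set of `f` with `d f = 0` is a subalgebra of `O` (products: `IsDer`; constants). It contains the `ρ.a i j` by hypothesis. It contains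
`antipode (ρ.a i j)`: apply `d` to `∑ k, ρ.a i k * antipode (ρ.a k j) = algebraMap (if i = j then 1 else 0)` (`HopfAlgebra.mul_antipode_lTensor_comul_apply` with `ρ.comul_a`;
`ρ.gm_mul_inv` for the universal point), `counit (ρ.a i k) = δ_ik` and `d (ρ.a i k) = 0` give `d (antipode (ρ.a i j)) = 0`. By faithfulness the subalgebra is everything. -/
theorem IsDer.eq_zero (ρ : MatRep A n) (hρ : IG.Faithful ρ) {U : Type} [AddCommGroup U] [Module ℚ U]
    {d : O →ₗ[ℚ] U} (hd : IsDer d) (h : dm ρ d = 0) : d = 0 := by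
  have ha : ∀ i j, d (ρ.a i j) = 0 := fun i j => congrFun (congrFun h i) j
  have hS : ∀ i j, d (HopfAlgebra.antipode ℚ (ρ.a i j)) = 0 := by
    intro i j
    have h1 := HopfAlgebra.mul_antipode_lTensor_comul_apply (R := ℚ) (ρ.a i j)
    rw [ρ.comul_a, map_sum, map_sum] at h1
    simp only [LinearMap.lTensor_tmul, LinearMap.mul'_apply] at h1
    have h2 := congrArg d h1
    rw [D8a_algebraMap hd, map_sum] at h2
    have h3 : ∀ k, d (ρ.a i k * HopfAlgebra.antipode ℚ (ρ.a k j)) =
        if i = k then d (HopfAlgebra.antipode ℚ (ρ.a k j)) else 0 := by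
      intro k
      rw [hd, ha, smul_zero, add_zero, ρ.counit_a]
      split_ifs with hik
      · rw [one_smul]
      · rw [zero_smul]
    rw [Finset.sum_congr rfl fun k _ => h3 k, Finset.sum_ite_eq] at h2
    simpa using h2
  refine LinearMap.ext fun f => ?_
  have h1 := D8a_mem hd ⊥ _ hρ (fun f hf => ?_) f
  · rw [Submodule.mem_bot] at h1
    rw [h1, LinearMap.zero_apply]
  · rw [Submodule.mem_bot]
    rcases hf with ⟨i, j, rfl⟩ | ⟨i, j, rfl⟩
    · exact ha i j
    · exact hS i j

/-- A derivation vanishing on generators: the image of a derivation is contained in every `ℚ`-subspace containing the finitely many values on a finite generating set of the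
algebra `O`. (The set of `f` with `d f ∈ W` is a subalgebra: `IsDer`.) -/
theorem IsDer.mem_of_generators {U : Type} [AddCommGroup U] [Module ℚ U] {d : O →ₗ[ℚ] U}
    (hd : IsDer d) (W : Submodule ℚ U) (Φ : Set O) (hΦ : Algebra.adjoin ℚ Φ = ⊤)
    (h : ∀ f ∈ Φ, d f ∈ W) (f : O) : d f ∈ W :=
  D8a_mem hd W Φ hΦ h f

end Pool.Agent.Lib.MP_666dc0_nt.LD
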