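import Pool.Agent.Lib.MP_666dc0_nt.LD.DDefs
import Pool.Agent.Lib.MP_666dc0_nt.RepEval

open TensorProduct Coalgebra
open scoped TensorProduct Matrix

namespace Pool.Agent.Lib.MP_666dc0_nt.LD

variable {O : Type} [CommRing O] [HopfAlgebra ℚ O] {Γ : Type} [Group Γ] {A : HopfAction Γ O} {n : ℕ}

private theorem D8b_map {n : ℕ} {K : Type} [Field K] (M N : Matrix (Fin n) (Fin n) K)
    (G : Matrix (Fin n) (Fin n) (TrivSqZeroExt K K)) (i j : Fin n) :
    ((M.map (TrivSqZeroExt.inl : K → TrivSqZeroExt K K) * G *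
      N.map (TrivSqZeroExt.inl : K → TrivSqZeroExt K K)) i j).snd =
      (M * G.map TrivSqZeroExt.snd * N) i j := by
  simp only [Matrix.mul_apply, Matrix.map_apply, TrivSqZeroExt.snd_sum, TrivSqZeroExt.snd_mul,
    TrivSqZeroExt.fst_inl, TrivSqZeroExt.snd_inl, smul_zero, zero_add, add_zero, mul_zero,
    TrivSqZeroExt.fst_mul, TrivSqZeroExt.fst_sum, smul_eq_mul, MulOpposite.smul_eq_mul_unop,
    MulOpposite.unop_op]

/-- The adjoint action. Over the dual numbers `K[ε]` (`DualNumber K = TrivSqZeroExt K K`, a commutative ring, a `ℚ`-algebra) the derivation `d` gives the point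
`1 + ε d`: `f ↦ algebraMap (counit f) + ε d f` (`TrivSqZeroExt.inl`/`inr`; multiplicative by `IsDer`; build the `AlgHom` by `AlgHom.ofLinearMap` or directly). Conversely a point `g` of `Ĝ` over `K[ε]` with
`fst (g f) = counit f` gives the derivation `f ↦ snd (g f)`. Conjugate `1 + ε d` by (the base change of) `z`: the left component of `z (1 + ε d) z⁻¹` reduces to `1` (map along `fst : K[ε] →ₐ K`), so it is
`1 + ε d'`. Apply `ρ.ev`: `ρ.gm (1 + ε d') = ρ.ev z * ρ.gm (1 + ε d) * ρ.ev z⁻¹` and compare the `snd` parts of the entries. -/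
theorem IsDer.exists_conj (ρ : MatRep A n) {K : Type} [Field K] [Algebra ℚ K] (z : A.LGroup K)
    {d : O →ₗ[ℚ] K} (hd : IsDer d) :
    ∃ d' : O →ₗ[ℚ] K, IsDer d' ∧ dm ρ d' = ρ.ev K z * dm ρ d * ρ.ev K z⁻¹ := by
  let φ : K →ₐ[ℚ] TrivSqZeroExt K K := TrivSqZeroExt.inlAlgHom ℚ K K
  let π : TrivSqZeroExt K K →ₐ[ℚ] K := TrivSqZeroExt.fstHom ℚ K K
  have hd' : ∀ f g : O, d (f * g) = algebraMap ℚ K (counit (R := ℚ) f) * d g +
      algebraMap ℚ K (counit (R := ℚ) g) * d f := by
    intro f g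
    rw [hd f g, Algebra.smul_def, Algebra.smul_def]
  have hmul : ∀ f g : O,
      (TrivSqZeroExt.inl (algebraMap ℚ K (counit (R := ℚ) (f * g))) + TrivSqZeroExt.inr (d (f * g)) :
        TrivSqZeroExt K K) =
      (TrivSqZeroExt.inl (algebraMap ℚ K (counit (R := ℚ) f)) + TrivSqZeroExt.inr (d f)) *
        (TrivSqZeroExt.inl (algebraMap ℚ K (counit (R := ℚ) g)) + TrivSqZeroExt.inr (d g)) := by
    intro f g
    refine TrivSqZeroExt.ext ?_ ?_
    · simp only [TrivSqZeroExt.fst_add, TrivSqZeroExt.fst_inl, TrivSqZeroExt.fst_inr,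
        TrivSqZeroExt.fst_mul, add_zero, Bialgebra.counit_mul, map_mul]
    · simp only [TrivSqZeroExt.snd_add, TrivSqZeroExt.snd_inl, TrivSqZeroExt.snd_inr,
        TrivSqZeroExt.snd_mul, TrivSqZeroExt.fst_add, TrivSqZeroExt.fst_inl,
        TrivSqZeroExt.fst_inr, zero_add, add_zero, hd' f g, smul_eq_mul,
        MulOpposite.smul_eq_mul_unop, MulOpposite.unop_op]
      ring
  have hd1 : d 1 = 0 := by
    have h1 := hd 1 1
    rw [one_mul, Bialgebra.counit_one, one_smul] at h1
    exact left_eq_add.1 h1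
  let gd : Pts O (TrivSqZeroExt K K) := ⟨AlgHom.ofLinearMap
    { toFun := fun f => TrivSqZeroExt.inl (algebraMap ℚ K (counit (R := ℚ) f)) +
        TrivSqZeroExt.inr (d f)
      map_add' := fun f g => by
        simp only [map_add, TrivSqZeroExt.inl_add, TrivSqZeroExt.inr_add]
        abel
      map_smul' := fun r f => by
        have e1 : counit (R := ℚ) (r • f) = r * counit (R := ℚ) f := by
          rw [map_smul, smul_eq_mul]
        have e2 : d (r • f) = r • d f := map_smul d r f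
        rw [RingHom.id_apply]
        refine TrivSqZeroExt.ext ?_ ?_
        · rw [TrivSqZeroExt.fst_smul, TrivSqZeroExt.fst_add, TrivSqZeroExt.fst_add,
            TrivSqZeroExt.fst_inl, TrivSqZeroExt.fst_inl, TrivSqZeroExt.fst_inr,
            TrivSqZeroExt.fst_inr, add_zero, add_zero, e1, map_mul, Algebra.smul_def]
        · rw [TrivSqZeroExt.snd_smul, TrivSqZeroExt.snd_add, TrivSqZeroExt.snd_add,
            TrivSqZeroExt.snd_inl, TrivSqZeroExt.snd_inl, TrivSqZeroExt.snd_inr,
            TrivSqZeroExt.snd_inr, zero_add, zero_add, e2] }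
    (by
      show TrivSqZeroExt.inl (algebraMap ℚ K (counit (R := ℚ) (1 : O))) +
        TrivSqZeroExt.inr (d 1) = 1
      rw [hd1, Bialgebra.counit_one, map_one, TrivSqZeroExt.inr_zero, add_zero,
        TrivSqZeroExt.inl_one])
    (fun f g => hmul f g)⟩
  have hgd : ∀ f, gd.hom f = TrivSqZeroExt.inl (algebraMap ℚ K (counit (R := ℚ) f)) +
      TrivSqZeroExt.inr (d f) := fun f => rfl
  obtain ⟨h, hh⟩ : ∃ h : A.LGroup (TrivSqZeroExt K K), h = A.mapL φ z * SemidirectProduct.inl gd *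
    A.mapL φ z⁻¹ := ⟨_, rfl⟩
  have hr : h.right = 1 := by
    rw [hh]
    simp
  have hπφ : ∀ x : A.LGroup K, A.mapL π (A.mapL φ x) = x := by
    intro x
    refine SemidirectProduct.ext ?_ rfl
    ext f
    rfl
  have hπgd : A.mapL π (SemidirectProduct.inl gd) = 1 := by
    refine SemidirectProduct.ext ?_ rfl
    ext f
    show (gd.hom f).fst = algebraMap ℚ K (counit (R := ℚ) f)
    rw [hgd, TrivSqZeroExt.fst_add, TrivSqZeroExt.fst_inl, TrivSqZeroExt.fst_inr, add_zero]
  have hπh : A.mapL π h = 1 := by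
    rw [hh, map_mul, map_mul, hπφ, hπφ, hπgd, mul_one, mul_inv_cancel]
  have hfst : ∀ f, (h.left.hom f).fst = algebraMap ℚ K (counit (R := ℚ) f) := by
    intro f
    exact congrArg (fun x : A.LGroup K => x.left.hom f) hπh
  refine ⟨{ toFun := fun f => (h.left.hom f).snd
            map_add' := fun f g => by simp
            map_smul' := fun r f => by simp }, ?_, ?_⟩
  · intro f g
    show (h.left.hom (f * g)).snd = counit (R := ℚ) f • (h.left.hom g).snd +
      counit (R := ℚ) g • (h.left.hom f).snd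
    have hs : ∀ (q : ℚ) (x : K), q • x = algebraMap ℚ K q * x := fun q x => Algebra.smul_def q x
    rw [map_mul, TrivSqZeroExt.snd_mul, hfst, hfst, hs, hs]
    simp only [smul_eq_mul, MulOpposite.smul_eq_mul_unop, MulOpposite.unop_op]
    ring
  · have h1 : ρ.ev _ h = ρ.gm h.left := by
      rw [MatRep.ev_apply, hr, map_one, mul_one]
    have h2 : ρ.ev _ (SemidirectProduct.inl gd : A.LGroup (TrivSqZeroExt K K)) = ρ.gm gd := by
      rw [MatRep.ev_apply, SemidirectProduct.right_inl, map_one, mul_one,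
        SemidirectProduct.left_inl]
    have h3 : ρ.gm h.left = (ρ.ev K z).map (TrivSqZeroExt.inl : K → TrivSqZeroExt K K) *
        ρ.gm gd * (ρ.ev K z⁻¹).map (TrivSqZeroExt.inl : K → TrivSqZeroExt K K) := by
      rw [← h1, hh, map_mul, map_mul, h2, MatRep.ev_mapL, MatRep.ev_mapL]
      rfl
    have h4 : (ρ.gm gd).map TrivSqZeroExt.snd = dm ρ d := by
      ext i j
      show (gd.hom (ρ.a i j)).snd = d (ρ.a i j)
      rw [hgd, TrivSqZeroExt.snd_add, TrivSqZeroExt.snd_inl, TrivSqZeroExt.snd_inr, zero_add]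
    ext i j
    show (ρ.gm h.left i j).snd = _
    rw [h3, D8b_map, h4]

end Pool.Agent.Lib.MP_666dc0_nt.LD
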