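import Mathlib

namespace Pool.Agent.Lib.MP_666dc0_nt.LD

private lemma D8c_aeval_right {K : Type} [Field K] {n : ℕ} (Z : Matrix (Fin n) (Fin n) K)
    (q : Polynomial K) :
    Polynomial.aeval (LinearMap.mulRight K Z) q = LinearMap.mulRight K (Polynomial.aeval Z q) := by
  induction q using Polynomial.induction_on with
  | C a =>
    refine LinearMap.ext fun M => ?_
    rw [Polynomial.aeval_C, Polynomial.aeval_C, LinearMap.mulRight_apply,
      Module.algebraMap_end_apply, ← Algebra.commutes, ← Algebra.smul_def]
  | add p q hp hq =>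
    rw [map_add, map_add, hp, hq]
    refine LinearMap.ext fun M => ?_
    rw [LinearMap.add_apply, LinearMap.mulRight_apply, LinearMap.mulRight_apply,
      LinearMap.mulRight_apply, mul_add]
  | monomial m a h =>
    have h1 : (Polynomial.C a * Polynomial.X ^ (m + 1) : Polynomial K) =
        Polynomial.C a * Polynomial.X ^ m * Polynomial.X := by
      rw [pow_succ, mul_assoc]
    rw [h1, map_mul (Polynomial.aeval (LinearMap.mulRight K Z)) (Polynomial.C a * Polynomial.X ^ m),
      map_mul (Polynomial.aeval Z) (Polynomial.C a * Polynomial.X ^ m), h, Polynomial.aeval_X,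
      Polynomial.aeval_X]
    refine LinearMap.ext fun M => ?_
    have h2 : Z * Polynomial.aeval Z (Polynomial.C a * Polynomial.X ^ m : Polynomial K) =
        Polynomial.aeval Z (Polynomial.C a * Polynomial.X ^ m : Polynomial K) * Z := by
      have h3 := congrArg (Polynomial.aeval Z)
        (mul_comm (Polynomial.X : Polynomial K) (Polynomial.C a * Polynomial.X ^ m))
      rwa [map_mul, map_mul (Polynomial.aeval Z) (Polynomial.C a * Polynomial.X ^ m),
        Polynomial.aeval_X] at h3
    rw [Module.End.mul_apply, LinearMap.mulRight_apply, LinearMap.mulRight_apply,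
      LinearMap.mulRight_apply, mul_assoc, h2]

/-- Linear algebra. `T : M ↦ Z M Z'` is the product of the commuting endomorphisms `M ↦ Z M` and `M ↦ M Z'` of the space of matrices; both are semisimple: `p` kills `Z`, so `p` kills left multiplication by `Z`
(`Module.End.isSemisimple_of_squarefree_aeval_eq_zero`); `Z'` is a polynomial in.. its inverse; the minimal polynomial of `Z` is squarefree, so `Z` is semisimple, hence so is `Z'`
(for example: right multiplication by `Z'` is the inverse of the semisimple `M ↦ M Z`, which has the same invariant subspaces in finite dimension; or `Z'` is killed by the squarefree reversed polynomial of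
`p / X^k`; or: `Z' = q(Z)` for a polynomial `q` and `Module.End.IsSemisimple.aeval`). `Module.End.IsSemisimple.mul_of_commute` (the field `K` is perfect: characteristic zero). `W` is stable under `T`, and `T` restricted to `W` is semisimple
(`Module.End.IsSemisimple.restrict`), so `ker (1 - T|W)` has a `T`-stable complement `C` in `W`, on which `1 - T` is injective, hence surjective (finite dimension): every
`M ∈ W` is `c + (b' - T b')` with `c ∈ W`, `T c = c`, `b' ∈ C`; put `b = -b'`. `Z c Z' = c` gives `Z c = c Z`. -/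
theorem exists_decomp {K : Type} [Field K] [CharZero K] {n : ℕ} (Z Z' : Matrix (Fin n) (Fin n) K)
    (h1 : Z * Z' = 1) (h2 : Z' * Z = 1) (p : Polynomial K) (hp : Squarefree p)
    (hpZ : Polynomial.aeval Z p = 0) (W : Submodule K (Matrix (Fin n) (Fin n) K))
    (hW : ∀ M ∈ W, Z * M * Z' ∈ W) (M : Matrix (Fin n) (Fin n) K) (hM : M ∈ W) :
    ∃ c ∈ W, ∃ b ∈ W, M = c + (Z * b * Z' - b) ∧ Z * c = c * Z := by
  -- `Z'` is a polynomial in `Z`
  obtain ⟨q, hq⟩ : ∃ q : Polynomial K, Polynomial.aeval Z q = Z' := by
    have hc : Z.charpoly.coeff 0 ≠ 0 := by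
      intro h0
      have h3 : Z.det = 0 := by
        rw [Matrix.det_eq_sign_charpoly_coeff, h0, mul_zero]
      have h4 := congrArg Matrix.det h1
      rw [Matrix.det_mul, h3, zero_mul, Matrix.det_one] at h4
      exact zero_ne_one h4
    refine ⟨Polynomial.C (-(Z.charpoly.coeff 0)⁻¹) * Z.charpoly.divX, ?_⟩
    have h3 := Z.aeval_self_charpoly
    rw [← Polynomial.divX_mul_X_add Z.charpoly, map_add, map_mul, Polynomial.aeval_X,
      Polynomial.aeval_C] at h3
    have h4 : Polynomial.aeval Z Z.charpoly.divX =
        - (Z.charpoly.coeff 0 • Z') := by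
      have h5 := congrArg (· * Z') h3
      simp only [add_mul, zero_mul, mul_assoc, h1, mul_one] at h5
      rw [← Algebra.smul_def] at h5
      exact eq_neg_of_add_eq_zero_left h5
    rw [map_mul, Polynomial.aeval_C, h4, ← Algebra.smul_def, smul_neg, smul_smul, ← neg_smul,
      ← neg_mul, neg_neg, inv_mul_cancel₀ hc, one_smul]
  have hL : Module.End.IsSemisimple (LinearMap.mulLeft K Z) := by
    refine Module.End.isSemisimple_of_squarefree_aeval_eq_zero hp ?_
    have h3 := Polynomial.aeval_algHom_apply (Algebra.lmul K (Matrix (Fin n) (Fin n) K)) Z p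
    rw [hpZ, map_zero] at h3
    exact h3
  have hR : Module.End.IsSemisimple (LinearMap.mulRight K Z) := by
    refine Module.End.isSemisimple_of_squarefree_aeval_eq_zero hp ?_
    rw [D8c_aeval_right, hpZ]
    refine LinearMap.ext fun M => ?_
    rw [LinearMap.mulRight_apply, mul_zero, LinearMap.zero_apply]
  have hR' : Module.End.IsSemisimple (LinearMap.mulRight K Z') := by
    have h3 := Module.End.IsSemisimple.aeval hR q
    rwa [D8c_aeval_right, hq] at h3
  have hT : Module.End.IsSemisimple (LinearMap.mulLeft K Z * LinearMap.mulRight K Z') :=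
    Module.End.IsSemisimple.mul_of_commute (LinearMap.commute_mulLeft_right Z Z') hL hR'
  have hTa : ∀ X, (LinearMap.mulLeft K Z * LinearMap.mulRight K Z') X = Z * X * Z' := fun X => by
    rw [Module.End.mul_apply, LinearMap.mulRight_apply, LinearMap.mulLeft_apply, mul_assoc]
  have hmaps : ∀ X ∈ W, (LinearMap.mulLeft K Z * LinearMap.mulRight K Z') X ∈ W := fun X hX => by
    rw [hTa]
    exact hW X hX
  have hS := Module.End.IsSemisimple.restrict (p := W) hmaps hT
  set S : Module.End K W := (LinearMap.mulLeft K Z * LinearMap.mulRight K Z').restrict hmaps with hSdef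
  have hSa : ∀ X : W, ((S X : W) : Matrix (Fin n) (Fin n) K) = Z * X * Z' := fun X => hTa X.1
  rw [Module.End.isSemisimple_iff] at hS
  obtain ⟨C, hC, hcompl⟩ := hS (LinearMap.ker (S - 1)) (by
    rw [Module.End.mem_invtSubmodule]
    intro X hX
    rw [Submodule.mem_comap, LinearMap.mem_ker]
    rw [LinearMap.mem_ker, LinearMap.sub_apply, Module.End.one_apply, sub_eq_zero] at hX
    rw [hX, LinearMap.sub_apply, Module.End.one_apply, hX, sub_self])
  have hC' : ∀ X ∈ C, S X ∈ C := fun X hX => hC hX
  have hg : ∀ X ∈ C, (S - 1) X ∈ C := fun X hX => by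
    rw [LinearMap.sub_apply, Module.End.one_apply]
    exact C.sub_mem (hC' X hX) hX
  let g : C →ₗ[K] C := LinearMap.restrict (S - 1) hg
  have hinj : Function.Injective g := by
    intro X Y hXY
    have h3 : (S - 1) X.1 = (S - 1) Y.1 := congrArg Subtype.val hXY
    have h4 : X.1 - Y.1 ∈ LinearMap.ker (S - 1) ⊓ C := by
      refine ⟨?_, C.sub_mem X.2 Y.2⟩
      change (S - 1) (X.1 - Y.1) = 0
      rw [map_sub, h3, sub_self]
    rw [hcompl.inf_eq_bot] at h4
    exact Subtype.ext (sub_eq_zero.1 ((Submodule.mem_bot K).1 h4))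
  have : FiniteDimensional K C := inferInstance
  have hsurj : Function.Surjective g := (@LinearMap.injective_iff_surjective K C _ _ _ _ g).1 hinj
  have h5 : (⟨M, hM⟩ : W) ∈ LinearMap.ker (S - 1) ⊔ C := by
    rw [hcompl.sup_eq_top]
    trivial
  obtain ⟨c, hc, c', hc', hsum⟩ := Submodule.mem_sup.1 h5
  obtain ⟨b, hb⟩ := hsurj ⟨c', hc'⟩
  have hb' : (S - 1) b.1 = c' := congrArg Subtype.val hb
  refine ⟨c.1, c.2, b.1.1, b.1.2, ?_, ?_⟩
  · have h6 : M = c.1 + c'.1 := (congrArg Subtype.val hsum).symm
    rw [h6, ← hb', LinearMap.sub_apply, Module.End.one_apply]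
    rw [Submodule.coe_sub, hSa]
  · rw [LinearMap.mem_ker, LinearMap.sub_apply, Module.End.one_apply, sub_eq_zero] at hc
    have h6 := congrArg Subtype.val hc
    rw [hSa] at h6
    have h7 : Z * c.1 * Z' * Z = c.1 * Z := by rw [h6]
    rwa [mul_assoc, h2, mul_one] at h7

end Pool.Agent.Lib.MP_666dc0_nt.LD
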