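import Pool.Agent.Lib.MP_666dc0_nt.LD.DDefs

open TensorProduct Coalgebra
open scoped TensorProduct Matrix

namespace Pool.Agent.Lib.MP_666dc0_nt.LD

variable {O : Type} [CommRing O] [HopfAlgebra ℚ O]

section aux

variable {𝒜 : Type} [CommRing 𝒜] [Algebra ℚ 𝒜]

/-- The vector field `f ↦ ∑ e f₁ ⊗ f₂`. -/
private noncomputable def D8dT (e : O →ₗ[ℚ] 𝒜) : O →ₗ[ℚ] 𝒜 ⊗[ℚ] O :=
  (e.rTensor O) ∘ₗ (comul (R := ℚ) (A := O))

private noncomputable def D8dD (e : O →ₗ[ℚ] 𝒜) : (𝒜 ⊗[ℚ] O) →ₗ[𝒜] (𝒜 ⊗[ℚ] O) :=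
  (D8dT e).liftBaseChange 𝒜

private noncomputable def D8dε : O →ₗ[ℚ] 𝒜 := (Algebra.linearMap ℚ 𝒜) ∘ₗ (counit (R := ℚ) (A := O))

private noncomputable def D8dψ : (𝒜 ⊗[ℚ] O) →ₐ[𝒜] 𝒜 :=
  Algebra.TensorProduct.lift (AlgHom.id 𝒜 𝒜) ((Algebra.ofId ℚ 𝒜).comp (Bialgebra.counitAlgHom ℚ O))
    (fun _ _ => Commute.all _ _)

private lemma D8dψ_tmul (r : 𝒜) (f : O) : D8dψ (r ⊗ₜ[ℚ] f) = r * algebraMap ℚ 𝒜 (counit (R := ℚ) f) := by
  unfold D8dψ
  rw [Algebra.TensorProduct.lift_tmul]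
  rfl

private lemma D8dD_tmul (e : O →ₗ[ℚ] 𝒜) (r : 𝒜) (f : O) : D8dD e (r ⊗ₜ[ℚ] f) = r • D8dT e f := by
  unfold D8dD
  rw [LinearMap.liftBaseChange_tmul]

private lemma D8d_mul_aux (e : O →ₗ[ℚ] 𝒜)
    (he : ∀ f g : O, e (f * g) = counit (R := ℚ) f • e g + counit (R := ℚ) g • e f)
    (X Y : O ⊗[ℚ] O) :
    (e.rTensor O) (X * Y) = (D8dε.rTensor O) X * (e.rTensor O) Y +
      (e.rTensor O) X * ((D8dε : O →ₗ[ℚ] 𝒜).rTensor O) Y := by
  induction X using TensorProduct.induction_on with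
  | zero => simp
  | add X X' h h' => rw [add_mul, map_add, h, h', map_add, map_add, add_mul, add_mul]; abel
  | tmul x x' =>
    induction Y using TensorProduct.induction_on with
    | zero => simp
    | add Y Y' h h' => rw [mul_add, map_add, h, h', map_add, map_add, mul_add, mul_add]; abel
    | tmul y y' =>
      rw [Algebra.TensorProduct.tmul_mul_tmul]
      simp only [LinearMap.rTensor_tmul]
      rw [Algebra.TensorProduct.tmul_mul_tmul, Algebra.TensorProduct.tmul_mul_tmul, he,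
        TensorProduct.add_tmul]
      congr 1
      · congr 1
        unfold D8dε
        rw [LinearMap.comp_apply, Algebra.linearMap_apply, Algebra.smul_def]
      · congr 1
        unfold D8dε
        rw [LinearMap.comp_apply, Algebra.linearMap_apply, Algebra.smul_def, mul_comm]

private lemma D8d_ε (f : O) : ((D8dε : O →ₗ[ℚ] 𝒜).rTensor O) (comul (R := ℚ) f) = 1 ⊗ₜ f := by
  unfold D8dε
  rw [LinearMap.rTensor_comp, LinearMap.comp_apply, rTensor_counit_comul, LinearMap.rTensor_tmul,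
    Algebra.linearMap_apply, map_one]

private lemma D8dT_mul (e : O →ₗ[ℚ] 𝒜)
    (he : ∀ f g : O, e (f * g) = counit (R := ℚ) f • e g + counit (R := ℚ) g • e f) (f g : O) :
    D8dT e (f * g) = (1 ⊗ₜ f) * D8dT e g + D8dT e f * (1 ⊗ₜ g) := by
  unfold D8dT
  rw [LinearMap.comp_apply, LinearMap.comp_apply, LinearMap.comp_apply, Bialgebra.comul_mul,
    D8d_mul_aux e he, D8d_ε, D8d_ε]

private lemma D8dD_der (e : O →ₗ[ℚ] 𝒜)
    (he : ∀ f g : O, e (f * g) = counit (R := ℚ) f • e g + counit (R := ℚ) g • e f)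
    (x y : 𝒜 ⊗[ℚ] O) : D8dD e (x * y) = x * D8dD e y + D8dD e x * y := by
  induction x using TensorProduct.induction_on with
  | zero => simp
  | add X X' h h' => rw [add_mul, map_add, h, h', map_add, add_mul, add_mul]; abel
  | tmul r f =>
    induction y using TensorProduct.induction_on with
    | zero => simp
    | add Y Y' h h' => rw [mul_add, map_add, h, h', map_add, mul_add, mul_add]; abel
    | tmul s g =>
      rw [Algebra.TensorProduct.tmul_mul_tmul, D8dD_tmul, D8dD_tmul, D8dD_tmul, D8dT_mul e he]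
      have h1 : (r ⊗ₜ[ℚ] f : 𝒜 ⊗[ℚ] O) = r • ((1 : 𝒜) ⊗ₜ[ℚ] f) := by
        rw [TensorProduct.smul_tmul', smul_eq_mul, mul_one]
      have h2 : (s ⊗ₜ[ℚ] g : 𝒜 ⊗[ℚ] O) = s • ((1 : 𝒜) ⊗ₜ[ℚ] g) := by
        rw [TensorProduct.smul_tmul', smul_eq_mul, mul_one]
      rw [h1, h2, smul_mul_smul_comm, smul_mul_smul_comm, smul_add]

private lemma D8dψ_T (e : O →ₗ[ℚ] 𝒜) (f : O) : D8dψ (D8dT e f) = e f := by
  have h1 : ∀ X : O ⊗[ℚ] O, D8dψ ((e.rTensor O) X) =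
      e (TensorProduct.rid ℚ O ((counit (R := ℚ) (A := O)).lTensor O X)) := by
    intro X
    induction X using TensorProduct.induction_on with
    | zero => simp
    | add X X' h h' => rw [map_add, map_add, h, h', map_add, map_add, map_add]
    | tmul x x' =>
      rw [LinearMap.rTensor_tmul, D8dψ_tmul, LinearMap.lTensor_tmul, TensorProduct.rid_tmul,
        map_smul, Algebra.smul_def, mul_comm]
  unfold D8dT
  rw [LinearMap.comp_apply, h1, lTensor_counit_comul, TensorProduct.rid_tmul, one_smul]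

private lemma D8d_exp (e : O →ₗ[ℚ] 𝒜)
    (he : ∀ f g : O, e (f * g) = counit (R := ℚ) f • e g + counit (R := ℚ) g • e f)
    (a : 𝒜) (ha : IsNilpotent a) :
    ∃ w : Pts O 𝒜, ∀ f : O, ∃ c : 𝒜, w.hom f =
      algebraMap ℚ 𝒜 (counit (R := ℚ) f) + a * e f + a ^ 2 * c := by
  obtain ⟨N, hN⟩ := ha
  obtain ⟨D, hD⟩ : ∃ D : Module.End 𝒜 (𝒜 ⊗[ℚ] O), D = D8dD e := ⟨_, rfl⟩
  have hpow : ∀ i : ℕ, (a • D) ^ i = a ^ i • D ^ i := fun i => smul_pow a D i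
  have hnilN : (a • D) ^ (N + 2) = 0 := by
    rw [hpow, pow_add, hN, zero_mul, zero_smul]
  have hnil : IsNilpotent (a • D) := ⟨N + 2, hnilN⟩
  have hder : ∀ x y : 𝒜 ⊗[ℚ] O, (a • D) (x * y) = x * (a • D) y + (a • D) x * y := by
    intro x y
    rw [LinearMap.smul_apply, LinearMap.smul_apply, LinearMap.smul_apply, hD, D8dD_der e he,
      smul_add, mul_smul_comm, smul_mul_assoc]
  obtain ⟨E, hE⟩ : ∃ E : Module.End 𝒜 (𝒜 ⊗[ℚ] O), E = IsNilpotent.exp (a • D) := ⟨_, rfl⟩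
  have hEmul : ∀ x y : 𝒜 ⊗[ℚ] O, E (x * y) = E x * E y := by
    intro x y
    rw [hE]
    exact Module.End.exp_mul_of_derivation 𝒜 (𝒜 ⊗[ℚ] O) (a • D) hder hnil x y
  have hEsum : E = ∑ i ∈ Finset.range (N + 2), (i.factorial : ℚ)⁻¹ • ((a • D) ^ i) := by
    rw [hE]
    exact IsNilpotent.exp_eq_sum hnilN
  have hEsum2 : E = 1 + a • D + a ^ 2 • ∑ i ∈ Finset.range N,
      ((i + 2).factorial : ℚ)⁻¹ • (a ^ i • D ^ (i + 2)) := by
    rw [hEsum, Finset.sum_range_succ', Finset.sum_range_succ']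
    rw [Finset.smul_sum]
    have h1 : ∀ i ∈ Finset.range N, (((i + 1 + 1).factorial : ℚ))⁻¹ • (a • D) ^ (i + 1 + 1) =
        a ^ 2 • (((i + 2).factorial : ℚ)⁻¹ • (a ^ i • D ^ (i + 2))) := by
      intro i _
      rw [hpow, smul_comm (a ^ 2), smul_smul, ← pow_add, add_comm 2 i]
    rw [Finset.sum_congr rfl h1]
    simp only [zero_add, Nat.factorial_one, Nat.cast_one, inv_one, pow_one, one_smul,
      Nat.factorial_zero, pow_zero]
    abel
  have hD1 : D 1 = 0 := by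
    have h1 := D8dD_der e he (1 : 𝒜 ⊗[ℚ] O) 1
    rw [one_mul, one_mul, mul_one, ← hD] at h1
    simpa using h1
  have hE1 : E 1 = 1 := by
    have hDi : ∀ i : ℕ, (D ^ (i + 2)) 1 = 0 := by
      intro i
      rw [pow_succ, Module.End.mul_apply, hD1, map_zero]
    rw [hEsum2]
    simp only [LinearMap.add_apply, LinearMap.smul_apply, LinearMap.sum_apply, hD1, hDi, smul_zero,
      Finset.sum_const_zero, add_zero, Module.End.one_apply]
  refine ⟨⟨AlgHom.ofLinearMap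
    ((D8dψ (𝒜 := 𝒜) (O := O)).toLinearMap.restrictScalars ℚ ∘ₗ E.restrictScalars ℚ ∘ₗ
      (Algebra.TensorProduct.includeRight : O →ₐ[ℚ] 𝒜 ⊗[ℚ] O).toLinearMap) ?_ ?_⟩, fun f => ?_⟩
  · change D8dψ (E (1 ⊗ₜ[ℚ] (1 : O))) = 1
    rw [← Algebra.TensorProduct.one_def, hE1, map_one]
  · intro f g
    change D8dψ (E (1 ⊗ₜ[ℚ] (f * g))) = D8dψ (E (1 ⊗ₜ[ℚ] f)) * D8dψ (E (1 ⊗ₜ[ℚ] g))
    rw [← map_mul, ← hEmul, Algebra.TensorProduct.tmul_mul_tmul, one_mul]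
  · refine ⟨D8dψ ((∑ i ∈ Finset.range N,
      ((i + 2).factorial : ℚ)⁻¹ • (a ^ i • D ^ (i + 2)) : Module.End 𝒜 (𝒜 ⊗[ℚ] O)) (1 ⊗ₜ[ℚ] f)), ?_⟩
    change D8dψ (E (1 ⊗ₜ[ℚ] f)) = _
    rw [hEsum2, LinearMap.add_apply, LinearMap.add_apply, LinearMap.smul_apply,
      LinearMap.smul_apply, Module.End.one_apply, map_add, map_add, map_smul, map_smul, smul_eq_mul,
      smul_eq_mul, D8dψ_tmul, one_mul, hD, D8dD_tmul, one_smul, D8dψ_T]

end aux

/-- The exponential of `a d`, `a` nilpotent. Let `D : 𝒜 ⊗[ℚ] O → 𝒜 ⊗[ℚ] O`, `D (r ⊗ f) = ∑ (r * d f₂) ⊗ f₁` (i.e. `r • (id ⊗ d) (Δ f)`), an `𝒜`-linear derivation. `a • D` is nilpotent (`D` is `𝒜`-linear), so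
`E := IsNilpotent.exp (a • D)` is multiplicative (`Module.End.exp_mul_of_derivation` in Mathlib), and `w f := (counit) (E (1 ⊗ f))` with `𝒜 ⊗ O → 𝒜`, `r ⊗ f ↦ r * counit f`. Since
`E = 1 + a • D + a² • (...)`, `w f = counit f + a * d f + a² * (...)` (`(id ⊗ counit) (id ⊗ d) Δ f`: `rTensor_counit_comul` gives `d f`).
Alternative without Mathlib's exp: `w f = ∑_{i < N} (a^i / i!) * d^{*i} f` with the convolution powers `d^{*i}` of `d`; `d^{*i} (f g) = ∑ (i choose k) d^{*k} f * d^{*(i-k)} g` by induction. -/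
theorem exists_exp {K : Type} [Field K] [Algebra ℚ K] {𝒜 : Type} [CommRing 𝒜] [Algebra ℚ 𝒜]
    [Algebra K 𝒜] (a : 𝒜) (ha : IsNilpotent a) {d : O →ₗ[ℚ] K} (hd : IsDer d) :
    ∃ w : Pts O 𝒜, ∀ f : O, ∃ c : 𝒜, w.hom f =
      algebraMap ℚ 𝒜 (counit (R := ℚ) f) + a * algebraMap K 𝒜 (d f) + a ^ 2 * c := by
  have hst : IsScalarTower ℚ K 𝒜 := IsScalarTower.of_algebraMap_eq' (RingHom.ext_rat _ _)
  have he : ∀ f g : O, ((Algebra.linearMap K 𝒜).restrictScalars ℚ ∘ₗ d) (f * g) =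
      counit (R := ℚ) f • ((Algebra.linearMap K 𝒜).restrictScalars ℚ ∘ₗ d) g +
      counit (R := ℚ) g • ((Algebra.linearMap K 𝒜).restrictScalars ℚ ∘ₗ d) f := by
    intro f g
    rw [LinearMap.comp_apply, hd, map_add, map_smul, map_smul]
    rfl
  obtain ⟨w, hw⟩ := D8d_exp ((Algebra.linearMap K 𝒜).restrictScalars ℚ ∘ₗ d) he a ha
  exact ⟨w, fun f => hw f⟩

end Pool.Agent.Lib.MP_666dc0_nt.LD
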