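import Pool.Agent.Lib.MP_666dc0_nt.LD.D8a

open TensorProduct Coalgebra
open scoped TensorProduct Matrix

namespace Pool.Agent.Lib.MP_666dc0_nt.LD

variable {O : Type} [CommRing O] [HopfAlgebra ℚ O]

/-- First order part of a point near the unit element. `𝔫 = ker ε`, `𝒜 = K ⊕ 𝔫`. Let `U := (𝔫 ^ m) ⧸ (𝔫 ^ (m+1))` (as a quotient of `K`-modules: `(𝔫 ^ m).restrictScalars K` modulo the submodule of the elements of `𝔫 ^ (m+1)`; or
avoid the quotient: work with the `K`-linear quotient map `q : 𝒜 → 𝒜 ⧸ 𝔫 ^ (m+1)` and the subspace `q (𝔫 ^ m)`). `δ f := q (u f - counit f) ∈ q (𝔫 ^ m)` is a derivation at the unit: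
`u(fg) - ε(fg) = ε(f) δ(g) + ε(g) δ(f) + δ(f) δ(g)` and `δ(f) δ(g) ∈ 𝔫 ^ (2m) ≤ 𝔫 ^ (m+1)`. By `IsDer.mem_of_generators` (finitely many generators of `O`, `Algebra.FiniteType`) the values of `δ` are in the `K`-span `U₀` of finitely many
values, finite-dimensional over `K`. Choose a `K`-basis `q(a_l)`, `l < N`, of `U₀` (`a l ∈ 𝔫 ^ m`) and let `d l` be the `l`-th coordinate of `δ` (a `ℚ`-linear map `O → K`, a derivation at the unit since the
coordinate is `K`-linear, in particular `ℚ`-linear). Then `δ f = ∑ (d l f) • q (a l)`. (`ε` is only used for the type of `𝔫`; `m ≥ 1`.) -/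
theorem exists_first_order [Algebra.FiniteType ℚ O] {K : Type} [Field K] [Algebra ℚ K] {𝒜 : Type}
    [CommRing 𝒜] [Algebra ℚ 𝒜] [Algebra K 𝒜] (𝔫 : Ideal 𝒜) (m : ℕ) (hm : 1 ≤ m) (u : Pts O 𝒜)
    (hu : ∀ f, u.hom f - algebraMap ℚ 𝒜 (counit (R := ℚ) f) ∈ 𝔫 ^ m) :
    ∃ (q : ℕ) (a : Fin q → 𝒜) (d : Fin q → (O →ₗ[ℚ] K)), (∀ l, a l ∈ 𝔫 ^ m) ∧
      (∀ l, IsDer (d l)) ∧ ∀ f, u.hom f - algebraMap ℚ 𝒜 (counit (R := ℚ) f) -
        ∑ l, a l * algebraMap K 𝒜 (d l f) ∈ 𝔫 ^ (m + 1) := by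
  classical
  obtain ⟨I, hI⟩ : ∃ I : Ideal 𝒜, I = 𝔫 ^ (m + 1) := ⟨_, rfl⟩
  have t1 : IsScalarTower ℚ K 𝒜 := IsScalarTower.of_algebraMap_eq' (RingHom.ext_rat _ _)
  have t2 : IsScalarTower ℚ K (𝒜 ⧸ I) := IsScalarTower.of_algebraMap_eq' (RingHom.ext_rat _ _)
  let δ : O →ₗ[ℚ] 𝒜 ⧸ I := (Ideal.Quotient.mkₐ ℚ I).toLinearMap ∘ₗ
    (u.hom.toLinearMap - (Algebra.linearMap ℚ 𝒜) ∘ₗ (counit (R := ℚ) (A := O)))
  have hδ : ∀ f, δ f = Ideal.Quotient.mk I (u.hom f - algebraMap ℚ 𝒜 (counit (R := ℚ) f)) :=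
    fun f => rfl
  have hder : IsDer δ := by
    intro f g
    have h1 : (u.hom f - algebraMap ℚ 𝒜 (counit (R := ℚ) f)) *
        (u.hom g - algebraMap ℚ 𝒜 (counit (R := ℚ) g)) ∈ I := by
      have h2 := Ideal.mul_mem_mul (hu f) (hu g)
      rw [← pow_add] at h2
      rw [hI]
      exact Ideal.pow_le_pow_right (by omega) h2
    rw [hδ, hδ, hδ, Algebra.smul_def, Algebra.smul_def]
    have e1 : algebraMap ℚ (𝒜 ⧸ I) (counit (R := ℚ) f) =
        Ideal.Quotient.mk I (algebraMap ℚ 𝒜 (counit (R := ℚ) f)) := rfl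
    have e2 : algebraMap ℚ (𝒜 ⧸ I) (counit (R := ℚ) g) =
        Ideal.Quotient.mk I (algebraMap ℚ 𝒜 (counit (R := ℚ) g)) := rfl
    rw [e1, e2, ← map_mul, ← map_mul, ← map_add, Ideal.Quotient.eq]
    have e3 : u.hom (f * g) - algebraMap ℚ 𝒜 (counit (R := ℚ) (f * g)) -
        (algebraMap ℚ 𝒜 (counit (R := ℚ) f) * (u.hom g - algebraMap ℚ 𝒜 (counit (R := ℚ) g)) +
          algebraMap ℚ 𝒜 (counit (R := ℚ) g) *
            (u.hom f - algebraMap ℚ 𝒜 (counit (R := ℚ) f))) =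
        (u.hom f - algebraMap ℚ 𝒜 (counit (R := ℚ) f)) *
          (u.hom g - algebraMap ℚ 𝒜 (counit (R := ℚ) g)) := by
      rw [map_mul, Bialgebra.counit_mul, map_mul]
      ring
    rw [e3]
    exact h1
  obtain ⟨Φ, hΦ⟩ := Algebra.FiniteType.out (R := ℚ) (A := O)
  obtain ⟨U₀, hU₀⟩ : ∃ U₀ : Submodule K (𝒜 ⧸ I), U₀ = Submodule.span K (δ '' (Φ : Set O)) :=
    ⟨_, rfl⟩
  have hmem : ∀ f, δ f ∈ U₀ := by
    intro f
    have h1 := hder.mem_of_generators (U₀.restrictScalars ℚ) (Φ : Set O) hΦ (fun f hf => by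
      rw [Submodule.restrictScalars_mem, hU₀]
      exact Submodule.subset_span ⟨f, hf, rfl⟩) f
    exact h1
  have hfin : Module.Finite K U₀ := by
    rw [hU₀]
    exact Module.Finite.span_of_finite K ((Finset.finite_toSet Φ).image _)
  let b := Module.finBasis K U₀
  have hU : ∀ x ∈ U₀, ∃ a ∈ 𝔫 ^ m, Ideal.Quotient.mk I a = x := by
    intro x hx
    let S : Submodule K (𝒜 ⧸ I) := Submodule.map (Ideal.Quotient.mkₐ K I).toLinearMap
      ((𝔫 ^ m).restrictScalars K)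
    have h1 : U₀ ≤ S := by
      rw [hU₀, Submodule.span_le]
      rintro _ ⟨f, -, rfl⟩
      exact ⟨_, hu f, rfl⟩
    obtain ⟨a, ha, hax⟩ := h1 hx
    exact ⟨a, ha, hax⟩
  choose a ha hab using fun l => hU (b l) (b l).2
  let δ' : O →ₗ[ℚ] U₀ :=
    { toFun := fun f => ⟨δ f, hmem f⟩
      map_add' := fun f g => Subtype.ext (map_add δ f g)
      map_smul' := fun r f => Subtype.ext (map_smul δ r f) }
  let d : Fin (Module.finrank K U₀) → (O →ₗ[ℚ] K) := fun l =>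
    (b.coord l).restrictScalars ℚ ∘ₗ δ'
  refine ⟨_, a, d, ha, fun l f g => ?_, fun f => ?_⟩
  · have h1 : δ' (f * g) = counit (R := ℚ) f • δ' g + counit (R := ℚ) g • δ' f :=
      Subtype.ext (hder f g)
    show ((b.coord l).restrictScalars ℚ) (δ' (f * g)) = _
    rw [h1, map_add, map_smul, map_smul]
    rfl
  · rw [← hI, ← Ideal.Quotient.eq_zero_iff_mem, map_sub, ← hδ, map_sum, sub_eq_zero]
    have h1 : δ f = ((∑ l, b.repr (δ' f) l • b l : U₀) : 𝒜 ⧸ I) := by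
      rw [b.sum_repr]
      rfl
    rw [h1, Submodule.coe_sum]
    refine Finset.sum_congr rfl fun l _ => ?_
    rw [map_mul, hab l, Submodule.coe_smul, Algebra.smul_def, mul_comm]
    rfl

end Pool.Agent.Lib.MP_666dc0_nt.LD
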