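import Mathlib

namespace Pool.Agent.Lib.MP_666dc0_nt.LD

private lemma D8f_taylor {K A : Type} [Field K] [Ring A] [Algebra K A] (x y : A)
    (hxy : x * y = y * x) (hy : y * y = 0) (p : Polynomial K) :
    Polynomial.aeval (x + y) p =
      Polynomial.aeval x p + Polynomial.aeval x p.derivative * y := by
  induction p using Polynomial.induction_on with
  | C a => simp
  | add p q hp hq =>
    rw [map_add, map_add, hp, hq, Polynomial.derivative_add, map_add, add_mul]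
    abel
  | monomial k a h =>
    have h1 : (Polynomial.C a * Polynomial.X ^ (k + 1) : Polynomial K) =
        Polynomial.C a * Polynomial.X ^ k * Polynomial.X := by
      rw [pow_succ, mul_assoc]
    rw [h1]
    generalize Polynomial.C a * Polynomial.X ^ k = r at h ⊢
    rw [map_mul, h, Polynomial.aeval_X, map_mul, Polynomial.aeval_X, Polynomial.derivative_mul,
      Polynomial.derivative_X, mul_one, map_add, map_mul, Polynomial.aeval_X]
    have h2 : Polynomial.aeval x r.derivative * y * (x + y) =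
        Polynomial.aeval x r.derivative * x * y := by
      rw [mul_add, mul_assoc, ← hxy, mul_assoc _ y y, hy, mul_zero, add_zero, mul_assoc]
    rw [add_mul, h2, mul_add]
    rw [add_mul]
    abel

/-- The commuting part vanishes, matrix form. `X = (1 + N) Z + E` over `𝒜`, `N` has entries in `𝔫 ^ m`, `m ≥ 1`, `E` in `𝔫 ^ (m+1)`, `N` commutes with `Z`, and a squarefree polynomial `p` kills `X` and `Z`. Then `N` has entries in `𝔫 ^ (m+1)`.
In the ring `𝒜̄ = 𝒜 ⧸ 𝔫 ^ (m+1)`: `X̄ = Z̄ + N̄ Z̄`, `N̄² = 0` (entries in `𝔫 ^ (2m)`), all commute, so `0 = p(X̄) = p(Z̄) + p'(Z̄) N̄ Z̄` (`Polynomial.aeval_add_of_sq_eq_zero` for commuting elements or `Polynomial.binomExpansion` in the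
commutative subalgebra; e.g. by linearity check `p = X^k`: `(Z + NZ)^k = Z^k + k Z^(k-1) N Z`), `p(Z̄) = 0`; `p` is separable (characteristic zero), `a p + b p' = 1` gives `b(Z) p'(Z) = 1`, so `N̄ Z̄ = 0`, and `Z̄` is invertible. -/
theorem entries_mem_of_commute {K : Type} [Field K] [CharZero K] {𝒜 : Type} [CommRing 𝒜]
    [Algebra K 𝒜] (𝔫 : Ideal 𝒜) (m : ℕ) (hm : 1 ≤ m) {n : ℕ} (Z Z' : Matrix (Fin n) (Fin n) K)
    (h1 : Z * Z' = 1) (p : Polynomial K) (hp : Squarefree p) (hpZ : Polynomial.aeval Z p = 0)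
    (N X : Matrix (Fin n) (Fin n) 𝒜) (hN : ∀ i j, N i j ∈ 𝔫 ^ m)
    (hNZ : N * Z.map (algebraMap K 𝒜) = Z.map (algebraMap K 𝒜) * N)
    (hX : ∀ i j, (X - (1 + N) * Z.map (algebraMap K 𝒜)) i j ∈ 𝔫 ^ (m + 1))
    (hpX : Polynomial.aeval X p = 0) (i j : Fin n) : N i j ∈ 𝔫 ^ (m + 1) := by
  let φ : 𝒜 →ₐ[K] 𝒜 ⧸ 𝔫 ^ (m + 1) := Ideal.Quotient.mkₐ K (𝔫 ^ (m + 1))
  have hφ : ∀ a : 𝒜, φ a = 0 ↔ a ∈ 𝔫 ^ (m + 1) := fun a => Ideal.Quotient.eq_zero_iff_mem
  let Φ : Matrix (Fin n) (Fin n) 𝒜 →ₐ[K] Matrix (Fin n) (Fin n) (𝒜 ⧸ 𝔫 ^ (m + 1)) := φ.mapMatrix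
  let Ψ : Matrix (Fin n) (Fin n) K →ₐ[K] Matrix (Fin n) (Fin n) 𝒜 :=
    (Algebra.ofId K 𝒜).mapMatrix
  have hΨ : Z.map (algebraMap K 𝒜) = Ψ Z := rfl
  rw [hΨ] at hNZ hX
  have hΦ : ∀ M : Matrix (Fin n) (Fin n) 𝒜, Φ M = 0 ↔ ∀ i j, M i j ∈ 𝔫 ^ (m + 1) := by
    intro M
    constructor
    · intro h i j
      rw [← hφ]
      exact congrFun (congrFun h i) j
    · intro h
      ext i j
      exact (hφ _).2 (h i j)
  have hX' : Φ X = Φ (Ψ Z) + Φ N * Φ (Ψ Z) := by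
    have h3 := (hΦ _).2 hX
    rw [map_sub, map_mul, map_add, map_one, add_mul, one_mul, sub_eq_zero] at h3
    exact h3
  have hcomm : Φ N * Φ (Ψ Z) = Φ (Ψ Z) * Φ N := by
    rw [← map_mul, ← map_mul, hNZ]
  have hNN : Φ N * Φ N = 0 := by
    rw [← map_mul, hΦ]
    intro i j
    rw [Matrix.mul_apply]
    refine Ideal.sum_mem _ fun k _ => ?_
    have h3 : N i k * N k j ∈ 𝔫 ^ (m + m) := by
      rw [pow_add]
      exact Ideal.mul_mem_mul (hN i k) (hN k j)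
    exact Ideal.pow_le_pow_right (by omega) h3
  have hY : Φ N * Φ (Ψ Z) * (Φ N * Φ (Ψ Z)) = 0 := by
    rw [hcomm, mul_assoc, ← mul_assoc (Φ N), hcomm, mul_assoc (Φ (Ψ Z)) (Φ N) (Φ N), hNN, mul_zero,
      mul_zero]
  have hZY : Φ (Ψ Z) * (Φ N * Φ (Ψ Z)) = Φ N * Φ (Ψ Z) * Φ (Ψ Z) := by
    rw [← mul_assoc, ← hcomm]
  have hp1 := D8f_taylor (Φ (Ψ Z)) (Φ N * Φ (Ψ Z)) hZY hY p
  rw [← hX', Polynomial.aeval_algHom_apply, hpX, map_zero, Polynomial.aeval_algHom_apply,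
    Polynomial.aeval_algHom_apply, hpZ, map_zero, map_zero, zero_add] at hp1
  have hsep : p.Separable := PerfectField.separable_iff_squarefree.2 hp
  obtain ⟨a, b, hab⟩ := hsep
  have h5 := congrArg (Polynomial.aeval (Φ (Ψ Z))) hab
  rw [map_add, map_mul, map_mul, map_one, Polynomial.aeval_algHom_apply Φ (Ψ Z) p,
    Polynomial.aeval_algHom_apply Ψ Z p, hpZ, map_zero, map_zero, mul_zero, zero_add] at h5
  have h7 : Φ N * Φ (Ψ Z) = 0 := by
    have h8 : Polynomial.aeval (Φ (Ψ Z)) b * Polynomial.aeval (Φ (Ψ Z)) p.derivative = 1 := h5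
    rw [← one_mul (Φ N * Φ (Ψ Z)), ← h8, mul_assoc, ← hp1, mul_zero]
  have h9 : Φ N = 0 := by
    have h10 : Φ (Ψ Z) * Φ (Ψ Z') = 1 := by
      rw [← map_mul, ← map_mul, h1, map_one, map_one]
    rw [← mul_one (Φ N), ← h10, ← mul_assoc, h7, zero_mul]
  exact (hΦ N).1 h9 i j

end Pool.Agent.Lib.MP_666dc0_nt.LD
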