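import Pool.Agent.Lib.MP_666dc0_nt.LD.D8b
import Pool.Agent.Lib.MP_666dc0_nt.LD.D8c

open TensorProduct Coalgebra
open scoped TensorProduct Matrix

namespace Pool.Agent.Lib.MP_666dc0_nt.LD

variable {O : Type} [CommRing O] [HopfAlgebra ℚ O] {Γ : Type} [Group Γ] {A : HopfAction Γ O} {n : ℕ}

private theorem D8ga_add {U : Type} [AddCommGroup U] [Module ℚ U] {d d' : O →ₗ[ℚ] U}
    (hd : IsDer d) (hd' : IsDer d') : IsDer (d + d') := by
  intro f g
  rw [LinearMap.add_apply, LinearMap.add_apply, LinearMap.add_apply, hd f g, hd' f g, smul_add,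
    smul_add]
  abel

private theorem D8ga_zero {U : Type} [AddCommGroup U] [Module ℚ U] :
    IsDer (0 : O →ₗ[ℚ] U) := by
  intro f g
  simp only [LinearMap.zero_apply, smul_zero, add_zero]

private theorem D8ga_comp {U V : Type} [AddCommGroup U] [Module ℚ U] [AddCommGroup V] [Module ℚ V]
    (φ : U →ₗ[ℚ] V) {d : O →ₗ[ℚ] U} (hd : IsDer d) : IsDer (φ.comp d) := by
  intro f g
  rw [LinearMap.comp_apply, LinearMap.comp_apply, LinearMap.comp_apply, hd f g, map_add, map_smul,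
    map_smul]

/-- Decomposition of derivations at the unit for a semisimple `z`: `exists_decomp` (D8c) for `Z = ρ.ev z` and `W = {dm ρ d | d a derivation}` (a `K`-subspace of the matrices; stable by
`IsDer.exists_conj`). From `dm ρ d = dm ρ c + (Z (dm ρ b) Z⁻¹ - dm ρ b)`. -/
theorem IsDer.exists_decomp (ρ : MatRep A n) {K : Type} [Field K] [Algebra ℚ K] (z : A.LGroup K)
    (p : Polynomial K) (hp : Squarefree p) (hpz : Polynomial.aeval (ρ.ev K z) p = 0)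
    {d : O →ₗ[ℚ] K} (hd : IsDer d) :
    ∃ c b : O →ₗ[ℚ] K, IsDer c ∧ IsDer b ∧
      dm ρ d = dm ρ c + (ρ.ev K z * dm ρ b * ρ.ev K z⁻¹ - dm ρ b) ∧
      ρ.ev K z * dm ρ c = dm ρ c * ρ.ev K z := by
  have hK : CharZero K := algebraRat.charZero K
  let W : Submodule K (Matrix (Fin n) (Fin n) K) :=
    { carrier := {M | ∃ d : O →ₗ[ℚ] K, IsDer d ∧ dm ρ d = M}
      add_mem' := by
        rintro _ _ ⟨d, hd, rfl⟩ ⟨d', hd', rfl⟩
        exact ⟨d + d', D8ga_add hd hd', rfl⟩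
      zero_mem' := ⟨0, D8ga_zero, rfl⟩
      smul_mem' := by
        rintro t _ ⟨d, hd, rfl⟩
        exact ⟨(LinearMap.mulLeft ℚ t).comp d, D8ga_comp _ hd, rfl⟩ }
  have h1 : ρ.ev K z * ρ.ev K z⁻¹ = 1 := by rw [← map_mul, mul_inv_cancel, map_one]
  have h2 : ρ.ev K z⁻¹ * ρ.ev K z = 1 := by rw [← map_mul, inv_mul_cancel, map_one]
  have hW : ∀ M ∈ W, ρ.ev K z * M * ρ.ev K z⁻¹ ∈ W := by
    rintro _ ⟨d', hd', rfl⟩
    exact hd'.exists_conj ρ z
  obtain ⟨c, ⟨c', hc', hc''⟩, b, ⟨b', hb', hb''⟩, h, h'⟩ :=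
    LD.exists_decomp (ρ.ev K z) (ρ.ev K z⁻¹) h1 h2 p hp hpz W hW (dm ρ d) ⟨d, hd, rfl⟩
  subst hc'' hb''
  exact ⟨c', b', hc', hb', h, h'⟩

end Pool.Agent.Lib.MP_666dc0_nt.LD
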