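import Pool.Agent.Lib.MP_666dc0_nt.LD.D8a
import Pool.Agent.Lib.MP_666dc0_nt.LD.D8f

open TensorProduct Coalgebra
open scoped TensorProduct Matrix

namespace Pool.Agent.Lib.MP_666dc0_nt.LD

variable {O : Type} [CommRing O] [HopfAlgebra ℚ O] {Γ : Type} [Group Γ] {A : HopfAction Γ O} {n : ℕ}

/-- The commuting part vanishes, for points. Let `N := ∑ l, a l • (dm ρ (c l))` over `𝒜`. `x = u * z` with `u := x * (z_𝒜)⁻¹`, `ρ.ev x = ρ.gm u.left * ρ.ev z`, `ρ.gm u.left ≡ 1 + N` modulo `𝔫 ^ (m+1)`; `N` commutes with `ρ.ev z`.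
`entries_mem_of_commute` (the polynomial `p` kills `ρ.ev z`: apply `ε` to `hpx`, or assume `hpz`): `N ≡ 0`. So the derivation `f ↦ [∑ l, a l * c l f]` with values in `𝒜 ⧸ 𝔫 ^ (m+1)` (a derivation at the unit, `ℚ`-linear) has zero matrix;
`IsDer.eq_zero` gives `∑ l, a l * c l f ∈ 𝔫 ^ (m+1)` for all `f`. -/
theorem first_order_commute (ρ : MatRep A n) (hρ : IG.Faithful ρ) {K : Type} [Field K]
    [Algebra ℚ K] {𝒜 : Type} [CommRing 𝒜] [Algebra ℚ 𝒜] [Algebra K 𝒜] (𝔫 : Ideal 𝒜) (m : ℕ)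
    (hm : 1 ≤ m) (σ : Γ) (z : Pts O K) (x : Pts O 𝒜) (p : Polynomial K) (hp : Squarefree p)
    (hpz : Polynomial.aeval (ρ.ev K (⟨z, σ⟩ : A.LGroup K)) p = 0)
    (hpx : Polynomial.aeval (ρ.ev 𝒜 (⟨x, σ⟩ : A.LGroup 𝒜)) p = 0) (q : ℕ) (a : Fin q → 𝒜)
    (c : Fin q → (O →ₗ[ℚ] K)) (ha : ∀ l, a l ∈ 𝔫 ^ m) (hc : ∀ l, IsDer (c l))
    (hcz : ∀ l, ρ.ev K (⟨z, σ⟩ : A.LGroup K) * dm ρ (c l) = dm ρ (c l) * ρ.ev K (⟨z, σ⟩ : A.LGroup K))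
    (hx : ∀ f, (x * (bc 𝒜 z)⁻¹).hom f - algebraMap ℚ 𝒜 (counit (R := ℚ) f) -
      ∑ l, a l * algebraMap K 𝒜 (c l f) ∈ 𝔫 ^ (m + 1)) (f : O) :
    (x * (bc 𝒜 z)⁻¹).hom f - algebraMap ℚ 𝒜 (counit (R := ℚ) f) ∈ 𝔫 ^ (m + 1) := by
  have hK : CharZero K := algebraRat.charZero K
  have h1 : ρ.ev K (⟨z, σ⟩ : A.LGroup K) * ρ.ev K (⟨z, σ⟩ : A.LGroup K)⁻¹ = 1 := by
    rw [← map_mul, mul_inv_cancel, map_one]
  obtain ⟨u, hu⟩ : ∃ u, u = x * (bc 𝒜 z)⁻¹ := ⟨_, rfl⟩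
  obtain ⟨N, hN⟩ : ∃ N : Matrix (Fin n) (Fin n) 𝒜,
      N = ∑ l, a l • (dm ρ (c l)).map (algebraMap K 𝒜) := ⟨_, rfl⟩
  have hN' : ∀ i j, N i j = ∑ l, a l * algebraMap K 𝒜 (c l (ρ.a i j)) := by
    intro i j
    rw [hN, Matrix.sum_apply]
    rfl
  have hxz : ρ.ev 𝒜 (⟨x, σ⟩ : A.LGroup 𝒜) =
      ρ.gm u * (ρ.ev K (⟨z, σ⟩ : A.LGroup K)).map (algebraMap K 𝒜) := by
    have e1 : (ρ.ev K (⟨z, σ⟩ : A.LGroup K)).map (algebraMap K 𝒜) =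
        ρ.gm (bc 𝒜 z) * ρ.pm 𝒜 σ := by
      have e2 := ρ.ev_mapL (algebraMap K 𝒜).toRatAlgHom (⟨z, σ⟩ : A.LGroup K)
      rw [ρ.ev_apply] at e2
      exact e2.symm
    have e3 : x = u * bc 𝒜 z := by rw [hu, inv_mul_cancel_right]
    rw [e1, ρ.ev_apply, ← mul_assoc, ← ρ.gm_mul, ← e3]
  have hNn : ∀ i j, N i j ∈ 𝔫 ^ m := by
    intro i j
    rw [hN']
    exact Ideal.sum_mem _ fun l _ => Ideal.mul_mem_right _ _ (ha l)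
  have hNZ : N * (ρ.ev K (⟨z, σ⟩ : A.LGroup K)).map (algebraMap K 𝒜) =
      (ρ.ev K (⟨z, σ⟩ : A.LGroup K)).map (algebraMap K 𝒜) * N := by
    rw [hN, Finset.sum_mul, Finset.mul_sum]
    refine Finset.sum_congr rfl fun l _ => ?_
    rw [smul_mul_assoc, mul_smul_comm]
    congr 1
    rw [← Matrix.map_mul, ← Matrix.map_mul, hcz l]
  have hgm : ∀ i j, (ρ.gm u - 1 - N) i j ∈ 𝔫 ^ (m + 1) := by
    intro i j
    have e1 := hx (ρ.a i j)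
    rw [← hu] at e1
    have e2 : (ρ.gm u - 1 - N) i j = u.hom (ρ.a i j) - algebraMap ℚ 𝒜 (counit (R := ℚ) (ρ.a i j)) -
        ∑ l, a l * algebraMap K 𝒜 (c l (ρ.a i j)) := by
      rw [Matrix.sub_apply, Matrix.sub_apply, hN', ρ.counit_a, Matrix.one_apply]
      congr 2
      split_ifs <;> simp
    rw [e2]
    exact e1
  have hX : ∀ i j, (ρ.ev 𝒜 (⟨x, σ⟩ : A.LGroup 𝒜) -
      (1 + N) * (ρ.ev K (⟨z, σ⟩ : A.LGroup K)).map (algebraMap K 𝒜)) i j ∈ 𝔫 ^ (m + 1) := by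
    intro i j
    have e1 : ρ.ev 𝒜 (⟨x, σ⟩ : A.LGroup 𝒜) -
        (1 + N) * (ρ.ev K (⟨z, σ⟩ : A.LGroup K)).map (algebraMap K 𝒜) =
        (ρ.gm u - 1 - N) * (ρ.ev K (⟨z, σ⟩ : A.LGroup K)).map (algebraMap K 𝒜) := by
      rw [hxz]
      noncomm_ring
    rw [e1, Matrix.mul_apply]
    exact Ideal.sum_mem _ fun k _ => Ideal.mul_mem_right _ _ (hgm i k)
  have hNm : ∀ i j, N i j ∈ 𝔫 ^ (m + 1) := fun i j =>
    entries_mem_of_commute 𝔫 m hm _ _ h1 p hp hpz N (ρ.ev 𝒜 (⟨x, σ⟩ : A.LGroup 𝒜)) hNn hNZ hX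
      hpx i j
  -- the derivation with values in the quotient
  let φ : Fin q → (K →ₗ[ℚ] (𝒜 ⧸ 𝔫 ^ (m + 1))) := fun l =>
    (Ideal.Quotient.mkₐ ℚ (𝔫 ^ (m + 1))).toLinearMap.comp
      ((LinearMap.mulLeft ℚ (a l)).comp (algebraMap K 𝒜).toRatAlgHom.toLinearMap)
  let d : O →ₗ[ℚ] (𝒜 ⧸ 𝔫 ^ (m + 1)) := ∑ l, (φ l).comp (c l)
  have hd0 : ∀ g, d g = ∑ l, φ l (c l g) := by
    intro g
    rw [LinearMap.sum_apply]
    rfl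
  have hd1 : ∀ g, d g = Ideal.Quotient.mk (𝔫 ^ (m + 1)) (∑ l, a l * algebraMap K 𝒜 (c l g)) := by
    intro g
    rw [hd0, map_sum]
    rfl
  have hd : IsDer d := by
    intro f g
    rw [hd0, hd0, hd0, Finset.smul_sum, Finset.smul_sum, ← Finset.sum_add_distrib]
    refine Finset.sum_congr rfl fun l _ => ?_
    rw [hc l f g, map_add, map_smul, map_smul]
  have hdm : dm ρ d = 0 := by
    ext i j
    change d (ρ.a i j) = 0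
    rw [hd1, Ideal.Quotient.eq_zero_iff_mem, ← hN']
    exact hNm i j
  have hz := hd.eq_zero ρ hρ hdm
  have hf : ∑ l, a l * algebraMap K 𝒜 (c l f) ∈ 𝔫 ^ (m + 1) := by
    rw [← Ideal.Quotient.eq_zero_iff_mem, ← hd1, hz, LinearMap.zero_apply]
  have := Ideal.add_mem _ (hx f) hf
  rwa [sub_add_cancel] at this

end Pool.Agent.Lib.MP_666dc0_nt.LD
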