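import Pool.Agent.Lib.MP_666dc0_nt.LD.D8d

open TensorProduct Coalgebra
open scoped TensorProduct Matrix

namespace Pool.Agent.Lib.MP_666dc0_nt.LD

variable {O : Type} [CommRing O] [HopfAlgebra ℚ O]

/-- Points near the unit multiply additively to first order: if `g f ≡ ε f + P f`, `h f ≡ ε f + Q f` modulo `𝔫 ^ (m+1)` with `P f, Q f ∈ 𝔫 ^ m`, `m ≥ 1`, then `(g h) f ≡ ε f + P f + Q f`. (`(g h) f = ∑ g f₁ * h f₂`
(`Pts.mul_hom_apply`); check for arbitrary tensors `t : O ⊗ O`: `lift g h t ≡ (ε ⊗ ε) t + (P ⊗ ε) t + (ε ⊗ Q) t`; then `t = Δ f`, `rTensor_counit_comul`, `lTensor_counit_comul`.) -/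
theorem mul_first_order {𝒜 : Type} [CommRing 𝒜] [Algebra ℚ 𝒜] (𝔫 : Ideal 𝒜) (m : ℕ) (hm : 1 ≤ m)
    (g h : Pts O 𝒜) (P Q : O →ₗ[ℚ] 𝒜) (hP : ∀ f, P f ∈ 𝔫 ^ m) (hQ : ∀ f, Q f ∈ 𝔫 ^ m)
    (hg : ∀ f, g.hom f - algebraMap ℚ 𝒜 (counit (R := ℚ) f) - P f ∈ 𝔫 ^ (m + 1))
    (hh : ∀ f, h.hom f - algebraMap ℚ 𝒜 (counit (R := ℚ) f) - Q f ∈ 𝔫 ^ (m + 1)) (f : O) :
    (g * h).hom f - algebraMap ℚ 𝒜 (counit (R := ℚ) f) - (P f + Q f) ∈ 𝔫 ^ (m + 1) := by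
  set 𝓡 := Coalgebra.Repr.arbitrary ℚ f with h𝓡
  have e1 : (g * h).hom f = ∑ i ∈ 𝓡.index, g.hom (𝓡.left i) * h.hom (𝓡.right i) := by
    rw [Pts.mul_hom_apply, ← 𝓡.eq, map_sum]
    refine Finset.sum_congr rfl fun i _ => ?_
    rw [Algebra.TensorProduct.lift_tmul]
  have c1 : ∑ i ∈ 𝓡.index, counit (R := ℚ) (𝓡.left i) • 𝓡.right i = f := Coalgebra.sum_counit_smul 𝓡
  have c2 : ∑ i ∈ 𝓡.index, counit (R := ℚ) (𝓡.right i) • 𝓡.left i = f := by
    have h1 := congrArg (TensorProduct.lift ((LinearMap.lsmul ℚ O).flip)) (Coalgebra.sum_tmul_counit_eq 𝓡)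
    rw [map_sum] at h1
    simpa only [TensorProduct.lift.tmul, LinearMap.flip_apply, LinearMap.lsmul_apply, one_smul] using h1
  have e2 : algebraMap ℚ 𝒜 (counit (R := ℚ) f) = ∑ i ∈ 𝓡.index,
      algebraMap ℚ 𝒜 (counit (R := ℚ) (𝓡.left i)) * algebraMap ℚ 𝒜 (counit (R := ℚ) (𝓡.right i)) := by
    have h1 := congrArg (fun x => algebraMap ℚ 𝒜 (counit (R := ℚ) x)) c1
    simp only [map_sum, map_smul, smul_eq_mul, map_mul] at h1
    exact h1.symm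
  have e3 : P f = ∑ i ∈ 𝓡.index, P (𝓡.left i) * algebraMap ℚ 𝒜 (counit (R := ℚ) (𝓡.right i)) := by
    have h1 := congrArg P c2
    rw [map_sum] at h1
    rw [← h1]
    refine Finset.sum_congr rfl fun i _ => ?_
    rw [map_smul, Algebra.smul_def, mul_comm]
  have e4 : Q f = ∑ i ∈ 𝓡.index, algebraMap ℚ 𝒜 (counit (R := ℚ) (𝓡.left i)) * Q (𝓡.right i) := by
    have h1 := congrArg Q c1
    rw [map_sum] at h1
    rw [← h1]
    refine Finset.sum_congr rfl fun i _ => ?_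
    rw [map_smul, Algebra.smul_def]
  rw [e1, e2, e3, e4, ← Finset.sum_add_distrib, ← Finset.sum_sub_distrib, ← Finset.sum_sub_distrib]
  refine Ideal.sum_mem _ fun i _ => ?_
  have r1 := hg (𝓡.left i)
  have r2 := hh (𝓡.right i)
  have r3 : P (𝓡.left i) * Q (𝓡.right i) ∈ 𝔫 ^ (m + 1) := by
    have h1 := Ideal.mul_mem_mul (hP (𝓡.left i)) (hQ (𝓡.right i))
    rw [← pow_add] at h1
    exact Ideal.pow_le_pow_right (by omega) h1
  have key : g.hom (𝓡.left i) * h.hom (𝓡.right i)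
      - algebraMap ℚ 𝒜 (counit (R := ℚ) (𝓡.left i)) * algebraMap ℚ 𝒜 (counit (R := ℚ) (𝓡.right i))
      - (P (𝓡.left i) * algebraMap ℚ 𝒜 (counit (R := ℚ) (𝓡.right i))
        + algebraMap ℚ 𝒜 (counit (R := ℚ) (𝓡.left i)) * Q (𝓡.right i))
      = (g.hom (𝓡.left i) - algebraMap ℚ 𝒜 (counit (R := ℚ) (𝓡.left i)) - P (𝓡.left i))
          * h.hom (𝓡.right i)
        + (algebraMap ℚ 𝒜 (counit (R := ℚ) (𝓡.left i)) + P (𝓡.left i))
          * (h.hom (𝓡.right i) - algebraMap ℚ 𝒜 (counit (R := ℚ) (𝓡.right i)) - Q (𝓡.right i))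
        + P (𝓡.left i) * Q (𝓡.right i) := by ring
  rw [key]
  exact Ideal.add_mem _ (Ideal.add_mem _ (Ideal.mul_mem_right _ _ r1) (Ideal.mul_mem_left _ _ r2)) r3

/-- Products of exponentials. Induction on `q` (`Fin.sum_univ_castSucc`): `mul_first_order` for the point of the first `q` terms and the point `exists_exp` of `a q`, `b q` (`a q ^ 2 * c ∈ 𝔫 ^ (2m) ≤ 𝔫 ^ (m+1)`); `a l` is nilpotent since
`a l ∈ 𝔫 ^ m ≤ 𝔫` and `𝔫 ^ N = ⊥`. For `q = 0` the unit element. -/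
theorem exists_prod_exp {K : Type} [Field K] [Algebra ℚ K] {𝒜 : Type} [CommRing 𝒜] [Algebra ℚ 𝒜]
    [Algebra K 𝒜] (𝔫 : Ideal 𝒜) (N : ℕ) (hN : 𝔫 ^ N = ⊥) (m : ℕ) (hm : 1 ≤ m) (q : ℕ)
    (a : Fin q → 𝒜) (b : Fin q → (O →ₗ[ℚ] K)) (ha : ∀ l, a l ∈ 𝔫 ^ m) (hb : ∀ l, IsDer (b l)) :
    ∃ w : Pts O 𝒜, ∀ f, w.hom f - algebraMap ℚ 𝒜 (counit (R := ℚ) f) -
      ∑ l, a l * algebraMap K 𝒜 (b l f) ∈ 𝔫 ^ (m + 1) := by
  induction q with
  | zero =>
    refine ⟨1, fun f => ?_⟩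
    rw [Pts.one_hom_apply, Fin.sum_univ_zero, sub_self, sub_zero]
    exact Ideal.zero_mem _
  | succ q ih =>
    obtain ⟨w₀, hw₀⟩ := ih (fun l => a l.castSucc) (fun l => b l.castSucc)
      (fun l => ha l.castSucc) (fun l => hb l.castSucc)
    have hnil : IsNilpotent (a (Fin.last q)) := by
      refine ⟨N, ?_⟩
      have h1 : a (Fin.last q) ∈ 𝔫 := by
        have h2 := Ideal.pow_le_pow_right hm (ha (Fin.last q))
        rwa [pow_one] at h2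
      have h3 := Ideal.pow_mem_pow h1 N
      rw [hN] at h3
      exact h3
    obtain ⟨w₁, hw₁⟩ := exists_exp (a (Fin.last q)) hnil (hb (Fin.last q))
    have hlin : ∀ (x : 𝒜) (d : O →ₗ[ℚ] K), ∃ P : O →ₗ[ℚ] 𝒜, ∀ f, P f = x * algebraMap K 𝒜 (d f) :=
      fun x d => ⟨(LinearMap.mulLeft ℚ x).comp (((algebraMap K 𝒜).toRatAlgHom.toLinearMap).comp d),
        fun f => rfl⟩
    choose L hL using hlin
    refine ⟨w₀ * w₁, fun f => ?_⟩
    have h1 := mul_first_order 𝔫 m hm w₀ w₁ (∑ l : Fin q, L (a l.castSucc) (b l.castSucc))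
      (L (a (Fin.last q)) (b (Fin.last q))) ?_ ?_ ?_ ?_ f
    · rw [Fin.sum_univ_castSucc]
      rw [LinearMap.sum_apply, hL] at h1
      simp only [hL] at h1
      exact h1
    · intro f
      rw [LinearMap.sum_apply]
      refine Ideal.sum_mem _ fun l _ => ?_
      rw [hL]
      exact Ideal.mul_mem_right _ _ (ha l.castSucc)
    · intro f
      rw [hL]
      exact Ideal.mul_mem_right _ _ (ha (Fin.last q))
    · intro f
      rw [LinearMap.sum_apply]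
      simp only [hL]
      exact hw₀ f
    · intro f
      obtain ⟨c, hc⟩ := hw₁ f
      rw [hL, hc]
      have h2 : algebraMap ℚ 𝒜 (counit (R := ℚ) f)
          + a (Fin.last q) * algebraMap K 𝒜 (b (Fin.last q) f) + a (Fin.last q) ^ 2 * c
          - algebraMap ℚ 𝒜 (counit (R := ℚ) f)
          - a (Fin.last q) * algebraMap K 𝒜 (b (Fin.last q) f) = a (Fin.last q) ^ 2 * c := by ring
      rw [h2]
      refine Ideal.mul_mem_right _ _ ?_
      have h3 := Ideal.pow_mem_pow (ha (Fin.last q)) 2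
      rw [← pow_mul] at h3
      exact Ideal.pow_le_pow_right (by omega) h3

end Pool.Agent.Lib.MP_666dc0_nt.LD
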