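import Pool.Agent.Lib.MP_666dc0_nt.LD.D8a

open TensorProduct Coalgebra
open scoped TensorProduct Matrix

namespace Pool.Agent.Lib.MP_666dc0_nt.LD

variable {O : Type} [CommRing O] [HopfAlgebra ℚ O] {Γ : Type} [Group Γ] {A : HopfAction Γ O} {n : ℕ}

/-- A point near the unit to order `m` is determined to first order by its matrix. The map `d f := [g f - ε f - ∑ l, a l * c l f]` to `U = 𝒜 ⧸ 𝔫 ^ (m+1)` is `ℚ`-linear and a derivation at the unit (`g(fh) - ε(fh) =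
ε(f) (g h - ε h) + ε(h) (g f - ε f) + (g f - ε f) (g h - ε h)` and the last product is in `𝔫 ^ (2m) ≤ 𝔫 ^ (m+1)`; `IsDer` of the `c l`; on `U` the `ℚ`-scalar action is multiplication with `algebraMap ℚ`), with `dm ρ d = 0` by `h`. `IsDer.eq_zero`. -/
theorem near_ext (ρ : MatRep A n) (hρ : IG.Faithful ρ) {K : Type} [Field K] [Algebra ℚ K]
    {𝒜 : Type} [CommRing 𝒜] [Algebra ℚ 𝒜] [Algebra K 𝒜] (𝔫 : Ideal 𝒜) (m : ℕ) (hm : 1 ≤ m)
    (g : Pts O 𝒜) (hg : ∀ f, g.hom f - algebraMap ℚ 𝒜 (counit (R := ℚ) f) ∈ 𝔫 ^ m) (q : ℕ)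
    (a : Fin q → 𝒜) (c : Fin q → (O →ₗ[ℚ] K)) (hc : ∀ l, IsDer (c l))
    (h : ∀ i j, (ρ.gm g - 1 - ∑ l, a l • (dm ρ (c l)).map (algebraMap K 𝒜)) i j ∈ 𝔫 ^ (m + 1))
    (f : O) : g.hom f - algebraMap ℚ 𝒜 (counit (R := ℚ) f) -
      ∑ l, a l * algebraMap K 𝒜 (c l f) ∈ 𝔫 ^ (m + 1) := by
  set D0 : O →ₗ[ℚ] 𝒜 := g.hom.toLinearMap - (Algebra.linearMap ℚ 𝒜).comp (counit (R := ℚ)) -
    ∑ l, (LinearMap.mulLeft ℚ (a l)).comp (((algebraMap K 𝒜).toRatAlgHom.toLinearMap).comp (c l))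
    with hD0
  have hD0a : ∀ f, D0 f = g.hom f - algebraMap ℚ 𝒜 (counit (R := ℚ) f) -
      ∑ l, a l * algebraMap K 𝒜 (c l f) := by
    intro f
    rw [hD0, LinearMap.sub_apply, LinearMap.sub_apply, LinearMap.sum_apply]
    rfl
  set d : O →ₗ[ℚ] (𝒜 ⧸ 𝔫 ^ (m + 1)) :=
    (Ideal.Quotient.mkₐ ℚ (𝔫 ^ (m + 1))).toLinearMap.comp D0 with hd
  have hda : ∀ f, d f = Ideal.Quotient.mk (𝔫 ^ (m + 1)) (D0 f) := fun f => rfl
  have hder : IsDer d := by
    intro f k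
    rw [hda, hda, hda]
    have h1 : ∀ (q : ℚ) (x : 𝒜), q • (Ideal.Quotient.mk (𝔫 ^ (m + 1)) x) =
        Ideal.Quotient.mk (𝔫 ^ (m + 1)) (algebraMap ℚ 𝒜 q * x) := by
      intro q x
      rw [Algebra.smul_def, map_mul]
      rfl
    rw [h1, h1, ← map_add, Ideal.Quotient.eq]
    have h2 : ∀ l, a l * algebraMap K 𝒜 (c l (f * k)) =
        algebraMap ℚ 𝒜 (counit (R := ℚ) f) * (a l * algebraMap K 𝒜 (c l k)) +
          algebraMap ℚ 𝒜 (counit (R := ℚ) k) * (a l * algebraMap K 𝒜 (c l f)) := by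
      intro l
      rw [hc l f k, map_add]
      have h3 : ∀ (q : ℚ) (x : K), algebraMap K 𝒜 (q • x) = algebraMap ℚ 𝒜 q * algebraMap K 𝒜 x := by
        intro q x
        have h4 := map_smul (algebraMap K 𝒜).toRatAlgHom q x
        rw [Algebra.smul_def (A := 𝒜)] at h4
        exact h4
      rw [h3, h3]
      ring
    have h5 : D0 (f * k) - (algebraMap ℚ 𝒜 (counit (R := ℚ) f) * D0 k +
        algebraMap ℚ 𝒜 (counit (R := ℚ) k) * D0 f) =
        (g.hom f - algebraMap ℚ 𝒜 (counit (R := ℚ) f)) *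
          (g.hom k - algebraMap ℚ 𝒜 (counit (R := ℚ) k)) := by
      rw [hD0a, hD0a, hD0a, Finset.sum_congr rfl fun l _ => h2 l, Finset.sum_add_distrib,
        ← Finset.mul_sum, ← Finset.mul_sum, map_mul, Bialgebra.counit_mul, map_mul]
      ring
    rw [h5]
    have h6 := Ideal.mul_mem_mul (hg f) (hg k)
    rw [← pow_add] at h6
    exact Ideal.pow_le_pow_right (by omega) h6
  have hdm : dm ρ d = 0 := by
    ext i j
    rw [dm, Matrix.map_apply, Matrix.zero_apply, hda, Ideal.Quotient.eq_zero_iff_mem, hD0a,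
      ρ.counit_a]
    have h7 := h i j
    rw [Matrix.sub_apply, Matrix.sub_apply, Matrix.sum_apply, Matrix.one_apply] at h7
    have h8 : (algebraMap ℚ 𝒜) (if i = j then 1 else 0) = if i = j then 1 else 0 := by
      split_ifs <;> simp
    rw [h8]
    exact h7
  have h9 := IsDer.eq_zero ρ hρ hder hdm
  have h10 := congrArg (fun D : O →ₗ[ℚ] (𝒜 ⧸ 𝔫 ^ (m + 1)) => D f) h9
  simp only [hda, LinearMap.zero_apply] at h10
  rw [Ideal.Quotient.eq_zero_iff_mem, hD0a] at h10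
  exact h10

/-- Congruences of points. `x ≡ y` modulo the ideal `I` means that the images of `x` and `y` over `𝒜 ⧸ I` are equal (`Pts.map (Ideal.Quotient.mkₐ ℚ I)`), so congruences are compatible with products, inverses and twisted conjugation
(`map_mul`, `map_inv`, `map_tc`). -/
theorem congr_iff {𝒜 : Type} [CommRing 𝒜] [Algebra ℚ 𝒜] (I : Ideal 𝒜) (x y : Pts O 𝒜) :
    (∀ f, x.hom f - y.hom f ∈ I) ↔
      Pts.map (Ideal.Quotient.mkₐ ℚ I) x = Pts.map (Ideal.Quotient.mkₐ ℚ I) y := by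
  constructor
  · intro h
    ext f
    rw [Pts.map_hom_apply, Pts.map_hom_apply]
    exact Ideal.Quotient.eq.2 (h f)
  · intro h f
    have h1 := congrArg (fun w : Pts O (𝒜 ⧸ I) => w.hom f) h
    exact Ideal.Quotient.eq.1 h1

end Pool.Agent.Lib.MP_666dc0_nt.LD
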