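import Mathlib

namespace Pool.Agent.Lib.MP_666dc0_nt.LD

variable {n : ℕ}

/-- Matrix computation: if `W ≡ 1 + B`, `U ≡ 1 + D` modulo `I₁ = 𝔫 ^ (m+1)` with `B, D` matrices with entries in `𝔫 ^ m` (`m ≥ 1`), `W W' = 1`, `Z Z' = 1 = Z' Z`, then `W U Z W' Z' ≡ 1 + B + D - Z B Z'`. (Work over `𝒜 ⧸ I₁`, where products of
two matrices with entries in the image of `𝔫 ^ m` vanish; `W' ≡ 1 - B`.) -/
theorem conj_first_order {𝒜 : Type} [CommRing 𝒜] (𝔫 : Ideal 𝒜) (m : ℕ) (hm : 1 ≤ m)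
    (W W' U Z Z' B D : Matrix (Fin n) (Fin n) 𝒜) (h1 : W * W' = 1) (h2 : Z * Z' = 1)
    (hB : ∀ i j, B i j ∈ 𝔫 ^ m) (hD : ∀ i j, D i j ∈ 𝔫 ^ m)
    (hW : ∀ i j, (W - 1 - B) i j ∈ 𝔫 ^ (m + 1)) (hU : ∀ i j, (U - 1 - D) i j ∈ 𝔫 ^ (m + 1))
    (i j : Fin n) :
    (W * U * (Z * W' * Z') - 1 - (B + D - Z * B * Z')) i j ∈ 𝔫 ^ (m + 1) := by
  set φ : Matrix (Fin n) (Fin n) 𝒜 →+* Matrix (Fin n) (Fin n) (𝒜 ⧸ 𝔫 ^ (m + 1)) :=
    (Ideal.Quotient.mk (𝔫 ^ (m + 1))).mapMatrix with hφ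
  have hz : ∀ M : Matrix (Fin n) (Fin n) 𝒜, φ M = 0 ↔ ∀ i j, M i j ∈ 𝔫 ^ (m + 1) := by
    intro M
    constructor
    · intro h i j
      have h1 := congrFun (congrFun h i) j
      exact Ideal.Quotient.eq_zero_iff_mem.1 h1
    · intro h
      ext i j
      exact Ideal.Quotient.eq_zero_iff_mem.2 (h i j)
  have hprod : ∀ P Q : Matrix (Fin n) (Fin n) 𝒜, (∀ i j, P i j ∈ 𝔫 ^ m) → (∀ i j, Q i j ∈ 𝔫 ^ m) →
      φ P * φ Q = 0 := by
    intro P Q hP hQ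
    rw [← map_mul, hz]
    intro i j
    rw [Matrix.mul_apply]
    refine Ideal.sum_mem _ fun k _ => ?_
    have h1 := Ideal.mul_mem_mul (hP i k) (hQ k j)
    rw [← pow_add] at h1
    exact Ideal.pow_le_pow_right (by omega) h1
  have hleft : ∀ X P : Matrix (Fin n) (Fin n) 𝒜, (∀ i j, P i j ∈ 𝔫 ^ m) →
      ∀ i j, (X * P) i j ∈ 𝔫 ^ m := by
    intro X P hP i j
    rw [Matrix.mul_apply]
    exact Ideal.sum_mem _ fun k _ => Ideal.mul_mem_left _ _ (hP k j)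
  have hright : ∀ P X : Matrix (Fin n) (Fin n) 𝒜, (∀ i j, P i j ∈ 𝔫 ^ m) →
      ∀ i j, (P * X) i j ∈ 𝔫 ^ m := by
    intro P X hP i j
    rw [Matrix.mul_apply]
    exact Ideal.sum_mem _ fun k _ => Ideal.mul_mem_right _ _ (hP i k)
  have hW1 : φ W = 1 + φ B := by
    have h3 := (hz (W - 1 - B)).2 hW
    rw [map_sub, map_sub, map_one, sub_sub, sub_eq_zero] at h3
    exact h3
  have hU1 : φ U = 1 + φ D := by
    have h3 := (hz (U - 1 - D)).2 hU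
    rw [map_sub, map_sub, map_one, sub_sub, sub_eq_zero] at h3
    exact h3
  have hWW : φ W * φ W' = 1 := by rw [← map_mul, h1, map_one]
  have hZZ : φ Z * φ Z' = 1 := by rw [← map_mul, h2, map_one]
  have hW2 : φ W' = 1 - φ B := by
    rw [hW1, add_mul, one_mul] at hWW
    have h4 : φ W' = 1 - φ B * φ W' := eq_sub_of_add_eq hWW
    have h5 : φ B * (φ B * φ W') = 0 := by
      rw [← map_mul φ B W']
      exact hprod B (B * W') hB (hright B W' hB)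
    have h6 : φ B * φ W' = φ B := by
      calc φ B * φ W' = φ B * (1 - φ B * φ W') := by rw [← h4]
        _ = φ B := by rw [mul_sub, mul_one, h5, sub_zero]
    rw [h4, h6]
  have hT : ∀ i j, (Z * B * Z') i j ∈ 𝔫 ^ m := hright _ _ (hleft _ _ hB)
  have hBT : φ B * φ (Z * B * Z') = 0 := hprod _ _ hB hT
  have hDT : φ D * φ (Z * B * Z') = 0 := hprod _ _ hD hT
  have hBD : φ B * φ D = 0 := hprod _ _ hB hD
  have hmain : φ (W * U * (Z * W' * Z') - 1 - (B + D - Z * B * Z')) = 0 := by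
    have h7 : φ (Z * W' * Z') = 1 - φ (Z * B * Z') := by
      rw [map_mul, map_mul, hW2, mul_sub, mul_one, sub_mul, hZZ, map_mul, map_mul]
    rw [map_sub, map_sub, map_mul, map_mul, h7, hW1, hU1, map_one, map_sub, map_add]
    have h8 : (1 + φ B) * (1 + φ D) = 1 + φ B + φ D := by
      rw [mul_add, mul_one, add_mul, one_mul, hBD, add_zero]
    rw [h8, mul_sub, mul_one, add_mul, add_mul, one_mul, hBT, hDT, add_zero, add_zero]
    abel
  exact (hz _).1 hmain i j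

end Pool.Agent.Lib.MP_666dc0_nt.LD
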