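import Pool.Agent.Lib.MP_666dc0_nt.LD.D3b
import Pool.Agent.Lib.MP_666dc0_nt.LD.D8e
import Pool.Agent.Lib.MP_666dc0_nt.LD.D8ga
import Pool.Agent.Lib.MP_666dc0_nt.LD.D8gb
import Pool.Agent.Lib.MP_666dc0_nt.LD.D8h
import Pool.Agent.Lib.MP_666dc0_nt.LD.D8i
import Pool.Agent.Lib.MP_666dc0_nt.LD.D8ja

open TensorProduct Coalgebra
open scoped TensorProduct Matrix

namespace Pool.Agent.Lib.MP_666dc0_nt.LD

variable {O : Type} [CommRing O] [HopfAlgebra ℚ O] {Γ : Type} [Group Γ] {A : HopfAction Γ O} {n : ℕ}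

private theorem D8jb_entry (ρ : MatRep A n) {K : Type} [Field K] [Algebra ℚ K] {𝒜 : Type}
    [CommRing 𝒜] [Algebra ℚ 𝒜] [Algebra K 𝒜] (g : Pts O 𝒜) {q : ℕ} (a : Fin q → 𝒜)
    (b : Fin q → (O →ₗ[ℚ] K)) (i j : Fin n) :
    (ρ.gm g - 1 - ∑ l, a l • (dm ρ (b l)).map (algebraMap K 𝒜)) i j =
      g.hom (ρ.a i j) - algebraMap ℚ 𝒜 (counit (R := ℚ) (ρ.a i j)) -
        ∑ l, a l * algebraMap K 𝒜 (b l (ρ.a i j)) := by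
  rw [Matrix.sub_apply, Matrix.sub_apply, Matrix.sum_apply]
  have h1 : (1 : Matrix (Fin n) (Fin n) 𝒜) i j =
      algebraMap ℚ 𝒜 (counit (R := ℚ) (ρ.a i j)) := by
    rw [ρ.counit_a, Matrix.one_apply]
    split_ifs <;> simp
  rw [h1]
  rfl

private theorem D8jb_sum_mem {K : Type} [Field K] {𝒜 : Type}
    [CommRing 𝒜] [Algebra K 𝒜] (I : Ideal 𝒜) {q : ℕ} (a : Fin q → 𝒜) (ha : ∀ l, a l ∈ I)
    (M : Fin q → Matrix (Fin n) (Fin n) K) (i j : Fin n) :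
    (∑ l, a l • (M l).map (algebraMap K 𝒜)) i j ∈ I := by
  rw [Matrix.sum_apply]
  refine Ideal.sum_mem _ fun l _ => ?_
  exact Ideal.mul_mem_right _ _ (ha l)

private theorem D8jb_alg {K : Type} [Field K] {𝒜 : Type}
    [CommRing 𝒜] [Algebra K 𝒜] {q : ℕ} (a : Fin q → 𝒜)
    (Z Zi : Matrix (Fin n) (Fin n) K) (b c d : Fin q → Matrix (Fin n) (Fin n) K)
    (h : ∀ l, d l = c l + (Z * b l * Zi - b l)) :
    (∑ l, a l • (b l).map (algebraMap K 𝒜)) + (∑ l, a l • (d l).map (algebraMap K 𝒜)) -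
      Z.map (algebraMap K 𝒜) * (∑ l, a l • (b l).map (algebraMap K 𝒜)) *
        Zi.map (algebraMap K 𝒜) = ∑ l, a l • (c l).map (algebraMap K 𝒜) := by
  have h1 : ∀ l, (d l).map (algebraMap K 𝒜) = (c l).map (algebraMap K 𝒜) +
      (Z.map (algebraMap K 𝒜) * (b l).map (algebraMap K 𝒜) * Zi.map (algebraMap K 𝒜) -
        (b l).map (algebraMap K 𝒜)) := by
    intro l
    have h2 := congrArg (fun M => (algebraMap K 𝒜).mapMatrix M) (h l)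
    simp only [map_add, map_sub, map_mul] at h2
    exact h2
  rw [Finset.mul_sum, Finset.sum_mul, ← Finset.sum_add_distrib, ← Finset.sum_sub_distrib]
  refine Finset.sum_congr rfl fun l _ => ?_
  rw [h1 l, Matrix.mul_smul, Matrix.smul_mul, smul_add, smul_sub]
  abel

/-- One step. `u := x * (bc z)⁻¹` is near the unit to order `m` (`congr_iff`). `exists_first_order` (D8e): `a l`, `d l`. `IsDer.exists_decomp` (D8g): `dm (d l) = dm (c l) + (Z dm (b l) Z⁻¹ - dm (b l))`. `exists_prod_exp` (D8h) for `a l`, `b l`: `w`.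
`g := tc A σ w x * (bc z)⁻¹` is near the unit to order `m` (`w` is near the unit to order `m`; `congr_iff`), and `ρ.gm g = ρ.gm w * ρ.gm u * (Z * ρ.gm w⁻¹ * Z⁻¹)` with `Z = ρ.ev 𝒜 (bc z, σ)` (in the L-group: `inl g = inl w * inl u * (z * inl w⁻¹ * z⁻¹)`,
`z = (bc z, σ)`). `conj_first_order` with `B = ∑ a l • dm (b l)`, `D = ∑ a l • dm (d l)`: `B + D - Z B Z⁻¹ = ∑ a l • dm (c l)`, so `near_ext` (D8i): `g f ≡ ε f + ∑ a l * c l f`, and `first_order_commute` (D8g) for `tc A σ w x` (killed by `p`: conjugate of `ρ.ev (x, σ)`,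
`conj_eq_mk_tc`) gives `g f ≡ ε f` modulo `𝔫 ^ (m+1)`, i.e. `tc A σ w x ≡ bc z` (`congr_iff`). -/
theorem stage [Algebra.FiniteType ℚ O] (ρ : MatRep A n) (hρ : IG.Faithful ρ) {K : Type} [Field K]
    [Algebra ℚ K] {𝒜 : Type} [CommRing 𝒜] [Algebra ℚ 𝒜] [Algebra K 𝒜] (𝔫 : Ideal 𝒜) (N : ℕ)
    (hN : 𝔫 ^ N = ⊥) (m : ℕ) (hm : 1 ≤ m) (σ : Γ) (z : Pts O K) (x : Pts O 𝒜) (p : Polynomial K)
    (hp : Squarefree p) (hpz : Polynomial.aeval (ρ.ev K (⟨z, σ⟩ : A.LGroup K)) p = 0)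
    (hpx : Polynomial.aeval (ρ.ev 𝒜 (⟨x, σ⟩ : A.LGroup 𝒜)) p = 0)
    (hx : ∀ f, x.hom f - (bc 𝒜 z).hom f ∈ 𝔫 ^ m) :
    ∃ w : Pts O 𝒜, ∀ f, (tc A σ w x).hom f - (bc 𝒜 z).hom f ∈ 𝔫 ^ (m + 1) := by
  set Zl : A.LGroup K := ⟨z, σ⟩ with hZl
  set I₁ : Ideal 𝒜 := 𝔫 ^ (m + 1) with hI₁
  have hle : 𝔫 ^ (m + 1) ≤ 𝔫 ^ m := Ideal.pow_le_pow_right (Nat.le_succ m)
  -- the first order part of `u`
  have hu : ∀ f, (x * (bc 𝒜 z)⁻¹).hom f - algebraMap ℚ 𝒜 (counit (R := ℚ) f) ∈ 𝔫 ^ m := by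
    have h1 := (congr_iff (𝔫 ^ m) x (bc 𝒜 z)).1 hx
    refine (congr_iff (𝔫 ^ m) (x * (bc 𝒜 z)⁻¹) 1).2 ?_
    rw [map_mul, map_inv, h1, mul_inv_cancel, map_one]
  obtain ⟨q, a, d, ha, hd, hdu⟩ := exists_first_order (K := K) 𝔫 m hm (x * (bc 𝒜 z)⁻¹) hu
  choose c b hc hb hdec hcomm using fun l => IsDer.exists_decomp ρ Zl p hp hpz (hd l)
  obtain ⟨w, hw⟩ := exists_prod_exp 𝔫 N hN m hm q a b ha hb
  refine ⟨w, ?_⟩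
  -- `w` is near the unit
  have hw1 : ∀ f, w.hom f - (1 : Pts O 𝒜).hom f ∈ 𝔫 ^ m := by
    intro f
    have h1 : (∑ l, a l * algebraMap K 𝒜 (b l f)) ∈ 𝔫 ^ m :=
      Ideal.sum_mem _ fun l _ => Ideal.mul_mem_right _ _ (ha l)
    have h2 := Ideal.add_mem _ (hle (hw f)) h1
    rw [sub_add_cancel] at h2
    exact h2
  have hw2 := (congr_iff (𝔫 ^ m) w 1).1 hw1
  have hg : ∀ f, (tc A σ w x * (bc 𝒜 z)⁻¹).hom f - algebraMap ℚ 𝒜 (counit (R := ℚ) f) ∈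
      𝔫 ^ m := by
    have h1 := (congr_iff (𝔫 ^ m) x (bc 𝒜 z)).1 hx
    refine (congr_iff (𝔫 ^ m) (tc A σ w x * (bc 𝒜 z)⁻¹) 1).2 ?_
    rw [map_mul, map_inv, map_tc, hw2, map_one, tc_one, h1, mul_inv_cancel]
  -- the matrix of `g`
  have hZ : ρ.ev 𝒜 (⟨bc 𝒜 z, σ⟩ : A.LGroup 𝒜) = (ρ.ev K Zl).map (algebraMap K 𝒜) :=
    ρ.ev_mapL (algebraMap K 𝒜).toRatAlgHom Zl
  have hZi : ρ.ev 𝒜 (⟨bc 𝒜 z, σ⟩ : A.LGroup 𝒜)⁻¹ = (ρ.ev K Zl⁻¹).map (algebraMap K 𝒜) := by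
    have h1 : (⟨bc 𝒜 z, σ⟩ : A.LGroup 𝒜)⁻¹ =
        A.mapL (algebraMap K 𝒜).toRatAlgHom Zl⁻¹ := by
      rw [map_inv]
      rfl
    rw [h1]
    exact ρ.ev_mapL (algebraMap K 𝒜).toRatAlgHom Zl⁻¹
  have hinl : ∀ v : Pts O 𝒜, ρ.ev 𝒜 (SemidirectProduct.inl v : A.LGroup 𝒜) = ρ.gm v := by
    intro v
    rw [ρ.ev_apply, SemidirectProduct.left_inl, SemidirectProduct.right_inl, map_one, mul_one]
  have hgrp : (SemidirectProduct.inl (tc A σ w x * (bc 𝒜 z)⁻¹) : A.LGroup 𝒜) =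
      SemidirectProduct.inl w * SemidirectProduct.inl (x * (bc 𝒜 z)⁻¹) *
        ((⟨bc 𝒜 z, σ⟩ : A.LGroup 𝒜) * SemidirectProduct.inl w⁻¹ *
          (⟨bc 𝒜 z, σ⟩ : A.LGroup 𝒜)⁻¹) := by
    have h1 : (⟨bc 𝒜 z, σ⟩ : A.LGroup 𝒜) * SemidirectProduct.inl w⁻¹ *
        (⟨bc 𝒜 z, σ⟩ : A.LGroup 𝒜)⁻¹ =
        SemidirectProduct.inl (bc 𝒜 z * A.onPts 𝒜 σ w⁻¹ * (bc 𝒜 z)⁻¹) := by
      rw [SemidirectProduct.mk_eq_inl_mul_inr]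
      simp only [mul_inv_rev, map_mul, map_inv, SemidirectProduct.inl_aut, mul_assoc, inv_inv]
    rw [h1, ← map_mul, ← map_mul]
    congr 1
    rw [tc, map_inv]
    group
  have hgg : ρ.gm (tc A σ w x * (bc 𝒜 z)⁻¹) = ρ.gm w * ρ.gm (x * (bc 𝒜 z)⁻¹) *
      (ρ.ev 𝒜 (⟨bc 𝒜 z, σ⟩ : A.LGroup 𝒜) * ρ.gm w⁻¹ *
        ρ.ev 𝒜 (⟨bc 𝒜 z, σ⟩ : A.LGroup 𝒜)⁻¹) := by
    have h1 := congrArg (ρ.ev 𝒜) hgrp
    rw [map_mul (ρ.ev 𝒜), map_mul (ρ.ev 𝒜), map_mul (ρ.ev 𝒜), map_mul (ρ.ev 𝒜), hinl, hinl, hinl,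
      hinl] at h1
    exact h1
  have hmat : ∀ i j, (ρ.gm (tc A σ w x * (bc 𝒜 z)⁻¹) - 1 -
      ∑ l, a l • (dm ρ (c l)).map (algebraMap K 𝒜)) i j ∈ 𝔫 ^ (m + 1) := by
    intro i j
    have h1 := conj_first_order 𝔫 m hm (ρ.gm w) (ρ.gm w⁻¹) (ρ.gm (x * (bc 𝒜 z)⁻¹))
      (ρ.ev 𝒜 (⟨bc 𝒜 z, σ⟩ : A.LGroup 𝒜)) (ρ.ev 𝒜 (⟨bc 𝒜 z, σ⟩ : A.LGroup 𝒜)⁻¹)
      (∑ l, a l • (dm ρ (b l)).map (algebraMap K 𝒜))
      (∑ l, a l • (dm ρ (d l)).map (algebraMap K 𝒜)) (ρ.gm_mul_inv w)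
      (by rw [← map_mul, mul_inv_cancel, map_one])
      (fun i j => D8jb_sum_mem _ a ha _ i j) (fun i j => D8jb_sum_mem _ a ha _ i j)
      (fun i j => by rw [D8jb_entry]; exact hw _)
      (fun i j => by rw [D8jb_entry]; exact hdu _) i j
    rw [← hgg] at h1
    have h2 := D8jb_alg a (ρ.ev K Zl) (ρ.ev K Zl⁻¹) (fun l => dm ρ (b l))
      (fun l => dm ρ (c l)) (fun l => dm ρ (d l)) hdec
    rw [hZ, hZi, h2] at h1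
    exact h1
  have hnear := near_ext ρ hρ 𝔫 m hm (tc A σ w x * (bc 𝒜 z)⁻¹) hg q a c hc hmat
  have hfin := first_order_commute ρ hρ 𝔫 m hm σ z (tc A σ w x) p hp hpz
    (aeval_tc ρ σ x w p hpx) q a c ha hc hcomm hnear
  have h3 := (congr_iff (𝔫 ^ (m + 1)) (tc A σ w x * (bc 𝒜 z)⁻¹) 1).1 hfin
  refine (congr_iff (𝔫 ^ (m + 1)) (tc A σ w x) (bc 𝒜 z)).2 ?_
  rw [map_mul, map_inv, map_one] at h3
  exact mul_inv_eq_one.1 h3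

end Pool.Agent.Lib.MP_666dc0_nt.LD
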