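import Pool.Agent.Lib.MP_666dc0_nt.LD.D8jb

open TensorProduct Coalgebra
open scoped TensorProduct Matrix

namespace Pool.Agent.Lib.MP_666dc0_nt.LD

variable {O : Type} [CommRing O] [HopfAlgebra ℚ O] {Γ : Type} [Group Γ] {A : HopfAction Γ O} {n : ℕ}

private theorem D8jc_aeval_conj {K : Type} [Field K] {𝒜 : Type} [CommRing 𝒜] [Algebra K 𝒜]
    (u : (Matrix (Fin n) (Fin n) 𝒜)ˣ) (M : Matrix (Fin n) (Fin n) 𝒜) (p : Polynomial K) :
    Polynomial.aeval ((u : Matrix (Fin n) (Fin n) 𝒜) * M * ((u⁻¹ : (Matrix (Fin n) (Fin n) 𝒜)ˣ) :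
      Matrix (Fin n) (Fin n) 𝒜)) p = (u : Matrix (Fin n) (Fin n) 𝒜) * Polynomial.aeval M p *
        ((u⁻¹ : (Matrix (Fin n) (Fin n) 𝒜)ˣ) : Matrix (Fin n) (Fin n) 𝒜) := by
  induction p using Polynomial.induction_on' with
  | add p q hp hq => rw [map_add, map_add, hp, hq, mul_add, add_mul]
  | monomial k a =>
    rw [Polynomial.aeval_monomial, Polynomial.aeval_monomial, Units.conj_pow, ← Algebra.smul_def,
      ← Algebra.smul_def, mul_smul_comm, smul_mul_assoc]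

/-- Rigidity. By induction on `m` from `1` to `N` (`stage`; replace `x` by `tc A σ w x`, which is killed by `p`; `tc_mul`): there is `w` with `tc A σ w x ≡ bc z` modulo `𝔫 ^ m` for all `m ≥ 1`; for `m = max N 1` this is an equality. -/
theorem rigid [Algebra.FiniteType ℚ O] (ρ : MatRep A n) (hρ : IG.Faithful ρ) {K : Type} [Field K]
    [Algebra ℚ K] {𝒜 : Type} [CommRing 𝒜] [Algebra ℚ 𝒜] [Algebra K 𝒜] (𝔫 : Ideal 𝒜) (N : ℕ)
    (hN : 𝔫 ^ N = ⊥) (σ : Γ) (z : Pts O K) (x : Pts O 𝒜) (p : Polynomial K)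
    (hp : Squarefree p) (hpz : Polynomial.aeval (ρ.ev K (⟨z, σ⟩ : A.LGroup K)) p = 0)
    (hpx : Polynomial.aeval (ρ.ev 𝒜 (⟨x, σ⟩ : A.LGroup 𝒜)) p = 0)
    (hx : ∀ f, x.hom f - (bc 𝒜 z).hom f ∈ 𝔫) :
    ∃ w : Pts O 𝒜, tc A σ w x = bc 𝒜 z := by
  have hconj : ∀ w : Pts O 𝒜,
      Polynomial.aeval (ρ.ev 𝒜 (⟨tc A σ w x, σ⟩ : A.LGroup 𝒜)) p = 0 := by
    intro w
    have h1 : ρ.ev 𝒜 (⟨tc A σ w x, σ⟩ : A.LGroup 𝒜) =
        ((Units.map (ρ.ev 𝒜) (toUnits (SemidirectProduct.inl w : A.LGroup 𝒜)) :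
          (Matrix (Fin n) (Fin n) 𝒜)ˣ) : Matrix (Fin n) (Fin n) 𝒜) *
          ρ.ev 𝒜 (⟨x, σ⟩ : A.LGroup 𝒜) *
          (((Units.map (ρ.ev 𝒜) (toUnits (SemidirectProduct.inl w : A.LGroup 𝒜)))⁻¹ :
            (Matrix (Fin n) (Fin n) 𝒜)ˣ) : Matrix (Fin n) (Fin n) 𝒜) := by
      have h2 : (((Units.map (ρ.ev 𝒜) (toUnits (SemidirectProduct.inl w : A.LGroup 𝒜)))⁻¹ :
            (Matrix (Fin n) (Fin n) 𝒜)ˣ) : Matrix (Fin n) (Fin n) 𝒜) =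
          ρ.ev 𝒜 (SemidirectProduct.inl w : A.LGroup 𝒜)⁻¹ := by
        rw [← map_inv, ← map_inv]
        rfl
      rw [← conj_eq_mk_tc, map_mul, map_mul, h2]
      rfl
    rw [h1, D8jc_aeval_conj, hpx, mul_zero, zero_mul]
  have hind : ∀ m : ℕ, 1 ≤ m → ∃ w : Pts O 𝒜, ∀ f, (tc A σ w x).hom f - (bc 𝒜 z).hom f ∈ 𝔫 ^ m := by
    intro m hm
    induction m, hm using Nat.le_induction with
    | base =>
      refine ⟨1, fun f => ?_⟩
      rw [tc_one, pow_one]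
      exact hx f
    | succ m hm ih =>
      obtain ⟨w, hw⟩ := ih
      obtain ⟨w', hw'⟩ := stage ρ hρ 𝔫 N hN m hm σ z (tc A σ w x) p hp hpz (hconj w) hw
      refine ⟨w' * w, fun f => ?_⟩
      rw [tc_mul]
      exact hw' f
  obtain ⟨w, hw⟩ := hind (max N 1) (le_max_right _ _)
  refine ⟨w, ?_⟩
  ext f
  have h1 := Ideal.pow_le_pow_right (le_max_left N 1) (hw f)
  rw [hN] at h1
  exact sub_eq_zero.1 h1

end Pool.Agent.Lib.MP_666dc0_nt.LD
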