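import Pool.Agent.Lib.MP_666dc0_nt.LD.D3a
import Pool.Agent.Lib.MP_666dc0_nt.LD.D4
import Pool.Agent.Lib.MP_666dc0_nt.LD.D6
import Pool.Agent.Lib.MP_666dc0_nt.LD.D7
import Pool.Agent.Lib.MP_666dc0_nt.LD.D8jc

open TensorProduct Coalgebra
open scoped TensorProduct Matrix

namespace Pool.Agent.Lib.MP_666dc0_nt.LD

variable {O : Type} [CommRing O] [HopfAlgebra ℚ O] {Γ : Type} [Group Γ] {A : HopfAction Γ O} {n : ℕ}

/-- The orbit of a semisimple element is closed. `exists_taut` (D3): `R`, `ζ`, `X`, `L`, `u`, `x'`. Put `𝔪 := ker ζ ≠ ⊤`. For each `N` let `𝒜 := R ⧸ 𝔪 ^ N`, `𝔫 := 𝔪.map (mk)`, `𝔫 ^ N = ⊥`; the image of `X` in `𝒜` is congruent to `bc 𝒜 z` modulo `𝔫` (`ζ (X f) = z f`: `X f - algebraMap K R (z f) ∈ 𝔪`),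
is killed by `p` (as a point of the L-group over `σ`; map of `aeval = 0` under `R → 𝒜`), and `p` kills `ρ.ev (z, σ)` (apply `ζ`). `rigid` (D8j): `w` with `tc A σ w X_𝒜 = bc 𝒜 z`, so `tc A σ w⁻¹ (bc z) = X_𝒜` (`tc_mul`, `tc_one`). With the transporter algebra `Tr` (D5) of `z_R := bc R z` and `X` over `R`: homomorphisms
`Tr → R ⧸ 𝔪 ^ N` for all `N`; D4: a field `L'` with `R → L'` injective and `Tr → L'`, i.e. `u'` over `L'` with `tc A σ u' z = X`. D6: `Ω ⊇ L, L'` over `R`. Over `Ω`: `tc A σ u x = X = tc A σ u' z`, so `tc A σ (u'⁻¹ u) x = z`; D7. -/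
theorem conj_of_inClosure [Algebra.FiniteType ℚ O] (ρ : MatRep A n) (hρ : IG.Faithful ρ)
    {K : Type} [Field K] [IsAlgClosed K] [Algebra ℚ K] (σ : Γ) (x z : Pts O K) (p : Polynomial K)
    (hp : Squarefree p) (hpx : Polynomial.aeval (ρ.ev K (⟨x, σ⟩ : A.LGroup K)) p = 0)
    (hz : InClosure A σ x z) : ∃ h : Pts O K, tc A σ h x = z := by
  classical
  obtain ⟨R, iR, iDom, iNoeth, iQR, iKR, ζ, X, hζ, hX, L, iL, iQL, iRL, u, x', hinj, hx', hux⟩ :=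
    exists_taut A σ x z hz
  have hpz : Polynomial.aeval (ρ.ev K (⟨z, σ⟩ : A.LGroup K)) p = 0 :=
    aeval_eq_zero_of_relations ρ σ x p hpx z hz
  have hpX : Polynomial.aeval (ρ.ev R (⟨X, σ⟩ : A.LGroup R)) p = 0 :=
    aeval_eq_zero_of_relations ρ σ x p hpx X hX
  obtain ⟨Tr, iTr, iRTr, _, hTr⟩ := exists_transporter A σ (bc R z) X
  have hm : RingHom.ker ζ ≠ ⊤ := RingHom.ker_ne_top _
  have happ : ∀ N : ℕ, Nonempty (Tr →ₐ[R] R ⧸ (RingHom.ker ζ) ^ N) := by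
    intro N
    rw [hTr (R ⧸ (RingHom.ker ζ) ^ N)]
    have hN : ((RingHom.ker ζ).map (Ideal.Quotient.mk ((RingHom.ker ζ) ^ N))) ^ N = ⊥ := by
      rw [← Ideal.map_pow, Ideal.map_quotient_self]
    have h1 : Polynomial.aeval (ρ.ev (R ⧸ (RingHom.ker ζ) ^ N)
        (⟨bc (R ⧸ (RingHom.ker ζ) ^ N) X, σ⟩ : A.LGroup (R ⧸ (RingHom.ker ζ) ^ N))) p = 0 :=
      aeval_map ρ σ (Ideal.Quotient.mkₐ K ((RingHom.ker ζ) ^ N)) X p hpX
    have h2 : ∀ f, (bc (R ⧸ (RingHom.ker ζ) ^ N) X).hom f -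
        (bc (R ⧸ (RingHom.ker ζ) ^ N) z).hom f ∈
          (RingHom.ker ζ).map (Ideal.Quotient.mk ((RingHom.ker ζ) ^ N)) := by
      intro f
      have h3 : (bc (R ⧸ (RingHom.ker ζ) ^ N) X).hom f - (bc (R ⧸ (RingHom.ker ζ) ^ N) z).hom f =
          Ideal.Quotient.mk ((RingHom.ker ζ) ^ N) (X.hom f - algebraMap K R (z.hom f)) := by
        rw [map_sub]
        rfl
      rw [h3]
      refine Ideal.mem_map_of_mem _ ?_
      rw [RingHom.mem_ker, map_sub, hζ, AlgHom.commutes]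
      exact sub_self _
    obtain ⟨w, hw⟩ := rigid ρ hρ _ N hN σ z (bc (R ⧸ (RingHom.ker ζ) ^ N) X) p hp hpz h1 h2
    refine ⟨w⁻¹, ?_⟩
    have h4 : bc (R ⧸ (RingHom.ker ζ) ^ N) (bc R z) = bc (R ⧸ (RingHom.ker ζ) ^ N) z := rfl
    rw [h4, ← hw, ← tc_mul, inv_mul_cancel, tc_one]
  obtain ⟨L', iL', iRL', hinj', ⟨τ⟩⟩ := exists_field_of_approx (RingHom.ker ζ) hm happ
  let iQL' : Algebra ℚ L' := ((algebraMap R L').comp (algebraMap ℚ R)).toAlgebra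
  obtain ⟨u', hu'⟩ := (hTr L').1 ⟨τ⟩
  obtain ⟨Ω, iΩ, iRΩ, ⟨ψ⟩, ⟨ψ'⟩⟩ := exists_compositum L L' hinj hinj'
  let iQΩ : Algebra ℚ Ω := ((algebraMap R Ω).comp (algebraMap ℚ R)).toAlgebra
  let iKΩ : Algebra K Ω := ((algebraMap R Ω).comp (algebraMap K R)).toAlgebra
  have e1 : Pts.map (ψ : L →+* Ω).toRatAlgHom x' = bc Ω x := by
    apply Pts.ext
    apply AlgHom.ext
    intro f
    change ψ (x'.hom f) = algebraMap R Ω (algebraMap K R (x.hom f))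
    rw [hx', AlgHom.commutes]
  have e2 : Pts.map (ψ : L →+* Ω).toRatAlgHom (bc L X) = bc Ω X := by
    apply Pts.ext
    apply AlgHom.ext
    intro f
    change ψ (algebraMap R L (X.hom f)) = algebraMap R Ω (X.hom f)
    rw [AlgHom.commutes]
  have e3 : Pts.map (ψ' : L' →+* Ω).toRatAlgHom (bc L' (bc R z)) = bc Ω z := by
    apply Pts.ext
    apply AlgHom.ext
    intro f
    change ψ' (algebraMap R L' (algebraMap K R (z.hom f))) =
      algebraMap R Ω (algebraMap K R (z.hom f))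
    rw [AlgHom.commutes]
  have e4 : Pts.map (ψ' : L' →+* Ω).toRatAlgHom (bc L' X) = bc Ω X := by
    apply Pts.ext
    apply AlgHom.ext
    intro f
    change ψ' (algebraMap R L' (X.hom f)) = algebraMap R Ω (X.hom f)
    rw [AlgHom.commutes]
  have f1 : tc A σ (Pts.map (ψ : L →+* Ω).toRatAlgHom u) (bc Ω x) = bc Ω X := by
    rw [← e1, ← e2, ← map_tc, hux]
  have f2 : tc A σ (Pts.map (ψ' : L' →+* Ω).toRatAlgHom u') (bc Ω z) = bc Ω X := by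
    rw [← e3, ← e4, ← map_tc, hu']
  refine conj_descend A σ x z Ω ((Pts.map (ψ' : L' →+* Ω).toRatAlgHom u')⁻¹ *
    Pts.map (ψ : L →+* Ω).toRatAlgHom u) ?_
  rw [tc_mul, f1, ← f2, ← tc_mul, inv_mul_cancel, tc_one]

end Pool.Agent.Lib.MP_666dc0_nt.LD
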