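import Pool.Agent.Lib.MP_666dc0_nt.LD.D2
import Pool.Agent.Lib.MP_666dc0_nt.LD.D9a

open TensorProduct Coalgebra
open scoped TensorProduct Matrix

namespace Pool.Agent.Lib.MP_666dc0_nt.LD

variable {O : Type} [CommRing O] [HopfAlgebra ℚ O] {Γ : Type} [Group Γ] {A : HopfAction Γ O} {n : ℕ}

/-- **Semisimple elements of the coset `Ĝ ⋊ σ` with the same invariants are conjugate under `Ĝ`.** `exists_common` (D2) and `conj_of_inClosure` twice. -/
theorem exists_conj_of_eqv [Algebra.FiniteType ℚ O] (hO : LinearlyReductive O) (ρ : MatRep A n)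
    (hρ : IG.Faithful ρ) {K : Type} [Field K] [IsAlgClosed K] [Algebra ℚ K] (σ : Γ)
    (x y : Pts O K) (hxy : ∀ f ∈ A.inv σ, x.hom f = y.hom f) (p q : Polynomial K)
    (hp : Squarefree p) (hpx : Polynomial.aeval (ρ.ev K (⟨x, σ⟩ : A.LGroup K)) p = 0)
    (hq : Squarefree q) (hqy : Polynomial.aeval (ρ.ev K (⟨y, σ⟩ : A.LGroup K)) q = 0) :
    ∃ h : Pts O K, tc A σ h x = y := by
  obtain ⟨z, hxz, hyz⟩ := exists_common A hO σ x y hxy
  obtain ⟨h, hh⟩ := conj_of_inClosure ρ hρ σ x z p hp hpx hxz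
  obtain ⟨k, hk⟩ := conj_of_inClosure ρ hρ σ y z q hq hqy hyz
  refine ⟨k⁻¹ * h, ?_⟩
  rw [tc_mul, hh, ← hk, ← tc_mul, inv_mul_cancel, tc_one]

end Pool.Agent.Lib.MP_666dc0_nt.LD
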