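import Pool.Agent.Lib.MP_666dc0_nt.LD.EA1

namespace Pool.Agent.Lib.MP_666dc0_nt.LD

variable {𝒳 : Type} [CommMonoid 𝒳] {K K1 : Type} [Field K] [Field K1] [Algebra K K1]

/-- the character `x ↦ θ x * χ x` -/
private def EB1_hom (θ : 𝒳 →* K1ˣ) (χ : 𝒳 →* Kˣ) : 𝒳 →* K1 where
  toFun x := (θ x : K1) * algebraMap K K1 (χ x : K)
  map_one' := by simp
  map_mul' x y := by
    simp only [map_mul, Units.val_mul]
    ring

private lemma EB1_hom_apply (θ : 𝒳 →* K1ˣ) (χ : 𝒳 →* Kˣ) (x : 𝒳) :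
    EB1_hom θ χ x = (θ x : K1) * algebraMap K K1 (χ x : K) := rfl

/-- Independence of types. Write `F i x = ∑ χ ∈ s i, c i χ * χ x` (`exists_sum_of_mem_CH`). The functions `x ↦ θ i x * χ x`, `(i, χ)` with `i ∈ s`, are characters of `𝒳` with values in `K1`, pairwise distinct: for equal `i` since `θ i x ≠ 0` and `algebraMap` is injective, for different `i` by `hθ`. So all the
coefficients in `∑_{i} ∑_χ c i χ * (θ i x * χ x) = 0` vanish (`linearIndependent_monoidHom 𝒳 K1`), so `F i x = 0`. -/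
theorem typed_indep {ι : Type} (s : Finset ι) (θ : ι → 𝒳 →* K1ˣ)
    (hθ : ∀ i ∈ s, ∀ i' ∈ s, ∀ χ χ' : 𝒳 →* Kˣ,
      (∀ x, (θ i x : K1) * algebraMap K K1 (χ x : K) = (θ i' x : K1) * algebraMap K K1 (χ' x : K)) →
      i = i')
    (F : ι → 𝒳 → K1) (hF : ∀ i ∈ s, F i ∈ CH 𝒳 K K1)
    (h : ∀ x, ∑ i ∈ s, (θ i x : K1) * F i x = 0) : ∀ i ∈ s, ∀ x, F i x = 0 := by
  choose S C hC using fun i : s => exists_sum_of_mem_CH (hF i.1 i.2)
  have hinj : Function.Injective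
      (fun p : (_ : s) × (𝒳 →* Kˣ) => EB1_hom (K1 := K1) (θ p.1.1) p.2) := by
    rintro ⟨i, χ⟩ ⟨i', χ'⟩ he
    have h1 : ∀ x, (θ i.1 x : K1) * algebraMap K K1 (χ x : K) =
        (θ i'.1 x : K1) * algebraMap K K1 (χ' x : K) := fun x => DFunLike.congr_fun he x
    have h2 : i = i' := Subtype.ext (hθ i.1 i.2 i'.1 i'.2 χ χ' h1)
    subst h2
    have h3 : χ = χ' := by
      refine MonoidHom.ext fun x => Units.ext ?_
      have h4 := mul_left_cancel₀ (θ i.1 x).ne_zero (h1 x)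
      exact (algebraMap K K1).injective h4
    rw [h3]
  have hli := (linearIndependent_monoidHom 𝒳 K1).comp _ hinj
  rw [linearIndependent_iff'] at hli
  have hsum := hli ((Finset.univ : Finset s).sigma S) (fun p => C p.1 p.2) (by
    funext x
    rw [Finset.sum_apply, Pi.zero_apply, Finset.sum_sigma]
    have h1 := h x
    rw [← Finset.sum_coe_sort s] at h1
    rw [← h1]
    refine Finset.sum_congr rfl fun i _ => ?_
    rw [hC i x, Finset.mul_sum]
    refine Finset.sum_congr rfl fun χ _ => ?_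
    simp only [Function.comp, Pi.smul_apply, smul_eq_mul, EB1_hom_apply]
    ring)
  intro i hi x
  rw [hC ⟨i, hi⟩ x]
  refine Finset.sum_eq_zero fun χ hχ => ?_
  have h1 := hsum ⟨⟨i, hi⟩, χ⟩ (Finset.mem_sigma.mpr ⟨Finset.mem_univ _, hχ⟩)
  simp only at h1
  rw [h1, zero_mul]

end Pool.Agent.Lib.MP_666dc0_nt.LD
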