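import Pool.Agent.Lib.MP_666dc0_nt.LD.EA2
import Pool.Agent.Lib.MP_666dc0_nt.LD.EB2
import Pool.Agent.Lib.MP_666dc0_nt.LD.EC1

namespace Pool.Agent.Lib.MP_666dc0_nt.LD

variable {K K1 : Type} [Field K] [Field K1] [Algebra K K1] {n : ℕ}

/-- The diagonal parts. By `Proj.pow`, `trace ((X dg T)^a G) = ∑_j T^(j a) trace (e j X^a G)`; `typed_indep_one`. -/
theorem trace_diag (T : K1) (hT0 : T ≠ 0)
    (hT : ∀ (α β : K) (i j : ℤ), α ≠ 0 → β ≠ 0 →
      algebraMap K K1 α * T ^ i = algebraMap K K1 β * T ^ j → i = j)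
    {J : Finset ℤ} {e : ℤ → Matrix (Fin n) (Fin n) K1} (he : Proj J e)
    (X : Matrix (Fin n) (Fin n) K1) (hXe : ∀ j ∈ J, e j * X = X * e j) (Λ : Finset K)
    (h0 : (0 : K) ∉ Λ)
    (hX : Polynomial.aeval X (∏ α ∈ Λ, (Polynomial.X - Polynomial.C (algebraMap K K1 α))) = 0)
    (G : Matrix (Fin n) (Fin n) K1) (δ : ℕ → K1) (η : ℤ → ℕ → K1)
    (hδ : (fun x : Multiplicative ℕ => δ (Multiplicative.toAdd x)) ∈ CH (Multiplicative ℕ) K K1)
    (hη : ∀ l ∈ J, (fun x : Multiplicative ℕ => η l (Multiplicative.toAdd x)) ∈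
      CH (Multiplicative ℕ) K K1)
    (h : ∀ a : ℕ, δ a * ((X * dg J e T) ^ a * G).trace = ∑ l ∈ J, T ^ (l * (a : ℤ)) * η l a)
    {j : ℤ} (hj : j ∈ J) (a : ℕ) : δ a * (e j * X ^ a * G).trace = η j a := by
  have htr : ∀ l, (fun x : Multiplicative ℕ => (e l * X ^ (Multiplicative.toAdd x) * G).trace) ∈
      CH (Multiplicative ℕ) K K1 := by
    intro l
    have h1 : (fun x : Multiplicative ℕ => (e l * X ^ (Multiplicative.toAdd x) * G).trace) =
        ∑ i : Fin n, ∑ m : Fin n, ∑ k : Fin n, (e l i k * G m i) •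
          (fun x : Multiplicative ℕ => (X ^ (Multiplicative.toAdd x)) k m) := by
      funext x
      simp only [Matrix.trace, Matrix.diag_apply, Matrix.mul_apply, Finset.sum_apply, Pi.smul_apply,
        smul_eq_mul, Finset.sum_mul]
      refine Finset.sum_congr rfl fun i _ => Finset.sum_congr rfl fun m _ =>
        Finset.sum_congr rfl fun k _ => ?_
      ring
    rw [h1]
    refine Subalgebra.sum_mem _ fun i _ => Subalgebra.sum_mem _ fun m _ =>
      Subalgebra.sum_mem _ fun k _ => Subalgebra.smul_mem _ ?_ _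
    exact pow_entries_mem_CH X Λ h0 hX (MonoidHom.id _) k m
  have hF : ∀ l ∈ J, (fun x : Multiplicative ℕ =>
      (fun (l : ℤ) (a : ℕ) => δ a * (e l * X ^ a * G).trace - η l a) l (Multiplicative.toAdd x)) ∈
      CH (Multiplicative ℕ) K K1 := by
    intro l hl
    exact Subalgebra.sub_mem _ (Subalgebra.mul_mem _ hδ (htr l)) (hη l hl)
  have hsum : ∀ a : ℕ, ∑ l ∈ J, T ^ (l * (a : ℤ)) *
      (fun (l : ℤ) (a : ℕ) => δ a * (e l * X ^ a * G).trace - η l a) l a = 0 := by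
    intro a
    have h2 := h a
    rw [he.pow X hXe T hT0 a, Finset.sum_mul, Matrix.trace_sum, Finset.mul_sum] at h2
    have h3 : ∀ l ∈ J, T ^ (l * (a : ℤ)) *
        (fun (l : ℤ) (a : ℕ) => δ a * (e l * X ^ a * G).trace - η l a) l a =
        δ a * (T ^ (l * (a : ℤ)) • (e l * X ^ a) * G).trace - T ^ (l * (a : ℤ)) * η l a := by
      intro l _
      rw [Matrix.smul_mul, Matrix.trace_smul, smul_eq_mul]
      ring
    rw [Finset.sum_congr rfl h3, Finset.sum_sub_distrib, h2, sub_self]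
  exact sub_eq_zero.1 (typed_indep_one T hT0 hT J _ hF hsum j hj a)

end Pool.Agent.Lib.MP_666dc0_nt.LD
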