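import Mathlib

namespace Pool.Agent.Lib.MP_666dc0_nt.LD

variable (𝒳 : Type) [CommMonoid 𝒳] (K K1 : Type) [Field K] [Field K1] [Algebra K K1]

/-- The algebra of functions on the monoid `𝒳` generated by the characters with values in `Kˣ ⊂ K1ˣ`. -/
def CH : Subalgebra K1 (𝒳 → K1) :=
  Algebra.adjoin K1 {f | ∃ χ : 𝒳 →* Kˣ, f = fun x => algebraMap K K1 (χ x : K)}

variable {𝒳 K K1}

theorem char_mem_CH (χ : 𝒳 →* Kˣ) : (fun x => algebraMap K K1 (χ x : K)) ∈ CH 𝒳 K K1 :=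
  Algebra.subset_adjoin ⟨χ, rfl⟩

end Pool.Agent.Lib.MP_666dc0_nt.LD
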